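import Mathlib

namespace Pool.Agent.MP_d99b12_co.H30

/-- The columns `v e`, `e ∈ E(M)`, represent the matroid `M`. -/
def Rep {α F : Type} [Field F] {n : ℕ} (M : Matroid α) (v : α → Fin n → F) : Prop :=
  ∀ I ⊆ M.E, (M.Indep I ↔ LinearIndepOn F v I)

/-- On the labels in `S`, the matrix `w` arises from `v` by a field automorphism, a scaling of the
columns and invertible row operations. -/
def Equivalent {α F : Type} [Field F] {n : ℕ} (S : Set α) (v w : α → Fin n → F) : Prop :=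
  ∃ φ : (Fin n → F) ≃ₗ[F] (Fin n → F), ∃ c : α → Fˣ, ∃ σ : F ≃+* F,
    ∀ e ∈ S, w e = φ (fun t => (c e : F) * σ (v e t))

/-- Tutte connectivity: there is no `j`-separation with `j < c`. -/
def TutteConnected {α : Type} (M : Matroid α) (c : ℕ) : Prop :=
  ∀ j : ℕ, j < c → ∀ X ⊆ M.E, j ≤ X.ncard → j ≤ (M.E \ X).ncard →
    M.eRank + (j : ℕ∞) ≤ M.eRk X + M.eRk (M.E \ X)

end Pool.Agent.MP_d99b12_co.H30
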