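import Pool.Agent.MP_d99b12_co.H30.Fam
import Pool.Agent.MP_d99b12_co.H30.Defs

/-!
Translation to matroids.
-/

namespace Pool.Agent.MP_d99b12_co.H30

open Module Submodule Set

section general

variable {F V ι : Type*} [Field F] [AddCommGroup V] [Module F V] [Fintype ι]

lemma ind_iff {v : ι → V} {I : Set ι} : Ind v (⊥ : Submodule F V) I ↔ LinearIndepOn F v I := by
  classical
  rw [linearIndepOn_iff]
  constructor
  · intro h l hl h0
    have := h l (fun i hi => by
      by_contra hne
      exact hi (hl (Finsupp.mem_support_iff.2 hne))) (by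
      rw [Finsupp.linearCombination_apply, Finsupp.sum_fintype _ _ (by simp)] at h0
      exact h0)
    exact DFunLike.coe_injective this
  · intro h c hc hm
    have := h (Finsupp.equivFunOnFinite.symm c) (fun i hi => by
      by_contra hne
      exact (Finsupp.mem_support_iff.1 hi) (hc i hne)) (by
      rw [Finsupp.linearCombination_apply, Finsupp.sum_fintype _ _ (by simp)]
      exact hm)
    exact funext fun i => by simpa using DFunLike.congr_fun this i

lemma eRk_eq [FiniteDimensional F V] {M : Matroid ι} {v : ι → V}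
    (h : ∀ I ⊆ M.E, (M.Indep I ↔ LinearIndepOn F v I)) {X : Set ι} (hX : X ⊆ M.E) :
    M.eRk X = rk F v X := by
  obtain ⟨I, hI⟩ := M.exists_isBasis X hX
  have h1 : Ind v (⊥ : Submodule F V) I := ind_iff.2 ((h I hI.indep.subset_ground).1 hI.indep)
  have h2 : sp F v X = sp F v I := by
    refine le_antisymm (sp_le.2 fun b hb => ?_) (sp_mono v hI.subset)
    by_contra hn
    have hbI : b ∉ I := fun h' => hn (mem_sp_of_mem v h')
    have h3 := h1.insert (t := b) (by rwa [bot_sup_eq])
    exact (hI.insert_dep ⟨hb, hbI⟩).not_indep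
      ((h _ (insert_subset (hX hb) hI.indep.subset_ground)).2 (ind_iff.1 h3))
  rw [← hI.encard_eq_eRk, rk, h2, ← rk, h1.rk_eq, I.toFinite.cast_ncard_eq]

end general

variable {α F : Type} [Field F] {n : ℕ}

/-- The twist of a matrix by a column scaling and a field automorphism. -/
def tw (c : α → Fˣ) (σ : F ≃+* F) (v : α → Fin n → F) : α → Fin n → F :=
  fun e t => (c e : F) * σ (v e t)

lemma lc_tw [Fintype α] (c : α → Fˣ) (σ : F ≃+* F) (v : α → Fin n → F) (z : α → F) :
    lc (tw c σ v) z = fun t => σ (lc v (fun b => σ.symm (z b * c b)) t) := by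
  funext t
  simp [lc_apply, tw, Finset.sum_apply, map_sum, mul_assoc]

lemma equivalent_iff [Fintype α] {S : Set α} {v w : α → Fin n → F} :
    Equivalent S v w ↔ ∃ (c : α → Fˣ) (σ : F ≃+* F), ∀ z : α → F, On S z →
      (lc w z = 0 ↔ lc v (fun b => σ.symm (z b * c b)) = 0) := by
  have key : ∀ (σ : F ≃+* F) (y : Fin n → F), (fun t => σ (y t)) = 0 ↔ y = 0 := fun σ y => by
    simp [funext_iff]
  constructor
  · rintro ⟨φ, c, σ, h⟩
    refine ⟨c, σ, fun z hz => ?_⟩
    have : lc w z = φ (lc (tw c σ v) z) := by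
      rw [lc_congr h hz, lc_apply, lc_apply, map_sum]
      simp only [map_smul]
      rfl
    rw [this, lc_tw, φ.map_eq_zero_iff, key]
  · rintro ⟨c, σ, h⟩
    obtain ⟨φ, hφ⟩ := exists_equiv_of_cyc (v := tw c σ v) (w := w) (S := S) fun z hz => by
      rw [h z hz, lc_tw, key]
    exact ⟨φ, c, σ, hφ⟩

lemma on_tw {S : Set α} {z : α → F} (hz : On S z) (c : α → F) (σ : F ≃+* F) :
    On S fun b => σ (z b * c b) := fun b hb => by simp [hz b hb]

lemma Equivalent.symm [Fintype α] {S : Set α} {v w : α → Fin n → F} (h : Equivalent S v w) :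
    Equivalent S w v := by
  obtain ⟨c, σ, h⟩ := equivalent_iff.1 h
  refine equivalent_iff.2 ⟨fun b => (Units.map (σ.symm : F →* F) (c b))⁻¹, σ.symm, fun z hz => ?_⟩
  rw [h _ (on_tw hz _ _)]
  simp

lemma Equivalent.trans [Fintype α] {S : Set α} {u v w : α → Fin n → F} (h : Equivalent S u v)
    (h' : Equivalent S v w) : Equivalent S u w := by
  obtain ⟨c, σ, h⟩ := equivalent_iff.1 h
  obtain ⟨c', σ', h'⟩ := equivalent_iff.1 h'
  refine equivalent_iff.2 ⟨fun b => c' b * Units.map (σ' : F →* F) (c b), σ.trans σ',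
    fun z hz => ?_⟩
  rw [h' z hz, h _ (on_tw hz _ _)]
  simp [mul_assoc]

lemma Equivalent.mono {S T : Set α} {v w : α → Fin n → F} (h : Equivalent S v w) (hT : T ⊆ S) :
    Equivalent T v w :=
  let ⟨φ, c, σ, h⟩ := h
  ⟨φ, c, σ, fun e he => h e (hT he)⟩

lemma Equivalent.rep [Fintype α] {M : Matroid α} {v w : α → Fin n → F} (h : Equivalent M.E v w)
    (hv : Rep M v) : Rep M w := by
  have key : ∀ {v w : α → Fin n → F}, Equivalent M.E v w → ∀ I ⊆ M.E,
      LinearIndepOn F v I → LinearIndepOn F w I := by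
    intro v w h I hI hv
    obtain ⟨c, σ, h⟩ := equivalent_iff.1 h
    rw [← ind_iff] at hv ⊢
    intro z hz hm
    have := hv _ (on_tw hz (fun b => c b) σ.symm) ((h z (hz.mono hI)).1 hm)
    funext b
    simpa using congrFun this b
  exact fun I hI => (hv I hI).trans ⟨key h I hI, key h.symm I hI⟩

lemma fam_of_rep [Fintype α] {M : Matroid α} {m : ℕ} (hM : TutteConnected M (m + 2)) {κ : Type*}
    {x : κ → α → Fin n → F} (hx : ∀ i, Rep M (x i)) : Fam F x M.E m := by
  refine ⟨fun i j S hS => ?_, fun i j hj X hX h1 h2 => ?_⟩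
  · exact_mod_cast (eRk_eq (hx i) hS).symm.trans (eRk_eq (hx j) hS)
  · have := hM j (by omega) X hX h1 h2
    rw [← M.eRk_ground, eRk_eq (hx i) subset_rfl, eRk_eq (hx i) hX,
      eRk_eq (hx i) sdiff_subset] at this
    exact_mod_cast this

theorem single_element (p : ℕ) (hp : p.Prime) (k : ℕ) (hk : 1 < k) : ∃ h : ℕ,
    ∀ (F : Type) [Field F] [Fintype F], Fintype.card F = p ^ k →
    ∀ (α : Type) [Finite α] (M : Matroid α),
      TutteConnected M ((if p = 2 then k - 1 else (k - 1) * (p - 1) + 1) + 2) →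
      ∀ e ∈ M.E, ∀ (n : ℕ) (u : α → Fin n → F) (v : Fin (h + 1) → α → Fin n → F)
        (π : Fin (h + 1) → (Fin n → F) →ₗ[F] (Fin n → F)),
        (∀ i, Rep M (v i)) → (∀ i, LinearMap.ker (π i) ≤ span F {v i e}) →
        (∀ i, Equivalent (M.E \ {e}) u fun b => π i (v i b)) →
        ∃ i j, i ≠ j ∧ Equivalent M.E (v i) (v j) := by
  classical
  set m := if p = 2 then k - 1 else (k - 1) * (p - 1) + 1 with hm
  refine ⟨2 * (p ^ k) ^ bnd (p ^ k) p m, ?_⟩
  intro F _ _ hF α _ M hM e he n u v π hv hπ hu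
  have := Fintype.ofFinite α
  have h1 := fun i => equivalent_iff.1 (hu i).symm
  choose c σ hc using h1
  -- normalised representations
  let x : Fin (2 * (p ^ k) ^ bnd (p ^ k) p m + 1) → α → Fin n → F :=
    fun i => tw (c i) (σ i) (v i)
  have hvx : ∀ i, Equivalent M.E (v i) (x i) := fun i =>
    ⟨LinearEquiv.refl _ _, c i, σ i, fun _ _ => rfl⟩
  have hx : ∀ i, Rep M (x i) := fun i => (hvx i).rep (hv i)
  have hc' : ∀ i, ∀ z : α → F, On (M.E \ {e}) z →
      (lc u z = 0 ↔ π i (lc (v i) fun b => (σ i).symm (z b * c i b)) = 0) := fun i z hz => by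
    rw [hc i z hz, lc_apply, lc_apply, map_sum]
    simp only [map_smul]
  suffices H : ∃ i j, i ≠ j ∧ ∀ z : α → F, On M.E z → (lc (x i) z = 0 ↔ lc (x j) z = 0) by
    obtain ⟨i, j, hij, h⟩ := H
    obtain ⟨φ, hφ⟩ := exists_equiv_of_cyc h
    have : Equivalent M.E (x j) (x i) :=
      ⟨φ, 1, RingEquiv.refl F, fun b hb => by simpa using hφ b hb⟩
    exact ⟨i, j, hij, (hvx i).trans (this.symm.trans (hvx j).symm)⟩
  obtain ⟨t, -, ht⟩ := Finset.exists_lt_card_fiber_of_mul_lt_card_of_maps_to
    (s := Finset.univ) (t := (Finset.univ : Finset Bool))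
    (f := fun i => decide (LinearMap.ker (π i) = ⊥))
    (n := Fintype.card F ^ bnd (Fintype.card F) p m) (fun _ _ => Finset.mem_univ _) (by simp [hF])
  set J := Finset.univ.filter fun i => decide (LinearMap.ker (π i) = ⊥) = t with hJ
  have hJc : Fintype.card F ^ bnd (Fintype.card F) p m < Fintype.card J := by simpa using ht
  have hz0 : ∀ (σ : F ≃+* F) (y : Fin n → F), (fun t => σ (y t)) = 0 ↔ y = 0 := fun σ y => by
    simp [funext_iff]
  cases t with
  | true =>
    have hker : ∀ i : J, LinearMap.ker (π i) = ⊥ := fun i => by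
      simpa using (Finset.mem_filter.1 i.2).2
    have h2 : ∀ i : J, ∃ φ : (Fin n → F) ≃ₗ[F] (Fin n → F), ∀ b ∈ M.E \ {e}, u b = φ (x i b) :=
      fun i => exists_equiv_of_cyc fun z hz => by
        rw [hc' i z hz, lc_tw, hz0, ← LinearMap.mem_ker, hker i, mem_bot]
    choose φ hφ using h2
    have h3 : ∀ i : J, Equivalent M.E (x i) fun b => φ i (x i b) := fun i =>
      ⟨φ i, 1, RingEquiv.refl F, fun b _ => by simp⟩
    obtain ⟨i, j, hij, h⟩ := del_core hp hF hk hm (x := fun (i : J) b => φ i (x i b))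
      (fam_of_rep hM fun i => (h3 i).rep (hx i)) he
      (fun i j b hb => (hφ i b hb).symm.trans (hφ j b hb)) hJc
    have h4 : ∀ (i : J) (z : α → F), lc (fun b => φ i (x i b)) z = φ i (lc (x i) z) :=
      fun i z => by simp only [lc_apply, map_sum, map_smul]
    refine ⟨i, j, fun h => hij (Subtype.ext h), fun z hz => ?_⟩
    simpa only [h4, LinearEquiv.map_eq_zero_iff] using h z hz
  | false =>
    have hker : ∀ i : J, LinearMap.ker (π i) = span F {v i e} := fun i => by
      have h2 : LinearMap.ker (π i) ≠ ⊥ := by simpa using (Finset.mem_filter.1 i.2).2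
      refine eq_of_le_of_finrank_le (hπ i) ?_
      have h3 : finrank F (span F ({v i e} : Set (Fin n → F))) ≤ 1 := by
        simpa using finrank_span_le_card (R := F) ({v i e} : Set (Fin n → F))
      exact h3.trans (Nat.one_le_iff_ne_zero.2 fun h => h2 (finrank_eq_zero.1 h))
    have h2 : ∀ (i : J) (z : α → F), On (M.E \ {e}) z →
        (lc u z = 0 ↔ lc (x i) z ∈ span F {x i e}) := fun i z hz => by
      rw [hc' i z hz, ← LinearMap.mem_ker, hker i, lc_tw, mem_span_singleton, mem_span_singleton]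
      constructor
      · rintro ⟨s, hs⟩
        refine ⟨σ i s / c i e, funext fun t => ?_⟩
        rw [← hs]
        simp [x, tw, ← mul_assoc]
      · rintro ⟨s, hs⟩
        refine ⟨(σ i).symm (s * c i e), funext fun t => (σ i).injective ?_⟩
        rw [← congrFun hs t]
        simp [x, tw, mul_assoc]
    obtain ⟨i, j, hij, h⟩ := con_core hp hF hk hm (x := fun i : J => x i)
      (fam_of_rep hM fun i => hx i) he
      (fun i j z hz h => (h2 j z hz).1 ((h2 i z hz).2 h)) hJc
    exact ⟨i, j, fun h => hij (Subtype.ext h), h⟩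

end Pool.Agent.MP_d99b12_co.H30
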