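import Mathlib

/-!
Linear algebra of finite vector configurations: spans of subfamilies, independence and circuits
modulo a subspace, separators, and the rank of a subspace modulo another one.
-/

namespace Pool.Agent.MP_d99b12_co.H30

open Module Submodule Set

variable {F V ι : Type*} [Field F] [AddCommGroup V] [Module F V] [Fintype ι]

/-- The linear combination map of the configuration. -/
noncomputable def lc (v : ι → V) : (ι → F) →ₗ[F] V := Fintype.linearCombination F v

lemma lc_apply (v : ι → V) (c : ι → F) : lc v c = ∑ i, c i • v i := rfl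

/-- Coefficient vectors vanishing outside `S`. -/
def On (S : Set ι) (c : ι → F) : Prop := ∀ i, i ∉ S → c i = 0

variable (F) in
/-- The span of the subfamily indexed by `S`. -/
def sp (v : ι → V) (S : Set ι) : Submodule F V := span F (v '' S)

omit [Fintype ι] in
lemma On.add {S : Set ι} {c d : ι → F} (hc : On S c) (hd : On S d) : On S (c + d) :=
  fun i hi => by simp [hc i hi, hd i hi]

omit [Fintype ι] in
lemma On.sub {S : Set ι} {c d : ι → F} (hc : On S c) (hd : On S d) : On S (c - d) :=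
  fun i hi => by simp [hc i hi, hd i hi]

omit [Fintype ι] in
lemma On.smul {S : Set ι} {c : ι → F} (hc : On S c) (s : F) : On S (s • c) :=
  fun i hi => by simp [hc i hi]

omit [Fintype ι] in
lemma On.mono {S T : Set ι} {c : ι → F} (hc : On S c) (h : S ⊆ T) : On T c :=
  fun i hi => hc i fun h' => hi (h h')

omit [Fintype ι] in
lemma on_zero (S : Set ι) : On S (0 : ι → F) := fun _ _ => rfl

omit [Fintype ι] in
lemma on_indicator (S : Set ι) (c : ι → F) : On S (S.indicator c) :=
  fun _ hi => indicator_of_notMem hi _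

omit [Fintype ι] in
lemma On.indicator {S T : Set ι} {c : ι → F} (hc : On S c) : On (T ∩ S) (T.indicator c) := by
  intro i hi
  by_cases h : i ∈ T
  · rw [indicator_of_mem h]; exact hc i fun h' => hi ⟨h, h'⟩
  · exact indicator_of_notMem h _

omit [Fintype ι] in
lemma On.indicator_eq {S T : Set ι} {c : ι → F} (hc : On S c) (h : S ⊆ T) :
    T.indicator c = c := by
  funext i
  by_cases hi : i ∈ T
  · exact indicator_of_mem hi _
  · rw [indicator_of_notMem hi]; exact (hc i fun h' => hi (h h')).symm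

omit [Fintype ι] in
lemma On.indicator_eq_zero {S T : Set ι} {c : ι → F} (hc : On S c) (h : Disjoint T S) :
    T.indicator c = 0 := by
  funext i
  by_cases hi : i ∈ T
  · rw [indicator_of_mem hi]; exact hc i fun h' => (Set.disjoint_left.1 h) hi h'
  · exact indicator_of_notMem hi _

omit [Fintype ι] in
lemma ind_add (T : Set ι) (c d : ι → F) :
    T.indicator (c + d) = T.indicator c + T.indicator d := by
  funext i; by_cases hi : i ∈ T <;> simp [hi]

omit [Fintype ι] in
lemma ind_sub (T : Set ι) (c d : ι → F) :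
    T.indicator (c - d) = T.indicator c - T.indicator d := by
  funext i; by_cases hi : i ∈ T <;> simp [hi]

omit [Fintype ι] in
lemma ind_compl (T : Set ι) (c : ι → F) : c = T.indicator c + Tᶜ.indicator c := by
  funext i; by_cases hi : i ∈ T <;> simp [hi]

open Classical in
lemma lc_single (v : ι → V) (i : ι) (s : F) : lc v (Pi.single i s) = s • v i := by
  rw [lc_apply, Finset.sum_eq_single i] <;> simp +contextual

omit [Fintype ι] in
open Classical in
lemma on_single {S : Set ι} {i : ι} (hi : i ∈ S) (s : F) : On S (Pi.single i s : ι → F) := by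
  intro j hj
  have : j ≠ i := fun h => hj (h ▸ hi)
  simp [this]

omit [Fintype ι] in
lemma mem_sp_of_mem (v : ι → V) {S : Set ι} {i : ι} (hi : i ∈ S) : v i ∈ sp F v S :=
  subset_span ⟨i, hi, rfl⟩

lemma On.lc_mem (v : ι → V) {S : Set ι} {c : ι → F} (hc : On S c) : lc v c ∈ sp F v S := by
  rw [lc_apply]
  refine sum_mem fun i _ => ?_
  by_cases hi : i ∈ S
  · exact smul_mem _ _ (mem_sp_of_mem v hi)
  · simp [hc i hi]

lemma mem_sp {v : ι → V} {S : Set ι} {x : V} : x ∈ sp F v S ↔ ∃ c : ι → F, On S c ∧ lc v c = x := by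
  refine ⟨fun h => ?_, fun ⟨c, hc, h⟩ => h ▸ hc.lc_mem v⟩
  induction h using span_induction with
  | mem x hx =>
    obtain ⟨i, hi, rfl⟩ := hx
    exact ⟨_, on_single hi 1, by rw [lc_single, one_smul]⟩
  | zero => exact ⟨0, on_zero S, map_zero _⟩
  | add x y _ _ hx hy =>
    obtain ⟨c, hc, rfl⟩ := hx
    obtain ⟨d, hd, rfl⟩ := hy
    exact ⟨c + d, hc.add hd, map_add _ _ _⟩
  | smul s x _ hx =>
    obtain ⟨c, hc, rfl⟩ := hx
    exact ⟨s • c, hc.smul s, map_smul _ _ _⟩

omit [Fintype ι] in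
lemma sp_mono (v : ι → V) {S T : Set ι} (h : S ⊆ T) : sp F v S ≤ sp F v T :=
  span_mono (image_mono h)

omit [Fintype ι] in
lemma sp_union (v : ι → V) (S T : Set ι) : sp F v (S ∪ T) = sp F v S ⊔ sp F v T := by
  simp [sp, image_union, span_union]

omit [Fintype ι] in
lemma sp_empty (v : ι → V) : sp F v ∅ = ⊥ := by simp [sp]

omit [Fintype ι] in
lemma sp_le {v : ι → V} {S : Set ι} {W : Submodule F V} : sp F v S ≤ W ↔ ∀ i ∈ S, v i ∈ W := by
  simp [sp, span_le, subset_def]

lemma mem_sup_sp {v : ι → V} {S : Set ι} {W : Submodule F V} {x : V} :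
    x ∈ W ⊔ sp F v S ↔ ∃ c : ι → F, On S c ∧ x - lc v c ∈ W := by
  rw [mem_sup]
  constructor
  · rintro ⟨y, hy, z, hz, rfl⟩
    obtain ⟨c, hc, rfl⟩ := mem_sp.1 hz
    exact ⟨c, hc, by simpa using hy⟩
  · rintro ⟨c, hc, h⟩
    exact ⟨_, h, _, hc.lc_mem v, by simp⟩

/-- The subfamily `C` is independent modulo `W`. -/
def Ind (v : ι → V) (W : Submodule F V) (C : Set ι) : Prop :=
  ∀ c : ι → F, On C c → lc v c ∈ W → c = 0

lemma Ind.mono {v : ι → V} {W W' : Submodule F V} {C C' : Set ι} (h : Ind v W C) (hW : W' ≤ W)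
    (hC : C' ⊆ C) : Ind v W' C' := fun c hc hm => h c (hc.mono hC) (hW hm)

lemma ind_empty (v : ι → V) (W : Submodule F V) : Ind v W ∅ :=
  fun _ hc _ => funext fun i => hc i (notMem_empty i)

lemma Ind.notMem {v : ι → V} {W : Submodule F V} {C : Set ι} (h : Ind v W C) {i : ι}
    (hi : i ∈ C) : v i ∉ W := by
  classical
  intro hw
  have := h _ (on_single hi 1) (by rw [lc_single, one_smul]; exact hw)
  simpa using congrFun this i

lemma Ind.disjoint {v : ι → V} {Z C : Set ι} (h : Ind v (sp F v Z) C) : Disjoint C Z :=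
  Set.disjoint_left.2 fun _ hi hz => h.notMem hi (mem_sp_of_mem v hz)

lemma Ind.union {v : ι → V} {W : Submodule F V} {X Y : Set ι} (hX : Ind v W X)
    (hY : Ind v (W ⊔ sp F v X) Y) : Ind v W (X ∪ Y) := by
  intro c hc hm
  have h1 : On Y (Xᶜ.indicator c) := hc.indicator.mono (by
    rintro i ⟨h1, h2 | h2⟩
    · exact absurd h2 h1
    · exact h2)
  have h2 : Xᶜ.indicator c = 0 := by
    refine hY _ h1 ?_
    have : lc v (Xᶜ.indicator c) = lc v c - lc v (X.indicator c) := by
      rw [eq_sub_iff_add_eq', ← map_add, ← ind_compl]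
    rw [this]
    exact sub_mem (mem_sup_left hm) (mem_sup_right ((on_indicator X c).lc_mem v))
  have h3 : c = X.indicator c := by
    conv_lhs => rw [ind_compl X c, h2, add_zero]
  exact hX c (h3 ▸ on_indicator X c) hm

lemma Ind.insert {v : ι → V} {W : Submodule F V} {X : Set ι} (hX : Ind v W X) {t : ι}
    (ht : v t ∉ W ⊔ sp F v X) : Ind v W (insert t X) := by
  classical
  rw [insert_eq, union_comm]
  refine hX.union fun c hc hm => ?_
  have : c = Pi.single t (c t) := by
    funext j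
    by_cases hj : j = t
    · subst hj; simp
    · simp [hj, hc j hj]
  by_cases h0 : c t = 0
  · rw [this, h0]; simp
  · rw [this, lc_single] at hm
    exact absurd ((smul_mem_iff _ h0).1 hm) ht

/-- Extension of an independent family to a spanning one. -/
lemma Ind.extend {v : ι → V} {W : Submodule F V} {O : Set ι} (hO : Ind v W O) (T : Set ι) :
    ∃ C, O ⊆ C ∧ C ⊆ O ∪ T ∧ Ind v W C ∧ sp F v T ≤ W ⊔ sp F v C := by
  have hT := T.toFinite
  induction T, hT using Set.Finite.induction_on with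
  | empty => exact ⟨O, subset_rfl, subset_union_left, hO, by simp [sp_empty]⟩
  | @insert t T _ _ ih =>
    obtain ⟨C, h1, h2, h3, h4⟩ := ih
    by_cases ht : v t ∈ W ⊔ sp F v C
    · refine ⟨C, h1, h2.trans (union_subset_union_right _ (subset_insert _ _)), h3, ?_⟩
      rw [sp_le] at h4 ⊢
      rintro i (rfl | hi)
      · exact ht
      · exact h4 i hi
    · refine ⟨Insert.insert t C, h1.trans (subset_insert _ _), ?_, h3.insert ht, ?_⟩
      · rintro i (rfl | hi)
        · exact Or.inr (mem_insert _ _)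
        · exact (union_subset_union_right _ (subset_insert _ _)) (h2 hi)
      · rw [sp_le] at h4 ⊢
        rintro i (rfl | hi)
        · exact mem_sup_right (mem_sp_of_mem v (mem_insert _ _))
        · exact sup_le_sup_left (sp_mono v (subset_insert _ _)) W (h4 i hi)

lemma Ind.inf_le {v : ι → V} {W W' : Submodule F V} {O C : Set ι} (hC : Ind v W' C)
    (hW : W ≤ W') (hO : O ⊆ C) : (W' ⊔ sp F v O) ⊓ (W ⊔ sp F v C) ≤ W ⊔ sp F v O := by
  rintro x ⟨h1, h2⟩
  obtain ⟨o, ho, h1⟩ := mem_sup_sp.1 h1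
  obtain ⟨z, hz, h2⟩ := mem_sup_sp.1 h2
  have : z - o = 0 := hC _ (hz.sub (ho.mono hO)) (by
    have := sub_mem h1 (hW h2)
    rw [map_sub]; convert this using 1; abel)
  rw [sub_eq_zero.1 this] at h2
  exact mem_sup_sp.2 ⟨o, ho, h2⟩

/-- `K` is a circuit modulo `W` with relation vector `c`. -/
structure Circ (v : ι → V) (W : Submodule F V) (K : Set ι) (c : ι → F) : Prop where
  on : On K c
  ne : ∀ i ∈ K, c i ≠ 0
  mem : lc v c ∈ W
  nonempty : K.Nonempty
  uniq : ∀ d : ι → F, On K d → lc v d ∈ W → ∃ s : F, d = s • c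

lemma Circ.ind {v : ι → V} {W : Submodule F V} {K : Set ι} {c : ι → F} (h : Circ v W K c)
    {g : ι} (hg : g ∈ K) : Ind v W (K \ {g}) := by
  intro d hd hm
  obtain ⟨s, rfl⟩ := h.uniq d (hd.mono sdiff_subset) hm
  have : s * c g = 0 := hd g (by simp)
  rw [(mul_eq_zero.1 this).resolve_right (h.ne g hg), zero_smul]

lemma Circ.sp_le {v : ι → V} {W : Submodule F V} {K : Set ι} {c : ι → F} (h : Circ v W K c)
    {g : ι} (hg : g ∈ K) : sp F v K ≤ W ⊔ sp F v (K \ {g}) := by
  classical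
  rw [H30.sp_le]
  intro i hi
  by_cases hig : i = g
  · subst hig
    have h1 : On (K \ {i}) (c - Pi.single i (c i)) := by
      intro j hj
      by_cases hji : j = i
      · subst hji; simp
      · have : j ∉ K := fun h' => hj ⟨h', hji⟩
        simp [hji, h.on j this]
    have h2 : c i • v i = lc v c - lc v (c - Pi.single i (c i)) := by
      rw [map_sub, lc_single]; abel
    rw [← smul_mem_iff _ (h.ne i hg), h2]
    exact sub_mem (mem_sup_left h.mem) (mem_sup_right (h1.lc_mem v))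
  · exact mem_sup_right (mem_sp_of_mem v ⟨hi, hig⟩)

lemma Circ.sup {v : ι → V} {W : Submodule F V} {K O : Set ι} {c : ι → F} (h : Circ v W K c)
    (hO : Ind v (W ⊔ sp F v K) O) : Circ v (W ⊔ sp F v O) K c := by
  refine ⟨h.on, h.ne, mem_sup_left h.mem, h.nonempty, fun d hd hm => h.uniq d hd ?_⟩
  obtain ⟨o, ho, hm⟩ := mem_sup_sp.1 hm
  have : o = 0 := hO o ho (by
    have := sub_mem (mem_sup_right (S := W) (hd.lc_mem v)) (mem_sup_left (T := sp F v K) hm)
    simpa using this)
  simpa [this] using hm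

/-- Minimal supports. -/
lemma exists_min_support (P P' : Submodule F (ι → F)) (h : ¬ P ≤ P') :
    ∃ d ∈ P, d ∉ P' ∧ ∀ d' ∈ P, On (Function.support d) d' → ∃ s : F, d' = s • d := by
  obtain ⟨d0, hd0, hd0'⟩ := SetLike.not_le_iff_exists.1 h
  obtain ⟨K, ⟨d, hd, hd', rfl⟩, hmin⟩ := (wellFounded_lt (α := Set ι)).has_min
    {K | ∃ d ∈ P, d ∉ P' ∧ Function.support d = K} ⟨_, d0, hd0, hd0', rfl⟩
  have small : ∀ x ∈ P, On (Function.support d) x → ∀ b, d b ≠ 0 → x b = 0 → x ∈ P' := by
    intro x hx hon b hb hxb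
    by_contra hx'
    refine hmin _ ⟨x, hx, hx', rfl⟩ ⟨fun i hi => ?_, fun hsub => hsub hb hxb⟩
    by_contra hi'
    exact hi (hon i hi')
  have hdon : On (Function.support d) d := fun i hi => by simpa using hi
  have key : ∀ x ∈ P, On (Function.support d) x → x ∈ P' → x = 0 := by
    intro x hx hon hx'
    by_contra hne
    obtain ⟨b, hb⟩ := Function.ne_iff.1 hne
    have hb : x b ≠ 0 := hb
    have hdb : d b ≠ 0 := fun h0 => hb (hon b (by simpa using h0))
    have := small (d - (d b / x b) • x) (sub_mem hd (smul_mem _ _ hx)) (hdon.sub (hon.smul _)) b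
      hdb (by simp [hb])
    exact hd' (by simpa using add_mem this (smul_mem _ (d b / x b) hx'))
  refine ⟨d, hd, hd', fun x hx hon => ?_⟩
  have hne : d ≠ 0 := fun h0 => hd' (h0 ▸ zero_mem _)
  obtain ⟨b, hb⟩ := Function.ne_iff.1 hne
  have hb : d b ≠ 0 := hb
  have h1 := sub_mem hx (smul_mem _ (x b / d b) hd)
  have h2 := hon.sub (hdon.smul (x b / d b))
  exact ⟨x b / d b, sub_eq_zero.1 (key _ h1 h2 (small _ h1 h2 b hb (by simp [hb])))⟩

/-- `R` is a separator modulo `W`. -/
def Sep (v : ι → V) (W : Submodule F V) (R : Set ι) : Prop :=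
  ∀ c : ι → F, lc v c ∈ W → lc v (R.indicator c) ∈ W

lemma Sep.sup_disjoint {v : ι → V} {W : Submodule F V} {R K : Set ι} (h : Sep v W R)
    (hK : Disjoint R K) : Sep v (W ⊔ sp F v K) R := by
  intro c hc
  obtain ⟨k, hk, hm⟩ := mem_sup_sp.1 hc
  have := h (c - k) (by rwa [map_sub])
  rw [ind_sub, hk.indicator_eq_zero hK, sub_zero] at this
  exact mem_sup_left this

lemma Sep.sup_subset {v : ι → V} {W : Submodule F V} {R K : Set ι} (h : Sep v W R)
    (hK : K ⊆ R) : Sep v (W ⊔ sp F v K) (R \ K) := by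
  intro c hc
  obtain ⟨k, hk, hm⟩ := mem_sup_sp.1 hc
  have h1 := h (c - k) (by rwa [map_sub])
  have : (R \ K).indicator c = R.indicator (c - k) - K.indicator (c - k) := by
    funext i
    by_cases h1 : i ∈ K
    · simp [h1, hK h1]
    · by_cases h2 : i ∈ R <;> simp [h1, h2, hk i h1]
  rw [this, map_sub]
  exact sub_mem (mem_sup_left h1) (mem_sup_right ((on_indicator _ _).lc_mem v))

lemma Sep.diff {v : ι → V} {W : Submodule F V} {R T : Set ι} (h : Sep v W R) (hT : Sep v W T)
    (hTR : T ⊆ R) : Sep v W (R \ T) := by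
  intro c hc
  have : (R \ T).indicator c = R.indicator c - T.indicator c := by
    funext i
    by_cases h1 : i ∈ T
    · simp [h1, hTR h1]
    · by_cases h2 : i ∈ R <;> simp [h1, h2]
  rw [this, map_sub]
  exact sub_mem (h c hc) (hT c hc)

lemma sep_compl (v : ι → V) (Z : Set ι) : Sep v (sp F v Z) Zᶜ := by
  intro c hc
  have : Zᶜ.indicator c = c - Z.indicator c := by
    rw [eq_sub_iff_add_eq', ← ind_compl]
  rw [this, map_sub]
  exact sub_mem hc ((on_indicator _ _).lc_mem v)

lemma Sep.mem_of {v : ι → V} {W : Submodule F V} {R : Set ι} (h : Sep v W R) {x : V}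
    (h1 : x ∈ sp F v R) (h2 : x ∈ W ⊔ sp F v Rᶜ) : x ∈ W := by
  obtain ⟨r, hr, rfl⟩ := mem_sp.1 h1
  obtain ⟨o, ho, hm⟩ := mem_sup_sp.1 h2
  have := h (r - o) (by rwa [map_sub])
  rwa [ind_sub, hr.indicator_eq subset_rfl, ho.indicator_eq_zero disjoint_compl_right,
    sub_zero] at this

lemma Sep.inf_le {v : ι → V} {W : Submodule F V} {T : Set ι} (h : Sep v W T) (T₀ : Set ι) :
    sp F v Tᶜ ⊓ sp F v T₀ᶜ ≤ W ⊔ sp F v (T ∪ T₀)ᶜ := by
  rintro x ⟨h1, h2⟩
  obtain ⟨a, ha, rfl⟩ := mem_sp.1 h1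
  obtain ⟨b, hb, hab⟩ := mem_sp.1 h2
  have h3 := h (b - a) (by rw [map_sub, hab, sub_self]; exact zero_mem _)
  rw [ind_sub, ha.indicator_eq_zero disjoint_compl_right, sub_zero] at h3
  rw [← hab, ind_compl T b, map_add]
  refine add_mem (mem_sup_left h3) (mem_sup_right ?_)
  rw [compl_union]
  exact hb.indicator.lc_mem v

/-- An ear inside a separator. -/
lemma exists_ear {v : ι → V} {W W' : Submodule F V} {R : Set ι} (hW : W' ≤ W) (h : Sep v W R)
    (h' : ¬ Sep v W' R) : ∃ K c, K ⊆ R ∧ Circ v W K c ∧ lc v c ∉ W' := by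
  let PR : Submodule F (ι → F) :=
    { carrier := {c | On R c}
      add_mem' := fun ha hb => ha.add hb
      zero_mem' := on_zero R
      smul_mem' := fun s _ h => h.smul s }
  obtain ⟨d, hd, hd', hu⟩ := exists_min_support (PR ⊓ W.comap (lc v)) (W'.comap (lc v)) (by
    intro hle
    exact h' fun c hc => hle ⟨on_indicator R c, h c (hW hc)⟩)
  have hsub : Function.support d ⊆ R := fun i hi => by
    by_contra hi'
    exact hi (hd.1 i hi')
  refine ⟨Function.support d, d, hsub, ⟨fun i hi => by simpa using hi, fun i hi => hi, hd.2, ?_,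
    fun x hx hm => hu x ⟨hx.mono hsub, hm⟩ hx⟩, hd'⟩
  rw [Function.support_nonempty_iff]
  rintro rfl
  exact hd' (zero_mem _)

/-- The rank of `Ψ` modulo `W`. -/
noncomputable def rho (Ψ W : Submodule F V) : ℕ := finrank F Ψ - finrank F (Ψ ⊓ W : Submodule F V)

variable [FiniteDimensional F V]

lemma rho_add (Ψ W : Submodule F V) :
    rho Ψ W + finrank F (Ψ ⊓ W : Submodule F V) = finrank F Ψ :=
  Nat.sub_add_cancel (Submodule.finrank_mono inf_le_left)

lemma rho_add' (Ψ W : Submodule F V) :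
    rho Ψ W + finrank F W = finrank F (Ψ ⊔ W : Submodule F V) := by
  have := rho_add Ψ W
  have := finrank_sup_add_finrank_inf_eq Ψ W
  omega

lemma rho_le_of_inf {Ψ W W' : Submodule F V} (h : Ψ ⊓ W ≤ W') : rho Ψ W' ≤ rho Ψ W := by
  have := rho_add Ψ W
  have := rho_add Ψ W'
  have : finrank F (Ψ ⊓ W : Submodule F V) ≤ finrank F (Ψ ⊓ W' : Submodule F V) :=
    Submodule.finrank_mono (le_inf inf_le_left h)
  omega

lemma rho_anti (Ψ : Submodule F V) {W W' : Submodule F V} (h : W ≤ W') : rho Ψ W' ≤ rho Ψ W :=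
  rho_le_of_inf (inf_le_right.trans h)

lemma rho_lt {Ψ W W' : Submodule F V} (h : W ≤ W') {x : V} (hx : x ∈ Ψ) (h1 : x ∈ W')
    (h2 : x ∉ W) : rho Ψ W' + 1 ≤ rho Ψ W := by
  have := rho_add Ψ W
  have := rho_add Ψ W'
  have : finrank F (Ψ ⊓ W : Submodule F V) < finrank F (Ψ ⊓ W' : Submodule F V) :=
    finrank_lt_finrank_of_lt (lt_of_le_of_ne (inf_le_inf_left _ h) fun he => h2 (by
      have : x ∈ Ψ ⊓ W := he ▸ (⟨hx, h1⟩ : x ∈ Ψ ⊓ W')
      exact this.2))
  omega

lemma rho_mono {Ψ Ψ' : Submodule F V} (h : Ψ ≤ Ψ') (W : Submodule F V) : rho Ψ W ≤ rho Ψ' W := by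
  have := rho_add' Ψ W
  have := rho_add' Ψ' W
  have : finrank F (Ψ ⊔ W : Submodule F V) ≤ finrank F (Ψ' ⊔ W : Submodule F V) :=
    Submodule.finrank_mono (sup_le_sup_right h _)
  omega

lemma rho_inf_le (Ψ W W' : Submodule F V) : rho Ψ (W ⊓ W') ≤ rho Ψ W + rho Ψ W' := by
  have h1 := rho_add Ψ W
  have h2 := rho_add Ψ W'
  have h3 := rho_add Ψ (W ⊓ W')
  have h4 := finrank_sup_add_finrank_inf_eq (Ψ ⊓ W) (Ψ ⊓ W')
  have h5 : finrank F ((Ψ ⊓ W) ⊔ (Ψ ⊓ W') : Submodule F V) ≤ finrank F Ψ :=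
    Submodule.finrank_mono (sup_le inf_le_left inf_le_left)
  rw [← inf_inf_distrib_left] at h4
  omega

lemma rho_eq_zero {Ψ W : Submodule F V} : rho Ψ W = 0 ↔ Ψ ≤ W := by
  have := rho_add Ψ W
  constructor
  · intro h
    have : Ψ ⊓ W = Ψ := eq_of_le_of_finrank_eq inf_le_left (by omega)
    exact inf_eq_left.1 this
  · intro h
    rw [inf_eq_left.2 h] at this
    omega

omit [FiniteDimensional F V] in
lemma rho_bot (Ψ : Submodule F V) : rho Ψ ⊥ = finrank F Ψ := by
  rw [rho, inf_bot_eq, finrank_bot, Nat.sub_zero]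

lemma rho_le_of_le_sup {Ψ W U : Submodule F V} (h : Ψ ≤ W ⊔ U) : rho Ψ W ≤ finrank F U := by
  have h1 := rho_add' Ψ W
  have h2 := finrank_sup_add_finrank_inf_eq W U
  have h3 : finrank F (Ψ ⊔ W : Submodule F V) ≤ finrank F (W ⊔ U : Submodule F V) :=
    Submodule.finrank_mono (sup_le h le_sup_left)
  omega

lemma rho_ker_le (Ψ W : Submodule F V) (f : V →ₗ[F] F) :
    rho Ψ W ≤ rho (Ψ ⊓ LinearMap.ker f) W + 1 := by
  have h1 := rho_add Ψ W
  have h2 := rho_add (Ψ ⊓ LinearMap.ker f) W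
  have h3 : finrank F ((Ψ ⊓ LinearMap.ker f) ⊓ W : Submodule F V) ≤
      finrank F (Ψ ⊓ W : Submodule F V) := Submodule.finrank_mono (inf_le_inf_right _ inf_le_left)
  have h4 := finrank_sup_add_finrank_inf_eq Ψ (LinearMap.ker f)
  have h5 := f.finrank_range_add_finrank_ker
  have h6 : finrank F (LinearMap.range f) ≤ 1 := by
    simpa using Submodule.finrank_le (LinearMap.range f)
  have h7 := Submodule.finrank_le (Ψ ⊔ LinearMap.ker f)
  omega

end Pool.Agent.MP_d99b12_co.H30
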