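import Mathlib

/-!
The Davenport constant of an elementary abelian group, and the final counting argument.
-/

namespace Pool.Agent.MP_d99b12_co.H30

open Module Finset MvPolynomial

lemma olson {p : ℕ} [Fact p.Prime] {Q : Type*} [AddCommGroup Q] [Module (ZMod p) Q]
    [Module.Finite (ZMod p) Q] {m : ℕ} (y : Fin m → Q) (h : finrank (ZMod p) Q * (p - 1) < m) :
    ∃ I : Finset (Fin m), I.Nonempty ∧ ∑ j ∈ I, y j = 0 := by
  classical
  let b := Module.finBasis (ZMod p) Q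
  let f : Fin (finrank (ZMod p) Q) → MvPolynomial (Fin m) (ZMod p) :=
    fun s => ∑ j, b.repr (y j) s • X j ^ (p - 1)
  have hdeg : ∑ s, (f s).totalDegree < Fintype.card (Fin m) := by
    calc ∑ s, (f s).totalDegree ≤ ∑ _s : Fin (finrank (ZMod p) Q), (p - 1) := by
          refine sum_le_sum fun s _ => totalDegree_finsetSum_le fun j _ => ?_
          exact (totalDegree_smul_le ..).trans (totalDegree_X_pow ..).le
      _ < _ := by simpa using h
  have hp := char_dvd_card_solutions_of_fintype_sum_lt p hdeg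
  let z : {x : Fin m → ZMod p // ∀ s, eval x (f s) = 0} :=
    ⟨0, fun s => by simp [f, map_sum, (Fact.out : p.Prime).one_lt, tsub_eq_zero_iff_le]⟩
  obtain ⟨x, hx⟩ := Fintype.exists_ne_of_one_lt_card ((Fact.out : p.Prime).one_lt.trans_le <|
    Nat.le_of_dvd (@Fintype.card_pos _ _ ⟨z⟩) (by convert hp)) z
  refine ⟨univ.filter fun j => x.1 j ≠ 0, ?_, ?_⟩
  · rw [← Subtype.coe_ne_coe, Function.ne_iff] at hx
    exact hx.imp fun a ha => mem_filter.2 ⟨mem_univ _, ha⟩
  · apply b.repr.injective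
    ext s
    have := x.2 s
    simpa [f, ZMod.pow_card_sub_one, Finset.sum_filter, map_sum, apply_ite, Finsupp.finsetSum_apply,
      ite_apply] using this

lemma olson_mod {p k : ℕ} [Fact p.Prime] {F : Type*} [Field F] [Fintype F] [Algebra (ZMod p) F]
    (hF : Fintype.card F = p ^ k) (U : Submodule (ZMod p) F) {m : ℕ} (y : Fin m → F)
    (h : (k - finrank (ZMod p) U) * (p - 1) < m) :
    ∃ I : Finset (Fin m), I.Nonempty ∧ ∑ j ∈ I, y j ∈ U := by
  have hk : finrank (ZMod p) F = k := by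
    have := Module.card_eq_pow_finrank (K := ZMod p) (V := F)
    rw [hF, ZMod.card] at this
    exact (Nat.pow_right_injective (Fact.out : p.Prime).two_le this).symm
  obtain ⟨I, hI, hs⟩ := olson (p := p) (fun j => U.mkQ (y j)) (by
    have := U.finrank_quotient_add_finrank
    rwa [show finrank (ZMod p) (F ⧸ U) = k - finrank (ZMod p) U by omega])
  rw [← map_sum] at hs
  exact ⟨I, hI, (Submodule.Quotient.mk_eq_zero U).1 hs⟩

lemma zmod_two (c : ZMod 2) : c = 0 ∨ c = 1 := by revert c; decide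

lemma exists_zero_sum {p k : ℕ} (hp : p.Prime) {F : Type*} [Field F] [Fintype F]
    (hF : Fintype.card F = p ^ k) (hk : 1 < k) {m : ℕ}
    (hm : m = if p = 2 then k - 1 else (k - 1) * (p - 1) + 1) (y : Fin m → F) {τ₁ τ₂ : F}
    (h₁ : τ₁ ≠ 0) (h₂ : τ₂ ≠ 0) (h₁₂ : τ₂ ≠ τ₁) :
    ∃ I : Finset (Fin m), I.Nonempty ∧ ∃ n : ℕ, 1 ≤ n ∧ n ≤ p ∧
      (∑ j ∈ I, y j = n • τ₁ ∨ ∑ j ∈ I, y j = n • τ₁ + τ₂) := by
  have := Fact.mk hp
  have : CharP F p := by
    obtain ⟨p', hp'⟩ := CharP.exists F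
    obtain ⟨n, hp'', hn⟩ := FiniteField.card F p'
    have : p = p' := by
      have h1 : p ∣ p' ^ (n : ℕ) := by rw [← hn, hF]; exact dvd_pow_self p (by omega)
      exact (Nat.prime_dvd_prime_iff_eq hp hp'').1 (hp.dvd_of_dvd_pow h1)
    rwa [this]
  let _ := ZMod.algebra F p
  have hn : ∀ c : ZMod p, ∃ n : ℕ, 1 ≤ n ∧ n ≤ p ∧ c • τ₁ = n • τ₁ := by
    intro c
    by_cases hc : c = 0
    · exact ⟨p, hp.one_lt.le, le_rfl, by simp [hc]⟩
    · refine ⟨c.val, Nat.one_le_iff_ne_zero.2 (by simpa using hc), c.val_lt.le, ?_⟩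
      rw [← Nat.cast_smul_eq_nsmul (ZMod p), ZMod.natCast_zmod_val]
  split_ifs at hm with h2
  · subst h2
    have hli : LinearIndependent (ZMod 2) ![τ₁, τ₂] := by
      rw [LinearIndependent.pair_iff]
      intro s t hst
      rcases zmod_two s with rfl | rfl <;> rcases zmod_two t with rfl | rfl
      · simp
      · simp [h₂] at hst
      · simp [h₁] at hst
      · simp only [one_smul] at hst
        exact absurd (CharTwo.add_eq_zero.1 hst).symm h₁₂
    obtain ⟨I, hI, hs⟩ := olson_mod hF (Submodule.span (ZMod 2) (Set.range ![τ₁, τ₂])) y (by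
      rw [finrank_span_eq_card hli]; simp; omega)
    rw [Matrix.range_cons, Matrix.range_cons, Matrix.range_empty, Set.union_empty,
      Set.singleton_union, Submodule.mem_span_pair] at hs
    obtain ⟨c₁, c₂, hs⟩ := hs
    obtain ⟨n, hn1, hn2, hn3⟩ := hn c₁
    refine ⟨I, hI, n, hn1, hn2, ?_⟩
    rcases zmod_two c₂ with rfl | rfl
    · left; rw [← hs, hn3]; simp
    · right; rw [← hs, hn3]; simp
  · obtain ⟨I, hI, hs⟩ := olson_mod hF (Submodule.span (ZMod p) {τ₁}) y (by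
      rw [finrank_span_singleton h₁]; omega)
    obtain ⟨c, hc⟩ := Submodule.mem_span_singleton.1 hs
    obtain ⟨n, hn1, hn2, hn3⟩ := hn c
    exact ⟨I, hI, n, hn1, hn2, Or.inl (by rw [← hc, hn3])⟩

lemma comb {p k : ℕ} (hp : p.Prime) {F : Type*} [Field F] [Fintype F]
    (hF : Fintype.card F = p ^ k) (hk : 1 < k) {m : ℕ}
    (hm : m = if p = 2 then k - 1 else (k - 1) * (p - 1) + 1) {X κ : Type*} [DecidableEq κ]
    (Sel : Finset κ) (y : X → Fin m → F) (t : X → κ → F) (ht : ∀ a, ∀ i ∈ Sel, t a i ≠ 0)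
    (H : ∀ a a', ∀ (I : Finset (Fin m)) (J : Finset κ), I.Nonempty → J ⊆ Sel → J.Nonempty →
      (Sel \ J).Nonempty → ∑ j ∈ I, y a j = ∑ i ∈ J, t a i → ∑ j ∈ I, y a' j = ∑ i ∈ J, t a' i)
    (a₀ : X) (hc : Fintype.card F * (Fintype.card F * (p + 1)) < Sel.card) :
    ∃ i ∈ Sel, ∃ i' ∈ Sel, i ≠ i' ∧ ∀ a, t a i = t a i' := by
  classical
  obtain ⟨τ₀, -, hL⟩ := exists_lt_card_fiber_of_mul_lt_card_of_maps_to (s := Sel) (t := univ)
    (f := t a₀) (fun _ _ => mem_univ _) (by rwa [card_univ])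
  set L := Sel.filter fun i => t a₀ i = τ₀ with hLdef
  have hLS : L ⊆ Sel := filter_subset _ _
  have key : ∀ a, ∀ i ∈ L, ∀ i' ∈ L, t a i = t a i' := by
    intro a
    obtain ⟨τ₁, -, hL'⟩ := exists_lt_card_fiber_of_mul_lt_card_of_maps_to (s := L) (t := univ)
      (f := t a) (n := p + 1) (fun _ _ => mem_univ _) (by rwa [card_univ])
    set L' := L.filter fun i => t a i = τ₁ with hL'def
    have hL'L : L' ⊆ L := filter_subset _ _
    suffices ∀ i ∈ L, t a i = τ₁ from fun i hi i' hi' => (this i hi).trans (this i' hi').symm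
    intro i' hi'
    by_contra hne
    have hi'L' : i' ∉ L' := fun h => hne (mem_filter.1 h).2
    have swap : ∀ (I : Finset (Fin m)) (J : Finset κ) (i₁ i₂ : κ), I.Nonempty → J ⊆ L → i₁ ∈ J →
        i₂ ∈ L → i₂ ∉ J → ∑ j ∈ I, y a j = ∑ i ∈ J, t a i → t a i₁ = t a i₂ := by
      intro I J i₁ i₂ hI hJ h1 h2 h3 h4
      have h5 := H a a₀ I J hI (hJ.trans hLS) ⟨i₁, h1⟩ ⟨i₂, mem_sdiff.2 ⟨hLS h2, h3⟩⟩ h4
      have h6 : i₂ ∉ J.erase i₁ := fun h => h3 (mem_of_mem_erase h)
      have h7 := H a₀ a I (insert i₂ (J.erase i₁)) hI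
        (insert_subset (hLS h2) ((erase_subset _ _).trans (hJ.trans hLS))) (insert_nonempty _ _)
        ⟨i₁, mem_sdiff.2 ⟨hLS (hJ h1), by
          rw [mem_insert, not_or]
          exact ⟨fun h => h3 (h ▸ h1), notMem_erase _ _⟩⟩⟩ (by
          rw [h5, sum_insert h6, ← add_sum_erase _ _ h1, (mem_filter.1 h2).2,
            (mem_filter.1 (hJ h1)).2])
      rw [h4, sum_insert h6, ← add_sum_erase _ _ h1] at h7
      exact add_right_cancel h7
    obtain ⟨i₀, hi₀⟩ : L'.Nonempty := card_pos.1 (by omega)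
    obtain ⟨I, hI, n, hn1, hn2, hs⟩ := exists_zero_sum hp hF hk hm (y a) (τ₁ := τ₁) (τ₂ := t a i')
      ((mem_filter.1 hi₀).2 ▸ ht a i₀ (hLS (hL'L hi₀))) (ht a i' (hLS hi')) hne
    obtain ⟨J, hJ, hJc⟩ := exists_subset_card_eq (show n ≤ L'.card by omega)
    have hJs : ∑ i ∈ J, t a i = n • τ₁ := by
      rw [sum_congr rfl fun i hi => (mem_filter.1 (hJ hi)).2, sum_const, hJc]
    have hi'J : i' ∉ J := fun h => hi'L' (hJ h)
    rcases hs with hs | hs
    · obtain ⟨i₁, hi₁⟩ : J.Nonempty := card_pos.1 (by omega)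
      have := swap I J i₁ i' hI (hJ.trans hL'L) hi₁ hi' hi'J (hs.trans hJs.symm)
      exact hne (this.symm.trans (mem_filter.1 (hJ hi₁)).2)
    · obtain ⟨i₂, hi₂, hi₂J⟩ := exists_mem_notMem_of_card_lt_card (show J.card < L'.card by omega)
      have := swap I (insert i' J) i' i₂ hI (insert_subset hi' (hJ.trans hL'L))
        (mem_insert_self _ _) (hL'L hi₂) (by
          rw [mem_insert, not_or]
          exact ⟨fun h => hi'L' (h ▸ hi₂), hi₂J⟩) (by rw [sum_insert hi'J, hJs, hs, add_comm])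
      exact hne (this.trans (mem_filter.1 hi₂).2)
  have : 1 < L.card := by
    have : 0 < Fintype.card F := Fintype.card_pos
    have := hp.one_lt
    nlinarith
  obtain ⟨i, hi, i', hi', hne⟩ := one_lt_card.1 this
  exact ⟨i, hLS hi, i', hLS hi', hne, fun a => key a i hi i' hi'⟩

end Pool.Agent.MP_d99b12_co.H30
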