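import Pool.Agent.MP_d99b12_co.H30.Link
import Pool.Agent.MP_d99b12_co.H30.Olson

/-!
Two representations of a binary matroid over a field differ by a scaling of the columns
(Brylawski and Lucas).
-/

namespace Pool.Agent.MP_d99b12_co.H30

open Module Submodule Set

variable {F V ι : Type*} [Field F] [AddCommGroup V] [Module F V] [FiniteDimensional F V]

variable (F) in
/-- `T` is connected after contracting `C`. -/
def ConnMod (u : ι → V) (C T : Set ι) : Prop :=
  ∀ X ⊆ T, X.Nonempty → (T \ X).Nonempty →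
    rk F u (C ∪ T) + rk F u C + 1 ≤ rk F u (C ∪ X) + rk F u (C ∪ (T \ X))

lemma ConnMod.or {u : ι → V} {C T : Set ι} (h : ConnMod F u C T) {t : ι} (ht : t ∈ T) :
    ConnMod F u (insert t C) (T \ {t}) ∨ ConnMod F u C (T \ {t}) := by
  by_contra hne
  simp only [ConnMod, not_or, not_forall, not_le] at hne
  obtain ⟨⟨X', hX', hX'1, hX'2, h1⟩, X, hX, hX1, hX2, h2⟩ := hne
  have h3 : rk F u (insert t C) ≤ rk F u C + 1 := by
    rw [rk, sp_insert]; exact finrank_sup_singleton_le _ _
  have h4 : rk F u (C ∪ (T \ {t})) ≤ rk F u (C ∪ T) :=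
    rk_mono u (union_subset_union_right _ sdiff_subset)
  have h5 : rk F u (insert t C ∪ (T \ {t})) ≤ rk F u (C ∪ T) := rk_mono u (by
    rintro i ((rfl | hi) | hi)
    · exact Or.inr ht
    · exact Or.inl hi
    · exact Or.inr hi.1)
  have key : ∀ P Q : Set ι, P ⊆ T \ {t} → Q = (T \ {t}) \ P →
      rk F u (insert t C ∪ P) + rk F u (insert t C ∪ Q) ≤ rk F u (C ∪ T) + rk F u C + 1 →
      ¬ ((X ∩ P).Nonempty ∧ (((T \ {t}) \ X) ∩ Q).Nonempty) := by
    rintro P Q hP rfl h6 ⟨n1, n2⟩
    have a1 := h (X ∩ P) (inter_subset_left.trans (hX.trans sdiff_subset)) n1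
      ⟨t, ht, fun h' => (hX h'.1).2 rfl⟩
    have a2 := h (((T \ {t}) \ X) ∩ ((T \ {t}) \ P))
      (inter_subset_left.trans (sdiff_subset.trans sdiff_subset)) n2 ⟨t, ht, fun h' => h'.1.1.2 rfl⟩
    have a3 := rk_submod (F := F) u (X := C ∪ X) (Y := insert t C ∪ P)
      (U := C ∪ (T \ (((T \ {t}) \ X) ∩ ((T \ {t}) \ P)))) (I := C ∪ (X ∩ P))
      (by intro i; simp only [mem_union, mem_insert_iff, mem_sdiff, mem_inter_iff,
        mem_singleton_iff]; tauto)
      (by intro i; simp only [mem_union, mem_inter_iff]; tauto)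
      (by intro i; simp only [mem_union, mem_insert_iff, mem_inter_iff]; tauto)
    have a4 := rk_submod (F := F) u (X := C ∪ ((T \ {t}) \ X)) (Y := insert t C ∪ ((T \ {t}) \ P))
      (U := C ∪ (T \ (X ∩ P))) (I := C ∪ (((T \ {t}) \ X) ∩ ((T \ {t}) \ P)))
      (by intro i; simp only [mem_union, mem_insert_iff, mem_sdiff, mem_inter_iff,
        mem_singleton_iff]; tauto)
      (by intro i; simp only [mem_union, mem_inter_iff]; tauto)
      (by intro i; simp only [mem_union, mem_insert_iff, mem_inter_iff]; tauto)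
    omega
  have k1 := key X' _ hX' rfl (by omega)
  have k2 := key ((T \ {t}) \ X') X' sdiff_subset (sdiff_sdiff_cancel_left hX').symm (by omega)
  obtain ⟨x, hx⟩ := hX1
  obtain ⟨y, hy⟩ := hX2
  obtain ⟨x', hx'⟩ := hX'1
  obtain ⟨y', hy'⟩ := hX'2
  by_cases c1 : x ∈ X'
  · by_cases c2 : y' ∈ X
    · by_cases c3 : y ∈ X'
      · exact k2 ⟨⟨y', c2, hy'⟩, y, hy, c3⟩
      · exact k1 ⟨⟨x, hx, c1⟩, y, hy, hy.1, c3⟩
    · exact k1 ⟨⟨x, hx, c1⟩, y', ⟨hy'.1, c2⟩, hy'⟩
  · by_cases c2 : x' ∈ X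
    · by_cases c3 : y ∈ X'
      · exact k2 ⟨⟨x, hx, hX hx, c1⟩, y, hy, c3⟩
      · exact k1 ⟨⟨x', c2, hx'⟩, y, hy, hy.1, c3⟩
    · exact k2 ⟨⟨x, hx, hX hx, c1⟩, x', ⟨hX' hx', c2⟩, hx'⟩

omit [FiniteDimensional F V] in
lemma mem_sp_insert {u : ι → V} {t : ι} {X : Set ι} {x : V} :
    x ∈ sp F u (insert t X) ↔ ∃ s : F, x - s • u t ∈ sp F u X := by
  rw [sp, image_insert_eq, mem_span_insert]
  constructor
  · rintro ⟨s, z, hz, rfl⟩
    exact ⟨s, by simpa [sp] using hz⟩
  · rintro ⟨s, hs⟩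
    exact ⟨s, _, hs, by abel⟩

lemma binary_line {V₂ : Type*} [AddCommGroup V₂] [Module (ZMod 2) V₂] {u : ι → V₂} {C : Set ι}
    {g₁ g₂ : ι} {x : V₂} (h : x ∈ sp (ZMod 2) u (insert g₁ (insert g₂ C)))
    (h₁ : x ∉ sp (ZMod 2) u (insert g₁ C)) (h₂ : x ∉ sp (ZMod 2) u (insert g₂ C)) :
    x - u g₁ - u g₂ ∈ sp (ZMod 2) u C := by
  obtain ⟨s, hs⟩ := mem_sp_insert.1 h
  obtain ⟨t, ht⟩ := mem_sp_insert.1 hs
  rcases zmod_two s with rfl | rfl
  · exact absurd (by simpa using hs) h₂
  rcases zmod_two t with rfl | rfl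
  · exact absurd (mem_sp_insert.2 ⟨1, by simpa using ht⟩) h₁
  · simpa using ht

lemma parallel_of_conn [Finite ι] {V₂ : Type*} [AddCommGroup V₂] [Module (ZMod 2) V₂] {u : ι → V}
    {u₂ : ι → V₂} {p p' : V} {p₂ : V₂} (m1 : ∀ S b, u b ∈ sp F u S ↔ u₂ b ∈ sp (ZMod 2) u₂ S)
    (m2 : ∀ S, p ∈ sp F u S ↔ p₂ ∈ sp (ZMod 2) u₂ S)
    (m3 : ∀ S, p' ∈ sp F u S ↔ p₂ ∈ sp (ZMod 2) u₂ S) (T : Set ι) :
    ∀ C, ConnMod F u C T → p ∈ sp F u (C ∪ T) → ∃ s : F, s ≠ 0 ∧ p' - s • p ∈ sp F u C := by
  induction T using WellFoundedLT.induction with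
  | ind T ih =>
  intro C hc hp
  by_contra hne
  push Not at hne
  have hpp : ∀ S, p ∈ sp F u S → p' ∈ sp F u S := fun S h => (m3 S).2 ((m2 S).1 h)
  have hpp' : ∀ S, p' ∈ sp F u S → p ∈ sp F u S := fun S h => (m2 S).2 ((m3 S).1 h)
  have h0 : p ∉ sp F u C := fun h => hne 1 one_ne_zero (by simpa using sub_mem (hpp C h) h)
  have h1 : ∀ g, p ∉ sp F u (insert g C) := by
    intro g hg
    obtain ⟨s, hs⟩ := mem_sp_insert.1 hg
    obtain ⟨s', hs'⟩ := mem_sp_insert.1 (hpp _ hg)
    have hs0 : s ≠ 0 := by rintro rfl; exact h0 (by simpa using hs)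
    have hs0' : s' ≠ 0 := by rintro rfl; exact h0 (hpp' _ (by simpa using hs'))
    refine hne (s' / s) (div_ne_zero hs0' hs0) ?_
    convert sub_mem hs' (smul_mem _ (s' / s) hs) using 1
    rw [smul_sub, smul_smul, div_mul_cancel₀ _ hs0]; abel
  have hout : ∀ S, p ∉ sp F u S → ∃ g ∈ T, u g ∉ sp F u S ∨ ¬ C ⊆ S := by
    intro S hS
    by_contra hh
    push Not at hh
    rcases T.eq_empty_or_nonempty with rfl | ⟨g, hg⟩
    · exact h0 (by simpa using hp)
    · have : sp F u (C ∪ T) ≤ sp F u S := by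
        rw [sp_union]
        exact sup_le (sp_mono u (hh g hg).2) (sp_le.2 fun i hi => (hh i hi).1)
      exact hS (this hp)
  by_cases hall : ∀ t ∈ T, u t ∈ sp F u C ⊔ span F {p} ⊔ span F {p'}
  · obtain ⟨g₁, hg₁, hg₁'⟩ := hout C h0
    have hg₁' : u g₁ ∉ sp F u C := hg₁'.resolve_right (by simp)
    let X := {t ∈ T | u t ∈ sp F u (insert g₁ C)}
    obtain ⟨g₂, hg₂, hg₂'⟩ := hout _ (h1 g₁)
    have hg₂' : u g₂ ∉ sp F u (insert g₁ C) := hg₂'.resolve_right (by simp)
    have a1 := hc X (fun _ h => h.1) ⟨g₁, hg₁, mem_sp_of_mem u (mem_insert _ _)⟩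
      ⟨g₂, hg₂, fun h => hg₂' h.2⟩
    have a2 : rk F u (C ∪ X) ≤ rk F u (insert g₁ C) := by
      refine Submodule.finrank_mono ?_
      rw [sp_union]
      exact sup_le (sp_mono u (subset_insert _ _)) (sp_le.2 fun i hi => hi.2)
    have a3 := rk_insert_of_notMem hg₁'
    have a4 := rk_insert_of_notMem hg₂'
    have a5 : rk F u (insert g₂ (insert g₁ C)) ≤ rk F u (C ∪ T) :=
      rk_mono u (insert_subset (Or.inr hg₂) (insert_subset (Or.inr hg₁) subset_union_left))
    obtain ⟨g₃, hg₃, hg₃'⟩ : ∃ g₃ ∈ T \ X, u g₃ ∉ sp F u (insert g₂ C) := by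
      by_contra hh
      push Not at hh
      have a6 : rk F u (C ∪ (T \ X)) ≤ rk F u (insert g₂ C) := by
        refine Submodule.finrank_mono ?_
        rw [sp_union]
        exact sup_le (sp_mono u (subset_insert _ _)) (sp_le.2 hh)
      have a7 : rk F u (insert g₂ C) ≤ rk F u C + 1 := by
        rw [rk, sp_insert]; exact finrank_sup_singleton_le _ _
      omega
    have a6 : sp F u (insert g₂ (insert g₁ C)) = sp F u (C ∪ T) := by
      refine eq_of_le_of_finrank_le (sp_mono u
        (insert_subset (Or.inr hg₂) (insert_subset (Or.inr hg₁) subset_union_left))) ?_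
      have b1 : rk F u (C ∪ T) ≤ finrank F (sp F u C ⊔ span F {p} ⊔ span F {p'} : Submodule F V) := by
        refine Submodule.finrank_mono ?_
        rw [sp_union]
        exact sup_le (le_sup_left.trans le_sup_left) (sp_le.2 hall)
      have b2 := finrank_sup_singleton_le (sp F u C ⊔ span F {p}) p'
      have b3 := finrank_sup_singleton_le (sp F u C) p
      simp only [rk] at *
      omega
    have b1 := binary_line ((m2 _).1 (a6 ▸ hp)) (fun h => h1 _ ((m2 _).2 h))
      (fun h => h1 _ ((m2 _).2 h))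
    have b2 := binary_line ((m1 _ g₃).1 (a6 ▸ mem_sp_of_mem u (Or.inr hg₃.1)))
      (fun h => hg₃' ((m1 _ _).2 h)) (fun h => hg₃.2 ⟨hg₃.1, (m1 _ _).2 h⟩)
    refine h1 g₃ ((m2 _).2 (mem_sp_insert.2 ⟨1, ?_⟩))
    convert sub_mem b1 b2 using 1
    rw [one_smul]; abel
  · push Not at hall
    obtain ⟨t, ht, ht'⟩ := hall
    have hlt : T \ {t} < T := ⟨sdiff_subset, fun h => (h ht).2 rfl⟩
    rcases hc.or ht with h | h
    · obtain ⟨s, hs, hm⟩ := ih _ hlt _ h (by
        rwa [insert_union, ← union_insert, insert_sdiff_singleton, insert_eq_of_mem ht])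
      obtain ⟨r, hr⟩ := mem_sp_insert.1 hm
      have hr0 : r ≠ 0 := by rintro rfl; exact hne s hs (by simpa using hr)
      refine ht' ((smul_mem_iff _ hr0).1 ?_)
      have := sub_mem (sub_mem (mem_sup_right (S := sp F u C ⊔ span F {p})
        (mem_span_singleton_self p')) (mem_sup_left (mem_sup_right
          (smul_mem _ s (mem_span_singleton_self p))))) (mem_sup_left (mem_sup_left hr))
      simpa using this
    · obtain ⟨g, hg, hg'⟩ := hout _ (h1 t)
      have hg' : u g ∉ sp F u (insert t C) := hg'.resolve_right (by simp)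
      have hgt : g ≠ t := by rintro rfl; exact hg' (mem_sp_of_mem u (mem_insert _ _))
      have a1 := hc {t} (singleton_subset_iff.2 ht) (singleton_nonempty t) ⟨g, hg, hgt⟩
      have a2 : rk F u (C ∪ {t}) ≤ rk F u C + 1 := by
        rw [union_singleton, rk, sp_insert]; exact finrank_sup_singleton_le _ _
      have a3 : sp F u (C ∪ (T \ {t})) = sp F u (C ∪ T) :=
        eq_of_le_of_finrank_le (sp_mono u (union_subset_union_right _ sdiff_subset))
          (by simp only [rk] at *; omega)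
      obtain ⟨s, hs, hm⟩ := ih _ hlt _ h (a3 ▸ hp)
      exact hne s hs hm

variable [Fintype ι]

lemma exists_scaling {V₂ : Type*} [AddCommGroup V₂] [Module (ZMod 2) V₂] {u : ι → V}
    {u₂ : ι → V₂} {x x' : ι → F} {p₂ : V₂} (m1 : ∀ S b, u b ∈ sp F u S ↔ u₂ b ∈ sp (ZMod 2) u₂ S)
    (m2 : ∀ S, lc u x ∈ sp F u S ↔ p₂ ∈ sp (ZMod 2) u₂ S)
    (m3 : ∀ S, lc u x' ∈ sp F u S ↔ p₂ ∈ sp (ZMod 2) u₂ S) (T : Set ι) :
    Sep u (⊥ : Submodule F V) T → ∃ c : ι → F, (∀ b, c b ≠ 0) ∧
      (∀ z, On T z → (lc u z = 0 ↔ lc u (c * z) = 0)) ∧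
      lc u (c * T.indicator x) = lc u (T.indicator x') := by
  classical
  induction T using WellFoundedLT.induction with
  | ind T ih =>
  intro hT
  by_cases hsplit : ∃ X ⊆ T, X.Nonempty ∧ (T \ X).Nonempty ∧ Sep u (⊥ : Submodule F V) X
  · obtain ⟨X, hX, ⟨a, ha⟩, ⟨b, hb⟩, hsep⟩ := hsplit
    obtain ⟨c₁, h1, h2, h3⟩ := ih X ⟨hX, fun h => hb.2 (h hb.1)⟩ hsep
    obtain ⟨c₂, h4, h5, h6⟩ := ih (T \ X) ⟨sdiff_subset, fun h => (h (hX ha)).2 ha⟩
      (hT.diff hsep hX)
    let c : ι → F := fun i => if i ∈ X then c₁ i else c₂ i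
    have e1 : ∀ z : ι → F, X.indicator (c * z) = c₁ * X.indicator z := fun z => by
      funext i; by_cases hi : i ∈ X <;> simp [c, hi]
    have e2 : ∀ z : ι → F, Xᶜ.indicator (c * z) = c₂ * Xᶜ.indicator z := fun z => by
      funext i; by_cases hi : i ∈ X <;> simp [c, hi]
    have e3 : ∀ z : ι → F, lc u z = 0 ↔ lc u (X.indicator z) = 0 ∧ lc u (Xᶜ.indicator z) = 0 := by
      intro z
      have e4 : lc u z = lc u (X.indicator z) + lc u (Xᶜ.indicator z) := by
        rw [← map_add, ← ind_compl]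
      refine ⟨fun h => ?_, fun h => by rw [e4, h.1, h.2, add_zero]⟩
      have h7 : lc u (X.indicator z) = 0 := hsep z h
      exact ⟨h7, by rwa [h, h7, zero_add, eq_comm] at e4⟩
    refine ⟨c, fun i => by by_cases hi : i ∈ X <;> simp [c, hi, h1, h4], fun z hz => ?_, ?_⟩
    · rw [e3 z, e3 (c * z), e1, e2, ← h2 _ (on_indicator _ _),
        ← h5 (Xᶜ.indicator z) (hz.indicator.mono fun i hi => ⟨hi.2, hi.1⟩)]
    · have e5 : ∀ y : ι → F, X.indicator (T.indicator y) = X.indicator y := fun y => by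
        rw [indicator_indicator, inter_eq_left.2 hX]
      have e6 : ∀ y : ι → F, Xᶜ.indicator (T.indicator y) = (T \ X).indicator y := fun y => by
        rw [indicator_indicator, Set.sdiff_eq, inter_comm]
      rw [ind_compl X (c * _), ind_compl X (T.indicator x'), map_add, map_add, e1, e2, e5, e5, e6,
        e6, h3, h6]
  · have hc : ConnMod F u Tᶜ T := by
      intro X hX h1 h2
      by_contra hlt
      refine hsplit ⟨X, hX, h1, h2, fun z hz => ?_⟩
      have a1 := finrank_sup_add_finrank_inf_eq (sp F u (Tᶜ ∪ X)) (sp F u (Tᶜ ∪ (T \ X)))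
      rw [← sp_union, ← union_union_distrib_left, union_sdiff_cancel hX] at a1
      have a2 : sp F u Tᶜ = sp F u (Tᶜ ∪ X) ⊓ sp F u (Tᶜ ∪ (T \ X)) :=
        eq_of_le_of_finrank_le (le_inf (sp_mono u subset_union_left) (sp_mono u subset_union_left))
          (by simp only [rk] at hlt; omega)
      refine hT.mem_of (((on_indicator X z).mono hX).lc_mem u) (mem_sup_right ?_)
      rw [a2]
      refine ⟨((on_indicator X z).mono subset_union_right).lc_mem u, ?_⟩
      have e4 : lc u (X.indicator z) = lc u z - lc u (Xᶜ.indicator z) := by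
        rw [eq_sub_iff_add_eq, ← map_add, ← ind_compl]
      rw [e4, (mem_bot F).1 hz, zero_sub]
      refine neg_mem (((on_indicator Xᶜ z).mono fun i hi => ?_).lc_mem u)
      by_cases hiT : i ∈ T
      · exact Or.inr ⟨hiT, hi⟩
      · exact Or.inl hiT
    obtain ⟨s, hs, hm⟩ := parallel_of_conn m1 m2 m3 T Tᶜ hc
      (On.lc_mem u fun i hi => absurd (by simp) hi)
    have e : ∀ z : ι → F, (fun _ => s) * z = s • z := fun z => rfl
    refine ⟨fun _ => s, fun _ => hs, fun z _ => by rw [e, map_smul, smul_eq_zero_iff_right hs], ?_⟩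
    rw [e, eq_comm, ← sub_eq_zero, ← map_sub, ← mem_bot F]
    refine hT.mem_of (((on_indicator _ _).sub ((on_indicator _ _).smul s)).lc_mem u)
      (mem_sup_right ?_)
    have := sub_mem hm (((on_indicator Tᶜ x').sub ((on_indicator Tᶜ x).smul s)).lc_mem u)
    convert this using 1
    rw [← map_smul, ← map_sub, ← map_sub]
    congr 1
    funext i
    by_cases hi : i ∈ T <;> simp [hi]

omit [FiniteDimensional F V] in
/-- Equal cycle spaces give linearly equivalent configurations. -/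
lemma exists_equiv_of_cyc {v w : ι → V} {S : Set ι}
    (h : ∀ z : ι → F, On S z → (lc w z = 0 ↔ lc v z = 0)) :
    ∃ φ : V ≃ₗ[F] V, ∀ b ∈ S, w b = φ (v b) := by
  let P : Submodule F (ι → F) :=
    { carrier := {c | On S c}
      add_mem' := fun ha hb => ha.add hb
      zero_mem' := on_zero S
      smul_mem' := fun s _ h => h.smul s }
  have hker : LinearMap.ker ((lc v).domRestrict P) = LinearMap.ker ((lc w).domRestrict P) := by
    ext z
    simpa using (h z z.2).symm
  obtain ⟨φ, hφ⟩ := Submodule.exists_linearEquiv_restrict_eq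
    (((lc v).domRestrict P).quotKerEquivRange.symm ≪≫ₗ (quotEquivOfEq _ _ hker) ≪≫ₗ
      ((lc w).domRestrict P).quotKerEquivRange)
  refine ⟨φ, fun b hb => ?_⟩
  have := hφ ⟨_, ⟨⟨_, on_single hb (1 : F)⟩, rfl⟩⟩
  simp only [LinearEquiv.trans_apply, LinearMap.quotKerEquivRange_symm_apply_image] at this
  simpa [lc_single] using this

open Classical in
/-- The restriction of a configuration to `S`, the other vectors being replaced by zero. -/
noncomputable def res {W : Type*} [Zero W] (S : Set ι) (v : ι → W) : ι → W :=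
  fun b => if b ∈ S then v b else 0

omit [FiniteDimensional F V] [Fintype ι] in
lemma sp_res (S T : Set ι) (v : ι → V) : sp F (res S v) T = sp F v (T ∩ S) := by
  refine le_antisymm (sp_le.2 fun i hi => ?_) (sp_le.2 fun i hi => ?_)
  · by_cases h : i ∈ S
    · simpa [res, h] using mem_sp_of_mem (F := F) v (⟨hi, h⟩ : i ∈ T ∩ S)
    · simp [res, h]
  · simpa [res, hi.2] using mem_sp_of_mem (F := F) (res S v) hi.1

omit [FiniteDimensional F V] in
lemma lc_congr {v w : ι → V} {S : Set ι} (h : ∀ b ∈ S, v b = w b) {z : ι → F} (hz : On S z) :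
    lc v z = lc w z := by
  refine Finset.sum_congr rfl fun i _ => ?_
  by_cases hi : i ∈ S
  · rw [h i hi]
  · simp [hz i hi]

omit [FiniteDimensional F V] [Fintype ι] in
lemma sp_congr {v w : ι → V} {S : Set ι} (h : ∀ b ∈ S, v b = w b) : sp F v S = sp F w S := by
  rw [sp, sp, image_congr h]

omit [FiniteDimensional F V] in
lemma lc_split (v : ι → V) (z : ι → F) (e : ι) :
    lc v z = lc v (({e} : Set ι)ᶜ.indicator z) + z e • v e := by
  classical
  rw [← lc_single, ← map_add]
  congr 1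
  funext i
  by_cases hi : i = e
  · subst hi; simp
  · simp [hi]

theorem binary_unique {V₂ : Type*} [AddCommGroup V₂] [Module (ZMod 2) V₂] {v w : ι → V}
    {u₂ : ι → V₂} {E : Set ι}
    (h1 : ∀ S ⊆ E, ∀ b ∈ E, v b ∈ sp F v S ↔ u₂ b ∈ sp (ZMod 2) u₂ S)
    (h2 : ∀ S ⊆ E, ∀ b ∈ E, w b ∈ sp F w S ↔ u₂ b ∈ sp (ZMod 2) u₂ S) :
    ∃ (φ : V ≃ₗ[F] V) (c : ι → F), (∀ b, c b ≠ 0) ∧ ∀ b ∈ E, w b = φ (c b • v b) := by
  classical
  suffices H : ∀ S : Set ι, S ⊆ E → ∃ (φ : V ≃ₗ[F] V) (c : ι → F), (∀ b, c b ≠ 0) ∧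
      ∀ b ∈ S, w b = φ (c b • v b) from H E subset_rfl
  intro S
  have hS := S.toFinite
  induction S, hS using Set.Finite.induction_on with
  | empty => exact fun _ => ⟨LinearEquiv.refl _ _, 1, fun _ => one_ne_zero, by simp⟩
  | @insert e S he _ ih =>
    intro hSE
    have heE : e ∈ E := hSE (mem_insert _ _)
    have hS : S ⊆ E := (subset_insert _ _).trans hSE
    obtain ⟨φ, c, hc, hφ⟩ := ih hS
    have hmap : ∀ T ⊆ S, ∀ x, φ x ∈ sp F w T ↔ x ∈ sp F v T := by
      intro T hT x
      have : sp F w T = (sp F v T).map (φ : V →ₗ[F] V) := by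
        refine le_antisymm (sp_le.2 fun i hi => ?_) ?_
        · exact ⟨_, smul_mem _ (c i) (mem_sp_of_mem v hi), (hφ i (hT hi)).symm⟩
        · rw [map_le_iff_le_comap]
          refine sp_le.2 fun i hi => ?_
          rw [mem_comap, ← smul_mem_iff _ (hc i), ← map_smul]
          exact (hφ i (hT hi)) ▸ mem_sp_of_mem w hi
      rw [this]
      exact mem_map_equiv _ |>.trans (by simp)
    have m2 : ∀ T, φ (v e) ∈ sp F (res S w) T ↔ u₂ e ∈ sp (ZMod 2) (res S u₂) T := fun T => by
      rw [sp_res, sp_res, hmap _ inter_subset_right, h1 _ (inter_subset_right.trans hS) e heE]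
    have m3 : ∀ T, w e ∈ sp F (res S w) T ↔ u₂ e ∈ sp (ZMod 2) (res S u₂) T := fun T => by
      rw [sp_res, sp_res, h2 _ (inter_subset_right.trans hS) e heE]
    have hon : ∀ z : ι → F, On (insert e S) z → On S (({e} : Set ι)ᶜ.indicator z) :=
      fun z hz => hz.indicator.mono fun i hi => hi.2.resolve_left hi.1
    have hres : ∀ z : ι → F, On S z → lc (res S w) z = lc w z := fun z hz =>
      lc_congr (fun b hb => by simp [res, hb]) hz
    suffices H : ∃ c' : ι → F, (∀ b, c' b ≠ 0) ∧ ∀ z : ι → F, On (insert e S) z →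
        (lc w z = 0 ↔ lc (fun b => φ (c' b • v b)) z = 0) by
      obtain ⟨c', h3, h4⟩ := H
      obtain ⟨φ', h5⟩ := exists_equiv_of_cyc h4
      exact ⟨φ ≪≫ₗ φ', c', h3, h5⟩
    by_cases hp : φ (v e) ∈ sp F (res S w) univ
    · obtain ⟨x, -, hx⟩ := mem_sp.1 hp
      obtain ⟨x', -, hx'⟩ := mem_sp.1 ((m3 _).2 ((m2 _).1 hp))
      obtain ⟨d, hd, h3, h4⟩ := exists_scaling (u := res S w) (u₂ := res S u₂) (x := x) (x' := x')
        (p₂ := u₂ e) (fun T b => by
          by_cases hb : b ∈ S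
          · rw [sp_res, sp_res]
            simpa [res, hb] using h2 _ (inter_subset_right.trans hS) b (hS hb)
          · simp [res, hb]) (by rwa [hx]) (by rwa [hx']) univ (fun z hz => by rwa [indicator_univ])
      rw [indicator_univ, indicator_univ, hx'] at h4
      refine ⟨fun b => if b = e then 1 else c b / d b, fun b => ?_, fun z hz => ?_⟩
      · dsimp only
        split_ifs
        · exact one_ne_zero
        · exact div_ne_zero (hc b) (hd b)
      · set z' := ({e} : Set ι)ᶜ.indicator z with hz'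
        have e1 : lc (fun b => φ ((if b = e then 1 else c b / d b) • v b)) z =
            lc (res S w) (d⁻¹ * z' + z e • x) := by
          rw [lc_split _ z e, map_add, map_smul (lc (res S w)), hx, if_pos rfl, one_smul]
          congr 1
          refine Finset.sum_congr rfl fun b _ => ?_
          by_cases hb : b ∈ S
          · have : b ≠ e := fun h => he (h ▸ hb)
            simp only [res, if_pos hb, if_neg this, hφ b hb, map_smul, smul_smul, Pi.mul_apply,
              Pi.inv_apply, ← hz']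
            congr 1
            rw [div_eq_mul_inv]; ring
          · have : z' b = 0 := hon z hz b hb
            simp only [← hz', this, zero_smul, Pi.mul_apply, mul_zero]
        have e2 : d * (d⁻¹ * z' + z e • x) = z' + z e • (d * x) := by
          funext b
          simp only [Pi.mul_apply, Pi.add_apply, Pi.inv_apply, Pi.smul_apply, smul_eq_mul]
          rw [mul_add, mul_inv_cancel_left₀ (hd b)]; ring
        rw [e1, h3 _ (fun i hi => absurd (mem_univ i) hi), e2, map_add, map_smul, h4,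
          hres _ (hon z hz), lc_split w z e]
    · have hp' : w e ∉ sp F (res S w) univ := fun h => hp ((m2 _).2 ((m3 _).1 h))
      rw [sp_res, univ_inter] at hp hp'
      refine ⟨fun b => if b = e then 1 else c b, fun b => ?_, fun z hz => ?_⟩
      · dsimp only
        split_ifs
        · exact one_ne_zero
        · exact hc b
      · have e1 : lc (fun b => φ ((fun b => if b = e then 1 else c b) b • v b))
            (({e} : Set ι)ᶜ.indicator z) =
            lc w (({e} : Set ι)ᶜ.indicator z) := lc_congr (fun b hb => by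
          have : b ≠ e := fun h => he (h ▸ hb)
          simp only [if_neg this, hφ b hb]) (hon z hz)
        have key : ∀ y : V, y ∉ sp F w S → (lc w (({e} : Set ι)ᶜ.indicator z) + z e • y = 0 ↔
            lc w (({e} : Set ι)ᶜ.indicator z) = 0 ∧ z e = 0) := by
          intro y hy
          refine ⟨fun h => ?_, fun h => by simp [h.1, h.2]⟩
          have h0 : z e = 0 := by
            by_contra h0
            refine hy ((smul_mem_iff _ h0).1 ?_)
            rw [eq_neg_of_add_eq_zero_right h]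
            exact neg_mem ((hon z hz).lc_mem w)
          exact ⟨by simpa [h0] using h, h0⟩
        rw [lc_split w z e, lc_split _ z e, e1]
        simp only [if_true, one_smul]
        rw [key _ hp, key _ hp']

end Pool.Agent.MP_d99b12_co.H30
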