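import Pool.Agent.MP_d99b12_co.H30.Basic

/-!
Bounds on the rank of a family of interchangeable extension points modulo the complement of a
circuit, and modulo the complement of a chain of ears.
-/

namespace Pool.Agent.MP_d99b12_co.H30

open Module Submodule Set

variable {F V ι : Type*} [Field F] [AddCommGroup V] [Module F V] [Fintype ι]

variable (F) in
/-- The points of `A` lie in the same spans of subfamilies. -/
def Hyp (v : ι → V) (A : Set V) : Prop :=
  ∀ S : Set ι, ∀ a ∈ A, ∀ a' ∈ A, a ∈ sp F v S → a' ∈ sp F v S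

lemma Circ.mem_iff {v : ι → V} {C K : Set ι} {c x : ι → F} (h : Circ v (sp F v C) K c) {a : V}
    (hx : On K x) (ha : a - lc v x ∈ sp F v C) {b b' : ι} (hb : b ∈ K) (hb' : b' ∈ K) :
    a ∈ sp F v (C ∪ (K \ {b, b'})) ↔ x b / c b = x b' / c b' := by
  rw [sp_union, mem_sup_sp]
  constructor
  · rintro ⟨z, hz, hm⟩
    obtain ⟨s, hs⟩ := h.uniq (x - z) (hx.sub (hz.mono sdiff_subset)) (by
      have := sub_mem hm ha
      rw [map_sub]; convert this using 1; abel)
    have h1 := congrFun hs b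
    have h2 := congrFun hs b'
    simp only [Pi.sub_apply, hz b (by simp), hz b' (by simp), sub_zero, Pi.smul_apply,
      smul_eq_mul] at h1 h2
    rw [h1, h2, mul_div_cancel_right₀ _ (h.ne b hb), mul_div_cancel_right₀ _ (h.ne b' hb')]
  · intro he
    refine ⟨x - (x b / c b) • c, fun i hi => ?_, ?_⟩
    · by_cases hK : i ∈ K
      · have : i = b ∨ i = b' := by
          by_contra hh
          exact hi ⟨hK, by simpa using hh⟩
        rcases this with rfl | rfl
        · simp [div_mul_cancel₀ _ (h.ne i hK)]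
        · simp [he, div_mul_cancel₀ _ (h.ne i hK)]
      · simp [hx i hK, h.on i hK]
    · have := add_mem ha (smul_mem _ (x b / c b) h.mem)
      rw [map_sub, map_smul]; convert this using 1; abel

variable [FiniteDimensional F V] [Fintype F]

/-- Modulo a complement of a spanning circuit the points have rank at most `|F|`. -/
lemma rho_circ {v : ι → V} {A : Set V} (hA : Hyp F v A) {C K : Set ι} {c : ι → F}
    (h : Circ v (sp F v C) K c) (htop : sp F v C ⊔ sp F v K = ⊤) :
    rho (span F A) (sp F v C) ≤ Fintype.card F := by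
  classical
  rcases A.eq_empty_or_nonempty with rfl | ⟨a₀, ha₀⟩
  · rw [span_empty, rho_eq_zero.2 bot_le]; exact Nat.zero_le _
  obtain ⟨x₀, hx₀, hm₀⟩ := mem_sup_sp.1 (htop ▸ mem_top : a₀ ∈ sp F v C ⊔ sp F v K)
  let w : F → V := fun s => lc v ({b | x₀ b / c b = s}.indicator c)
  refine (rho_le_of_le_sup (U := span F (range w)) ?_).trans (finrank_range_le_card w)
  rw [span_le]
  intro a ha
  obtain ⟨x, hx, hm⟩ := mem_sup_sp.1 (htop ▸ mem_top : a ∈ sp F v C ⊔ sp F v K)
  have key : ∀ b ∈ K, ∀ b' ∈ K, x₀ b / c b = x₀ b' / c b' → x b / c b = x b' / c b' := by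
    intro b hb b' hb' he
    exact (h.mem_iff hx hm hb hb').1 (hA _ _ ha₀ _ ha ((h.mem_iff hx₀ hm₀ hb hb').2 he))
  let β : F → F := fun s => if hs : ∃ b ∈ K, x₀ b / c b = s then x hs.choose / c hs.choose else 0
  have hxe : x = ∑ s, β s • {b | x₀ b / c b = s}.indicator c := by
    funext b
    rw [Finset.sum_apply, Finset.sum_eq_single (x₀ b / c b)]
    · by_cases hb : b ∈ K
      · have hs : ∃ b' ∈ K, x₀ b' / c b' = x₀ b / c b := ⟨b, hb, rfl⟩
        have := key _ hs.choose_spec.1 b hb hs.choose_spec.2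
        simp only [β, dif_pos hs, this, Pi.smul_apply, smul_eq_mul]
        rw [indicator_of_mem (by simp), div_mul_cancel₀ _ (h.ne b hb)]
      · simp [hx b hb, indicator, h.on b hb]
    · intro s _ hs
      rw [Pi.smul_apply, indicator_of_notMem (by simpa using hs.symm), smul_zero]
    · simp
  have : a = (a - lc v x) + lc v x := by abel
  rw [SetLike.mem_coe, this]
  refine add_mem (mem_sup_left hm) (mem_sup_right ?_)
  rw [hxe, map_sum]
  refine sum_mem fun s _ => ?_
  rw [map_smul]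
  exact smul_mem _ _ (subset_span ⟨s, rfl⟩)

/-- A stage of an ear chain: the set `Y` of earlier ears, the last ear `K` and its relation. -/
structure St (F ι : Type*) where
  Y : Set ι
  K : Set ι
  c : ι → F

/-- All ears up to the current one. -/
def St.Z (s : St F ι) : Set ι := s.Y ∪ s.K

/-- The last ear is a circuit modulo the earlier ones. -/
def St.Valid (v : ι → V) (s : St F ι) : Prop := Circ v (sp F v s.Y) s.K s.c ∧ Disjoint s.K s.Y

/-- Adding an ear attached to the last one. -/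
def Step (v : ι → V) (s s' : St F ι) : Prop :=
  s'.Y = s.Z ∧ s'.Valid v ∧ lc v s'.c ∉ sp F v s.Y

omit [FiniteDimensional F V] [Fintype F] [Field F] [Fintype ι] in
lemma exists_cross {K S : Set ι} {α : ι → F} (h1 : S.Nonempty)
    (h2 : (K \ S).Nonempty) (hα : ∃ b ∈ K, ∃ b' ∈ K, α b ≠ α b') :
    ∃ g ∈ S, ∃ b ∈ K \ S, α g ≠ α b := by
  by_contra hne
  push Not at hne
  obtain ⟨g, hg⟩ := h1
  obtain ⟨t, ht⟩ := h2
  obtain ⟨b, hb, b', hb', hbb⟩ := hα
  have : ∀ i ∈ K, α i = α g := by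
    intro i hi
    by_cases hiS : i ∈ S
    · rw [hne i hiS t ht, hne g hg t ht]
    · exact (hne g hg i ⟨hi, hiS⟩).symm
  exact hbb ((this b hb).trans (this b' hb').symm)

omit [FiniteDimensional F V] [Fintype F] in
lemma Circ.nonconst {v : ι → V} {W : Submodule F V} {K : Set ι} {c k : ι → F}
    (h : Circ v W K c) (hk : On K k) (hm : lc v k ∉ W) :
    ∃ b ∈ K, ∃ b' ∈ K, k b / c b ≠ k b' / c b' := by
  by_contra hne
  push Not at hne
  obtain ⟨g, hg⟩ := h.nonempty
  have : k = (k g / c g) • c := by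
    funext i
    by_cases hi : i ∈ K
    · rw [Pi.smul_apply, ← hne i hi g hg, smul_eq_mul, div_mul_cancel₀ _ (h.ne i hi)]
    · simp [hk i hi, h.on i hi]
  exact hm (by rw [this, map_smul]; exact smul_mem _ _ h.mem)

/-- The invariant of the backward induction along an ear chain. -/
def Inv (v : ι → V) (A : Set V) (O : Set ι) (s : St F ι) : Prop :=
  ∀ U : Submodule F V, U ≤ sp F v s.Y → ∃ (C Q : Set ι) (d : ι → F), O ⊆ C ∧
    Ind v (sp F v s.Y) C ∧ Circ v (sp F v s.Y ⊔ sp F v C) Q d ∧ Disjoint Q s.Y ∧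
    sp F v s.Y ⊔ sp F v C ⊔ sp F v Q = ⊤ ∧ (lc v s.c ∉ U → lc v d ∉ U ⊔ sp F v C) ∧
    rho (span F A) (sp F v s.Y ⊔ sp F v O) ≤
      Fintype.card F * rho (span F A) (sp F v s.Y ⊔ sp F v C)

omit [FiniteDimensional F V] in
lemma inv_last {v : ι → V} {A : Set V} {O : Set ι} {s : St F ι} (hs : s.Valid v)
    (hO : Ind v (sp F v s.Z) O) (htop : sp F v s.Z ⊔ sp F v O = ⊤) : Inv v A O s := by
  intro U hU
  rw [St.Z, sp_union] at hO htop
  refine ⟨O, s.K, s.c, subset_rfl, hO.mono le_sup_left subset_rfl, hs.1.sup hO, hs.2, ?_, ?_, ?_⟩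
  · rw [← htop]; ac_rfl
  · intro hc hm
    obtain ⟨o, ho, hm⟩ := mem_sup_sp.1 hm
    have : o = 0 := hO o ho (mem_sup_left (by simpa using sub_mem hs.1.mem (hU hm)))
    exact hc (by simpa [this] using hm)
  · exact Nat.le_mul_of_pos_left _ Fintype.card_pos

lemma inv_step {v : ι → V} {A : Set V} (hA : Hyp F v A) {O : Set ι} {s s' : St F ι}
    (hs : s.Valid v) (hst : Step v s s') (hi : Inv v A O s') : Inv v A O s := by
  classical
  obtain ⟨Y, K, c⟩ := s
  obtain ⟨Y', K', c'⟩ := s'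
  obtain ⟨hY, -, hatt⟩ := hst
  obtain ⟨hK, hKY⟩ := hs
  simp only [St.Z] at hY hatt hK hKY
  subst hY
  intro U hU
  simp only at hU ⊢
  obtain ⟨C, Q, d, hOC, hC, hQ, hQY, htop, hd, hrho⟩ := hi (sp F v Y) (sp_mono v subset_union_left)
  simp only [sp_union] at hC hQ htop hrho hQY
  have hd := hd hatt
  -- decomposition of the relation of `Q`
  obtain ⟨c₀, hc₀, h1⟩ := mem_sup_sp.1 hQ.mem
  obtain ⟨k, hk, h2⟩ := mem_sup_sp.1 h1
  set y := lc v d - lc v c₀ - lc v k with hy
  have hkn : lc v k ∉ sp F v Y := fun hm => hd (mem_sup_sp.2 ⟨c₀, hc₀, by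
    simpa [hy] using add_mem h2 hm⟩)
  obtain ⟨b₁, hb₁, b₂, hb₂, h12⟩ := hK.nonconst hk hkn
  -- a good class
  obtain ⟨σ, ⟨bσ, hbσ, hσ⟩, ⟨bτ, hbτ, hτ⟩, hgood⟩ : ∃ σ : F, (∃ b ∈ K, k b / c b = σ) ∧
      (∃ b ∈ K, k b / c b ≠ σ) ∧ (lc v c ∉ U → y + σ • lc v c ∉ U) := by
    by_cases hb : y + (k b₁ / c b₁) • lc v c ∈ U
    · refine ⟨k b₂ / c b₂, ⟨b₂, hb₂, rfl⟩, ⟨b₁, hb₁, h12⟩, fun hc hm => hc ?_⟩
      have := sub_mem hb hm
      rw [add_sub_add_left_eq_sub, ← sub_smul] at this
      exact (smul_mem_iff _ (sub_ne_zero.2 h12)).1 this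
    · exact ⟨k b₁ / c b₁, ⟨b₁, hb₁, rfl⟩, ⟨b₂, hb₂, h12.symm⟩, fun _ => hb⟩
  set S : Set ι := {b ∈ K | k b / c b = σ} with hS
  have hSK : S ⊆ K := fun b hb => hb.1
  have hCK : Disjoint C K := by
    have := (show Ind v (sp F v (Y ∪ K)) C by rwa [sp_union]).disjoint
    exact this.mono_right subset_union_right
  have hQK : Disjoint Q K := hQY.mono_right subset_union_right
  have hI : ∀ g ∈ K, Ind v (sp F v Y) ((K \ {g}) ∪ C) := fun g hg =>
    (hK.ind hg).union (hC.mono (sup_le_sup_left (sp_mono v sdiff_subset) _) subset_rfl)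
  -- the choice of the deleted element
  obtain ⟨g, hg, hgain⟩ : ∃ g ∈ S, rho (span F A) (sp F v Y ⊔ sp F v O) ≤
      Fintype.card F * rho (span F A) (sp F v Y ⊔ sp F v (C ∪ (S \ {g}))) := by
    have hle : ∀ g, sp F v Y ⊔ sp F v (C ∪ (S \ {g})) ≤ sp F v Y ⊔ sp F v K ⊔ sp F v C := by
      intro g
      rw [sp_union]
      exact sup_le (le_sup_left.trans le_sup_left) (sup_le le_sup_right
        ((sp_mono v (sdiff_subset.trans hSK)).trans (le_sup_right.trans le_sup_left)))
    by_cases hrich : span F A ⊓ (sp F v Y ⊔ sp F v K ⊔ sp F v O) ≤ sp F v Y ⊔ sp F v O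
    · exact ⟨bσ, ⟨hbσ, hσ⟩, (rho_le_of_inf hrich).trans (hrho.trans
        (Nat.mul_le_mul_left _ (rho_anti _ (hle _))))⟩
    obtain ⟨ψ, ⟨hψ1, hψ2⟩, hψ3⟩ := SetLike.not_le_iff_exists.1 hrich
    obtain ⟨o, ho, h3⟩ := mem_sup_sp.1 hψ2
    obtain ⟨k₁, hk₁, h4⟩ := mem_sup_sp.1 h3
    have hk₁n : lc v k₁ ∉ sp F v Y := fun hm => hψ3 (mem_sup_sp.2 ⟨o, ho, by
      simpa using add_mem h4 hm⟩)
    obtain ⟨g, hg, b, hb, hgb⟩ := exists_cross (α := fun b => k₁ b / c b) (K := K) (S := S) ⟨bσ, hbσ, hσ⟩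
      ⟨bτ, hbτ, fun h => hτ h.2⟩ (hK.nonconst hk₁ hk₁n)
    refine ⟨g, hg, ?_⟩
    have hlt : rho (span F A) (sp F v Y ⊔ sp F v K ⊔ sp F v C) + 1 ≤
        rho (span F A) (sp F v Y ⊔ sp F v (C ∪ (S \ {g}))) := by
      have hOle : sp F v Y ⊔ sp F v K ⊔ sp F v O ≤ sp F v Y ⊔ sp F v K ⊔ sp F v C :=
        sup_le_sup_left (sp_mono v hOC) _
      refine rho_lt (hle g) hψ1 (hOle hψ2) fun hm => ?_
      obtain ⟨z, hz, h5⟩ := mem_sup_sp.1 hm
      have h6 : k₁ - (k₁ g / c g) • c + o - z = 0 := by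
        refine hI g (hSK hg) _ (On.sub (On.add ?_ (ho.mono (hOC.trans subset_union_right)))
          (hz.mono ?_)) ?_
        · intro i hi
          by_cases hiK : i ∈ K
          · have : i = g := by
              by_contra hne
              exact hi (Or.inl ⟨hiK, hne⟩)
            subst this
            simp [div_mul_cancel₀ _ (hK.ne i hiK)]
          · simp [hk₁ i hiK, hK.on i hiK]
        · rintro i (hi | hi)
          · exact Or.inr hi
          · exact Or.inl ⟨hSK hi.1, hi.2⟩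
        · have := sub_mem (sub_mem h5 h4) (smul_mem _ (k₁ g / c g) hK.mem)
          rw [map_sub, map_add, map_sub, map_smul]; convert this using 1; abel
      have h7 := congrFun h6 b
      have hbC : b ∉ C := fun h => Set.disjoint_left.1 hCK h hb.1
      have hob : o b = 0 := ho b fun h => hbC (hOC h)
      have hzb : z b = 0 := hz b (by
        rintro (h | h)
        · exact hbC h
        · exact hb.2 h.1)
      simp only [Pi.sub_apply, Pi.add_apply, Pi.smul_apply, hob, hzb, smul_eq_mul, add_zero,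
        sub_zero, Pi.zero_apply] at h7
      apply hgb
      rw [sub_eq_zero.1 h7, mul_div_cancel_right₀ _ (hK.ne b hb.1)]
    obtain ⟨C'', hOC'', -, hC'', htop''⟩ := (hC.mono le_rfl hOC).extend univ
    have hq : rho (span F A) (sp F v Y ⊔ sp F v C'') ≤ Fintype.card F := by
      rw [← sp_union]
      refine rho_circ hA (K := K) (c := c) (by rw [sp_union]; exact hK.sup hC'') ?_
      rw [sp_union, eq_top_iff, ← htop]
      have h8 : sp F v univ ≤ sp F v Y ⊔ sp F v C'' ⊔ sp F v K := htop''.trans (le_of_eq (by ac_rfl))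
      simp only [← sp_union]
      simp only [← sp_union] at h8
      exact (sp_mono v (subset_univ _)).trans h8
    have h9 := (rho_anti (span F A) (hC''.inf_le le_sup_left hOC'')).trans (rho_inf_le _ _ _)
    calc rho (span F A) (sp F v Y ⊔ sp F v O)
        ≤ Fintype.card F * rho (span F A) (sp F v Y ⊔ sp F v K ⊔ sp F v C) + Fintype.card F := by
          omega
      _ = Fintype.card F * (rho (span F A) (sp F v Y ⊔ sp F v K ⊔ sp F v C) + 1) := by ring
      _ ≤ _ := Nat.mul_le_mul_left _ hlt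
  have hgK := hSK hg
  have hsub : C ∪ (S \ {g}) ⊆ (K \ {g}) ∪ C := by
    rintro i (hi | hi)
    · exact Or.inr hi
    · exact Or.inl ⟨hSK hi.1, hi.2⟩
  have hC' : Ind v (sp F v Y) (C ∪ (S \ {g})) := (hI g hgK).mono le_rfl hsub
  have hkσ : On (K \ S) (k - σ • c) := by
    intro i hi
    by_cases hiK : i ∈ K
    · have : k i / c i = σ := by
        by_contra hne
        exact hi ⟨hiK, fun h => hne h.2⟩
      simp [← this, div_mul_cancel₀ _ (hK.ne i hiK)]
    · simp [hk i hiK, hK.on i hiK]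
  have hds : lc v (d - (k - σ • c)) - lc v c₀ = y + σ • lc v c := by
    rw [map_sub, map_sub, map_smul, hy]; abel
  have hdsm : y + σ • lc v c ∈ sp F v Y := add_mem h2 (smul_mem _ _ hK.mem)
  have hc₀' : On (C ∪ (S \ {g})) c₀ := hc₀.mono subset_union_left
  have hdson : On (Q ∪ (K \ S)) (d - (k - σ • c)) :=
    (hQ.on.mono subset_union_left).sub (hkσ.mono subset_union_right)
  refine ⟨C ∪ (S \ {g}), Q ∪ (K \ S), d - (k - σ • c), hOC.trans subset_union_left, hC',
    ⟨hdson, ?_, mem_sup_sp.2 ⟨c₀, hc₀', hds ▸ hdsm⟩, hQ.nonempty.mono subset_union_left, ?_⟩,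
    ?_, ?_, ?_, hgain⟩
  · rintro i (hi | hi)
    · have hiK : i ∉ K := fun h => Set.disjoint_left.1 hQK hi h
      simp [hk i hiK, hK.on i hiK, hQ.ne i hi]
    · have hiQ : i ∉ Q := fun h => Set.disjoint_left.1 hQK h hi.1
      simp only [Pi.sub_apply, hQ.on i hiQ, Pi.smul_apply, smul_eq_mul, zero_sub, ne_eq,
        neg_eq_zero, sub_eq_zero]
      intro he
      exact hi.2 ⟨hi.1, by rw [he, mul_div_cancel_right₀ _ (hK.ne i hi.1)]⟩
  · intro x hx hm
    obtain ⟨z, hz, h5⟩ := mem_sup_sp.1 hm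
    have hxc : On K (Qᶜ.indicator x) := hx.indicator.mono (by
      rintro i ⟨h1, h2 | h2⟩
      · exact absurd h2 h1
      · exact h2.1)
    obtain ⟨t, ht⟩ := hQ.uniq (Q.indicator x) (on_indicator _ _) (by
      have e : lc v (Q.indicator x) = (lc v x - lc v z) + lc v z - lc v (Qᶜ.indicator x) := by
        rw [sub_add_cancel, eq_sub_iff_add_eq, ← map_add, ← ind_compl]
      rw [e]
      refine sub_mem (add_mem (mem_sup_left (mem_sup_left h5)) ?_)
        (mem_sup_left (mem_sup_right (hxc.lc_mem v)))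
      have := (hz.mono hsub).lc_mem v
      rw [sp_union] at this
      have hle : sp F v (K \ {g}) ⊔ sp F v C ≤ sp F v Y ⊔ sp F v K ⊔ sp F v C :=
        sup_le_sup ((sp_mono v sdiff_subset).trans le_sup_right) le_rfl
      exact hle this)
    refine ⟨t, sub_eq_zero.1 ?_⟩
    have hon : On (K \ S) (x - t • (d - (k - σ • c))) := by
      intro i hi
      by_cases hiQ : i ∈ Q
      · have hiK : i ∉ K := fun h => Set.disjoint_left.1 hQK hiQ h
        have := congrFun ht i
        rw [indicator_of_mem hiQ] at this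
        simp [this, hk i hiK, hK.on i hiK]
      · have : i ∉ Q ∪ (K \ S) := by
          rintro (h | h)
          · exact hiQ h
          · exact hi h
        rw [Pi.sub_apply, hx i this, Pi.smul_apply, hdson i this]; simp
    have h6 : x - t • (d - (k - σ • c)) - (z - t • c₀) = 0 := by
      refine hI g hgK _ (On.sub (hon.mono ?_) ((hz.sub (hc₀'.smul t)).mono hsub)) ?_
      · exact fun i hi => Or.inl ⟨hi.1, fun h => hi.2 (h ▸ hg)⟩
      · have := sub_mem h5 (smul_mem _ t (hds ▸ hdsm))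
        rw [map_sub, map_sub, map_smul, map_sub (lc v) z, map_smul]
        convert this using 1
        rw [smul_sub]; abel
    have h7 := sub_eq_zero.1 h6
    funext i
    by_cases hi : i ∈ K \ S
    · rw [h7]
      exact (hz.sub (hc₀'.smul t)) i (by
        rintro (h | h)
        · exact Set.disjoint_left.1 hCK h hi.1
        · exact hi.2 h.1)
    · exact hon i hi
  · exact Disjoint.union_left (hQY.mono_right subset_union_left) (hKY.mono_left sdiff_subset)
  · rw [eq_top_iff, ← htop]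
    have hKle : sp F v K ≤ sp F v Y ⊔ sp F v (C ∪ (S \ {g})) ⊔ sp F v (Q ∪ (K \ S)) := by
      refine (hK.sp_le hgK).trans (sup_le (le_sup_left.trans le_sup_left) ?_)
      rw [sp_le]
      intro i hi
      by_cases hiS : i ∈ S
      · exact mem_sup_left (mem_sup_right (mem_sp_of_mem v (Or.inr ⟨hiS, hi.2⟩)))
      · exact mem_sup_right (mem_sp_of_mem v (Or.inr ⟨hi.1, hiS⟩))
    refine sup_le (sup_le (sup_le (le_sup_left.trans le_sup_left) hKle) ?_) ?_
    · exact (sp_mono v subset_union_left).trans (le_sup_right.trans le_sup_left)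
    · exact (sp_mono v subset_union_left).trans le_sup_right
  · intro hc hm
    obtain ⟨z, hz, h5⟩ := mem_sup_sp.1 hm
    have : z - c₀ = 0 := hC' _ (hz.sub hc₀') (by
      have := sub_mem (hds ▸ hdsm) (hU h5)
      rw [map_sub]; convert this using 1; abel)
    rw [sub_eq_zero.1 this, hds] at h5
    exact hgood hc h5

/-- Modulo a complement of an ear chain the points have rank at most `|F| ^ 2`. -/
lemma rho_chain {v : ι → V} {A : Set V} (hA : Hyp F v A) {s₀ s : St F ι} (h₀ : s₀.Valid v)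
    (hY : s₀.Y = ∅) (hr : Relation.ReflTransGen (Step v) s₀ s) {O : Set ι}
    (hO : Ind v (sp F v s.Z) O) (htop : sp F v s.Z ⊔ sp F v O = ⊤) :
    rho (span F A) (sp F v O) ≤ Fintype.card F * Fintype.card F := by
  have key : ∀ t, Relation.ReflTransGen (Step v) t s → t.Valid v → Inv v A O t := by
    intro t ht
    induction ht using Relation.ReflTransGen.head_induction_on with
    | refl => exact fun hv => inv_last hv hO htop
    | head hst _ ih => exact fun hv => inv_step hA hv hst (ih hst.2.1)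
  obtain ⟨C, Q, d, -, -, hQ, -, htop', -, hrho⟩ := key s₀ hr h₀ ⊥ bot_le
  simp only [hY, sp_empty, bot_sup_eq] at hQ htop' hrho
  exact hrho.trans (Nat.mul_le_mul_left _ (rho_circ hA hQ htop'))

end Pool.Agent.MP_d99b12_co.H30
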