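import Pool.Agent.MP_d99b12_co.H30.Final

/-!
The core bound: interchangeable extension points of a highly connected configuration span a space
of bounded dimension.
-/

namespace Pool.Agent.MP_d99b12_co.H30

open Module Submodule Set

variable {F V ι : Type*} [Field F] [AddCommGroup V] [Module F V] [Fintype ι]
  [FiniteDimensional F V] [Fintype F]

lemma Frames.false {p k : ℕ} (hp : p.Prime) (hF : Fintype.card F = p ^ k) (hk : 1 < k) {m : ℕ}
    (hm : m = if p = 2 then k - 1 else (k - 1) * (p - 1) + 1) {v : ι → V} {Z : Set ι} {n : ℕ}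
    {f : Fin n → V →ₗ[F] F} (D : Frames v Z n m f) {A : Set V} (hA : Hyp F v A)
    (htop : sp F v univ = ⊤) {a₀ : V} (ha₀ : a₀ ∈ A) {β : ℕ}
    (hβ : ∀ O, Ind v (sp F v Z) O → sp F v Z ⊔ sp F v O = ⊤ → rho (span F A) (sp F v O) ≤ β)
    {ψ : Fin n → V} (hψ : ∀ i, ψ i ∈ span F A) (hd : ∀ i k, f k (ψ i) = if k = i then 1 else 0)
    (hn : 2 * β + (Fintype.card F ^ (2 * β)) ^ m *
      (Fintype.card F * (Fintype.card F * (p + 1))) < n) : False := by
  classical
  have hm1 : 1 ≤ m := by rw [hm]; split_ifs <;> omega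
  have : Nonempty (Fin m) := ⟨⟨0, hm1⟩⟩
  have hne : ∀ a ∈ A, ∀ i, f i a ≠ 0 := by
    intro a ha i h0
    have h1 : span F A ≤ LinearMap.ker (f i) := by
      rw [span_le, (D.piece i).ker]
      exact fun a' ha' => hA _ a ha a' ha' ((D.piece i).ker ▸ h0)
    have := h1 (hψ i)
    simp [hd] at this
  obtain ⟨γ, hγZ, hγC, hγi⟩ := D.exists_gamma
  obtain ⟨B, hCB, hBS, hB⟩ := D.exists_base htop
  have hBk : ∀ i, sp F v B ≤ LinearMap.ker (f i) := fun i =>
    (D.piece i).ker ▸ sp_mono v (hBS i)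
  have hZk : ∀ i, sp F v Z ≤ LinearMap.ker (f i) := fun i => (D.piece i).ker ▸ sp_mono v
    ((subset_compl_iff_disjoint_left.2 (D.piece i).disj).trans (D.piece i).sub)
  have hBi : Ind v (sp F v Z) B := (hB fun _ => 0).1.mono le_rfl subset_union_left
  have hZB : ∀ x ∈ sp F v Z, x ∈ sp F v B → x = 0 := by
    intro x h1 h2
    obtain ⟨c, hc, rfl⟩ := mem_sp.1 h2
    rw [hBi c hc h1, map_zero]
  obtain ⟨I, jj, hI, hspan⟩ := greedy (F := F) γ
  -- the independent family is small
  have hIc : I.card ≤ 2 * β := by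
    let jJ : Fin n → Fin (m + 1) := fun i => if i ∈ I then (jj i).succ else 0
    have hli : LinearIndependent F fun i : I => ψ i := by
      rw [Fintype.linearIndependent_iff]
      intro c hc i
      have := congrArg (f i) hc
      rw [map_sum, Finset.sum_eq_single i] at this
      · simpa [hd] using this
      · intro j _ hj
        have : (i : Fin n) ≠ j := fun h => hj (Subtype.ext h.symm)
        simp [hd, this]
      · simp
    have h1 : span F (range fun i : I => ψ i) ≤ span F A := by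
      rw [span_le]; rintro _ ⟨i, rfl⟩; exact hψ i
    have h2 : span F (range fun i : I => ψ i) ⊓ (sp F v (B ∪ range fun i => D.g i 0) ⊓
        sp F v (B ∪ range fun i => D.g i (jJ i))) ≤ ⊥ := by
      rintro x ⟨hx, hx1, hx2⟩
      obtain ⟨c, rfl⟩ := (mem_span_range_iff_exists_fun F).1 hx
      rw [sp_union] at hx1 hx2
      have h3 := D.dec hBk (fun _ => 0) hx1
      have h4 := D.dec hBk jJ hx2
      have hf : ∀ i : I, f i (∑ j : I, c j • ψ j) = c i := by
        intro i
        rw [map_sum, Finset.sum_eq_single i]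
        · simp [hd]
        · intro j _ hj
          have : (i : Fin n) ≠ j := fun h => hj (Subtype.ext h.symm)
          simp [hd, this]
        · simp
      set x := ∑ j : I, c j • ψ j with hx
      have h5 : ∑ i ∈ I, f i x • (D.u i (jj i).succ - D.u i 0) ∈ sp F v B := by
        have h6 := sub_mem h3 h4
        rw [sub_sub_sub_cancel_left, ← Finset.sum_sub_distrib,
          ← Finset.sum_add_sum_compl I] at h6
        rw [Finset.sum_eq_zero (s := Iᶜ) fun i hi => by
          simp [jJ, Finset.mem_compl.1 hi], add_zero] at h6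
        rw [Finset.sum_congr rfl fun i hi => by rw [smul_sub]]
        rwa [Finset.sum_congr rfl fun i hi => by simp only [jJ, if_pos hi]; rfl] at h6
      have h7 : ∑ i ∈ I, f i x • γ i (jj i) = 0 := by
        refine hZB _ (sum_mem fun i _ => smul_mem _ _ (hγZ _ _)) ?_
        have h8 : ∑ i ∈ I, f i x • (D.u i (jj i).succ - D.u i 0 - γ i (jj i)) ∈ sp F v B :=
          sum_mem fun i _ => smul_mem _ _ (sp_mono v (hCB i) (hγC i _))
        convert sub_mem h5 h8 using 1
        rw [← Finset.sum_sub_distrib]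
        exact Finset.sum_congr rfl fun i _ => by rw [← smul_sub]; simp
      have h9 := (linearIndepOn_finset_iff.1 hI) (fun i => f i x) h7
      rw [mem_bot, hx]
      exact Finset.sum_eq_zero fun i _ => by rw [← hf i, h9 i i.2, zero_smul]
    have h3 := (rho_le_of_inf h2).trans ((rho_mono h1 _).trans (rho_inf_le _ _ _))
    rw [rho_bot, finrank_span_eq_card hli, Fintype.card_coe] at h3
    have h4 := hβ _ (hB fun _ => 0).1 (hB fun _ => 0).2
    have h5 := hβ _ (hB jJ).1 (hB jJ).2
    omega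
  -- many pieces have the same frame
  have hco : ∀ i, ∃ co : Fin m → I → F, i ∉ I → ∀ j, γ i j = ∑ l : I, co j l • γ l (jj l) := by
    intro i
    by_cases hi : i ∈ I
    · exact ⟨0, fun h => absurd hi h⟩
    · have : ∀ j, ∃ c : I → F, γ i j = ∑ l : I, c l • γ l (jj l) := by
        intro j
        have := hspan i hi j
        rw [image_eq_range, mem_span_range_iff_exists_fun] at this
        obtain ⟨c, hc⟩ := this
        exact ⟨c, hc.symm⟩
      choose co hco using this
      exact ⟨co, fun _ => hco⟩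
  choose co hco using hco
  obtain ⟨c₀, -, hSel⟩ := Finset.exists_lt_card_fiber_of_mul_lt_card_of_maps_to (s := Iᶜ)
    (t := Finset.univ) (f := co) (n := Fintype.card F * (Fintype.card F * (p + 1)))
    (fun _ _ => Finset.mem_univ _) (by
      rw [Finset.card_univ, Finset.card_compl, Fintype.card_fun, Fintype.card_fun,
        Fintype.card_fin, Fintype.card_coe, Fintype.card_fin]
      have h1 : (Fintype.card F ^ I.card) ^ m ≤ (Fintype.card F ^ (2 * β)) ^ m :=
        Nat.pow_le_pow_left (Nat.pow_le_pow_right Fintype.card_pos hIc) _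
      have h2 := Nat.mul_le_mul_right (Fintype.card F * (Fintype.card F * (p + 1))) h1
      omega)
  set Sel := Iᶜ.filter fun i => co i = c₀ with hSeldef
  let γ₀ : Fin m → V := fun j => ∑ l : I, c₀ j l • γ l (jj l)
  have hγ₀ : ∀ i ∈ Sel, γ i = γ₀ := fun i hi => funext fun j => by
    rw [hco i (Finset.mem_compl.1 (Finset.mem_filter.1 hi).1), (Finset.mem_filter.1 hi).2]
  obtain ⟨i₀, hi₀⟩ : Sel.Nonempty := Finset.card_pos.1 (by omega)
  obtain ⟨CZ, -, hCZ, hiZ, hsZ⟩ := (ind_empty v (span F (range γ₀))).extend Z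
  rw [empty_union] at hCZ
  have hy : ∀ a : A, ∃ y : Fin m → F,
      a - ∑ i, f i a • D.u i 0 - ∑ j, y j • γ₀ j ∈ sp F v (CZ ∪ B) := by
    intro a
    have h1 := D.dec (W := sp F v Z ⊔ sp F v B) (fun i => sup_le (hZk i) (hBk i)) (fun _ => 0)
      (x := a) (by rw [sup_assoc, ← sp_union, (hB fun _ => 0).2]; exact mem_top)
    have h2 : sp F v Z ⊔ sp F v B ≤ span F (range γ₀) ⊔ sp F v (CZ ∪ B) := by
      rw [sp_union, ← sup_assoc]; exact sup_le_sup_right hsZ _
    obtain ⟨x, hx, z, hz, he⟩ := mem_sup.1 (h2 h1)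
    obtain ⟨y, rfl⟩ := (mem_span_range_iff_exists_fun F).1 hx
    exact ⟨y, by rw [← he]; simpa using hz⟩
  choose y hy using hy
  have hu : ∀ y : Fin m → F, ∑ j, y j • γ₀ j ∈ sp F v (CZ ∪ B) → y = 0 := by
    intro y hy
    rw [sp_union] at hy
    obtain ⟨x, hx, z, hz, he⟩ := mem_sup.1 hy
    have h1 : ∑ j, y j • γ₀ j ∈ sp F v Z :=
      sum_mem fun j _ => smul_mem _ _ (hγ₀ i₀ hi₀ ▸ hγZ i₀ j)
    have h2 : z = 0 := hZB z (by
      rw [eq_sub_of_add_eq' he]; exact sub_mem h1 (sp_mono v hCZ hx)) hz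
    rw [h2, add_zero] at he
    obtain ⟨c, hc, rfl⟩ := mem_sp.1 hx
    have h3 := hiZ c hc (he ▸ sum_mem fun j _ => smul_mem _ _ (subset_span ⟨j, rfl⟩))
    rw [h3, map_zero] at he
    exact hγi i₀ y (by rw [hγ₀ i₀ hi₀, ← he])
  have hBS' : ∀ i, CZ ∪ B ⊆ D.S i := fun i => union_subset
    (hCZ.trans ((subset_compl_iff_disjoint_left.2 (D.piece i).disj).trans (D.piece i).sub)) (hBS i)
  obtain ⟨i, -, i', -, hii, he⟩ := comb hp hF hk hm Sel y (fun (a : A) i => f i a)
    (fun a i _ => hne a a.2 i) (fun a a' I J h1 h2 h3 h4 h5 => by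
      have key := fun a : A => D.mem_iff (fun i => (hCB i).trans subset_union_right) hBS' hu
        (fun i hi j => hγ₀ i hi ▸ hγC i j) h1 h2 h3 h4 (hy a)
      exact (key a').1 (hA _ _ a.2 _ a'.2 ((key a).2 h5))) ⟨a₀, ha₀⟩ hSel
  have h1 : span F A ≤ LinearMap.ker (f i - f i') := by
    rw [span_le]
    intro a ha
    simpa [sub_eq_zero] using he ⟨a, ha⟩
  have := h1 (hψ i)
  simp [hd, hii.symm] at this

/-- The bound on the dimension. -/
def bnd (q p m : ℕ) : ℕ :=
  q * q + need (q * q) (2 * (q * q) + (q ^ (2 * (q * q))) ^ m * (q * (q * (p + 1))) + 2) + m + 2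

theorem core {p k : ℕ} (hp : p.Prime) (hF : Fintype.card F = p ^ k) (hk : 1 < k) {m : ℕ}
    (hm : m = if p = 2 then k - 1 else (k - 1) * (p - 1) + 1) {v : ι → V} {A : Set V}
    (htop : sp F v univ = ⊤) (hA : Hyp F v A)
    (hc : ∀ a ∈ A, ∀ (Y : Set ι) (j : ℕ), j ≤ m + 1 → j ≤ rk F v Y →
      j ≤ finrank F (sp F v Yᶜ ⊔ span F {a} : Submodule F V) →
      finrank F V + j ≤ rk F v Y + finrank F (sp F v Yᶜ ⊔ span F {a} : Submodule F V)) :
    finrank F (span F A) ≤ bnd (Fintype.card F) p m := by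
  classical
  by_contra hbig
  rw [not_le, bnd] at hbig
  have hm1 : 1 ≤ m := by rw [hm]; split_ifs <;> omega
  have hV := Submodule.finrank_le (span F A)
  obtain ⟨a₀, ha₀⟩ : A.Nonempty := by
    rw [nonempty_iff_ne_empty]
    rintro rfl
    rw [span_empty, finrank_bot] at hbig
    omega
  have hsep : ∀ T, Sep v (⊥ : Submodule F V) T → rk F v T = 0 ∨ rk F v Tᶜ = 0 := by
    intro T hT
    have h1 : rk F v T + rk F v Tᶜ = finrank F V := by
      have h2 := finrank_sup_add_finrank_inf_eq (sp F v T) (sp F v Tᶜ)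
      have h3 : sp F v T ⊓ sp F v Tᶜ = ⊥ :=
        eq_bot_iff.2 fun x hx => hT.mem_of hx.1 (mem_sup_right hx.2)
      rw [h3, ← sp_union, union_compl_self, htop, finrank_bot, finrank_top] at h2
      exact h2.symm
    have key : ∀ Y, rk F v Y + rk F v Yᶜ = finrank F V → 2 ≤ rk F v Y → rk F v Yᶜ = 0 := by
      intro Y h2 h3
      by_contra h4
      by_cases ha : a₀ ∈ sp F v Yᶜ
      · have := hc a₀ ha₀ Y 1 (by omega) (by omega)
        rw [sup_eq_left.2 ((span_singleton_le_iff_mem _ _).2 ha)] at this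
        simp only [rk] at *
        omega
      · have := hc a₀ ha₀ Y 2 (by omega) (by omega)
        rw [finrank_sup_singleton_of_notMem ha] at this
        simp only [rk] at *
        omega
    by_cases h2 : 2 ≤ rk F v T
    · exact Or.inr (key T h1 h2)
    · have := key Tᶜ (by rw [compl_compl]; omega) (by omega)
      rw [compl_compl] at this
      exact Or.inl this
  have hrk0 : ∀ T, rk F v T = 0 → sp F v T = ⊥ := fun T h => finrank_eq_zero.1 h
  have hrkc : ∀ T, rk F v T = 0 → sp F v Tᶜ = ⊤ := fun T h => by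
    rw [← htop, ← union_compl_self T, sp_union, hrk0 T h, bot_sup_eq]
  obtain ⟨b, hb⟩ : ∃ b, v b ≠ 0 := by
    by_contra h
    push Not at h
    have : sp F v univ = ⊥ := eq_bot_iff.2 (sp_le.2 fun i _ => h i)
    have h2 : finrank F V = 0 := by rw [← finrank_top, ← htop, this, finrank_bot]
    omega
  have hbT : ∀ T, b ∈ T → rk F v T ≠ 0 := fun T hT h =>
    hb (by simpa [hrk0 T h] using mem_sp_of_mem (F := F) v hT)
  obtain ⟨d, hd, hd', hu⟩ := exists_min_support (LinearMap.ker (lc v))
    (LinearMap.ker (LinearMap.proj b : (ι → F) →ₗ[F] F)) (by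
      intro hle
      rcases hsep {b} (fun c hc => by
        have h1 : c b = 0 := hle hc
        have : ({b} : Set ι).indicator c = 0 := by
          funext i
          by_cases hi : i = b
          · subst hi; simp [h1]
          · simp [hi]
        rw [this, map_zero]; exact zero_mem _) with h | h
      · exact hbT {b} (mem_singleton b) h
      · have h1 := hrkc _ h
        have h2 := rk_le_ncard (F := F) v (finite_singleton b)
        rw [compl_compl] at h1
        rw [rk, h1, finrank_top, ncard_singleton] at h2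
        omega)
  have hbd : b ∈ Function.support d := hd'
  let s₀ : St F ι := ⟨∅, Function.support d, d⟩
  have h₀ : s₀.Valid v := ⟨by
    simp only [s₀, sp_empty]
    exact ⟨fun i hi => by simpa using hi, fun i hi => hi, hd, ⟨b, hbd⟩,
      fun x hx hm => hu x hm hx⟩, disjoint_empty _⟩
  have hG : Good v A s₀ s₀.Zᶜ := by
    refine ⟨disjoint_compl_left, sep_compl v _, fun T hT hv hs => ?_⟩
    simp only [s₀, sp_empty] at hs
    rcases hsep T hs with h | h
    · exact hv (by rw [hrkc T h]; exact le_top)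
    · exact hbT Tᶜ (fun h' => hT h' (Or.inr hbd)) h
  have hloc := rho_local hA htop h₀ rfl .refl (Z := ∅) (R := univ) (disjoint_empty _)
    (fun c hc => by rwa [indicator_univ]) (empty_subset _) (subset_union_right.trans' (subset_univ _))
    le_rfl
  rw [compl_univ, sp_empty, rho_bot, bot_sup_eq] at hloc
  obtain ⟨s, hs, -, R, S, f, ψ, hpw, -, hpc, hψ, hdual⟩ := exists_out hA htop h₀ rfl
    (2 * (Fintype.card F * Fintype.card F) +
      (Fintype.card F ^ (2 * (Fintype.card F * Fintype.card F))) ^ m *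
      (Fintype.card F * (Fintype.card F * (p + 1))) + 2) s₀ _ _ .refl hG le_rfl
      (by rw [compl_compl]; omega)
  have hS : ∀ i, rk F v (S i) + 1 = finrank F V := by
    intro i
    have h1 := (f i).finrank_range_add_finrank_ker
    have h2 : LinearMap.range (f i) = ⊤ := by
      rw [LinearMap.range_eq_top]
      exact fun t => ⟨t • ψ i, by simp [hdual]⟩
    rw [h2, finrank_top, finrank_self, (hpc i).ker] at h1
    rw [rk]; omega
  have hD : ∀ i, m + 1 ≤ rk F v (S i)ᶜ := by
    intro i
    have h1 := hc a₀ ha₀ (S i) (finrank F (sp F v (S i)ᶜ ⊔ span F {a₀} : Submodule F V))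
    have h2 := finrank_sup_singleton_le (sp F v (S i)ᶜ) a₀
    have h3 := hS i
    simp only [rk] at *
    omega
  have hfr : ∀ i, ∃ (C : Set ι) (g : Fin (m + 1) → ι), C ⊆ R i ∩ S i ∧ Ind v (sp F v (R i)ᶜ) C ∧
      sp F v (R i)ᶜ ⊔ sp F v C = sp F v (S i) ∧ Function.Injective g ∧ (∀ j, g j ∉ S i) ∧
      Ind v (sp F v C) (range g) := by
    intro i
    refine exists_frame (hpc i).sub fun Y h1 h2 => ?_
    obtain ⟨l, hl⟩ := exists_ne i
    have h3 : (S l)ᶜ ⊆ Yᶜ := (compl_subset_comm.1 (hpc l).sub).trans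
      (subset_compl_iff_disjoint_right.2 ((hpw hl).mono_right h2))
    have h4 := (hD l).trans (rk_mono v h3)
    have h5 := finrank_sup_singleton_le (sp F v Yᶜ) a₀
    have h6 : rk F v Yᶜ ≤ finrank F (sp F v Yᶜ ⊔ span F {a₀} : Submodule F V) :=
      Submodule.finrank_mono le_sup_left
    have h7 := hc a₀ ha₀ Y (m + 1) le_rfl ((hD i).trans (rk_mono v h1)) (h4.trans h6)
    have h8 := hS i
    simp only [rk] at *
    omega
  choose C g h1 h2 h3 h4 h5 h6 using hfr
  exact Frames.false hp hF hk hm ⟨R, S, C, g, hpw, hpc, h1, h2, h3, h4, h5, h6⟩ hA htop ha₀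
    (fun O hO hO' => rho_chain hA h₀ rfl hs hO hO') hψ hdual (by omega)

end Pool.Agent.MP_d99b12_co.H30
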