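import Pool.Agent.MP_d99b12_co.H30.Core
import Pool.Agent.MP_d99b12_co.H30.Binary

/-!
Families of configurations with the same rank function that agree after deleting or contracting
one element.
-/

namespace Pool.Agent.MP_d99b12_co.H30

open Module Submodule Set

variable {F V ι : Type*} [Field F] [AddCommGroup V] [Module F V] [Fintype ι]
  [FiniteDimensional F V]

omit [Fintype ι] in
lemma mem_iff_rk {v : ι → V} {S : Set ι} {b : ι} :
    v b ∈ sp F v S ↔ rk F v (insert b S) = rk F v S := by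
  refine ⟨rk_insert_of_mem, fun h => ?_⟩
  by_contra hn
  rw [rk_insert_of_notMem hn] at h
  omega

lemma Ind.rk_eq {v : ι → V} {X : Set ι} (h : Ind v (⊥ : Submodule F V) X) : rk F v X = X.ncard := by
  classical
  have hX := X.toFinite
  induction X, hX using Set.Finite.induction_on with
  | empty => simp [rk, sp_empty]
  | @insert t X ht hX ih =>
    rw [ncard_insert_of_notMem ht hX, ← ih (h.mono le_rfl (subset_insert _ _))]
    refine rk_insert_of_notMem fun hm => ?_
    obtain ⟨c, hc, he⟩ := mem_sp.1 hm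
    have := h (c - Pi.single t 1) ((hc.mono (subset_insert _ _)).sub (on_single (mem_insert _ _) 1))
      (by rw [map_sub, he, lc_single, one_smul, sub_self]; exact zero_mem _)
    simpa [hc t ht] using congrFun this t

lemma rank_nullity {U W : Type*} [AddCommGroup U] [Module F U] [AddCommGroup W] [Module F W]
    [FiniteDimensional F U] (L : U →ₗ[F] W) (N : Submodule F U) :
    finrank F (N.map L) + finrank F (N ⊓ LinearMap.ker L : Submodule F U) = finrank F N := by
  have h := (L.domRestrict N).finrank_range_add_finrank_ker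
  rw [LinearMap.range_domRestrict, LinearMap.ker_domRestrict,
    ← finrank_map_subtype_eq, map_comap_subtype] at h
  exact h

variable (F) in
/-- Coefficient vectors supported in `X`. -/
def onS (X : Set ι) : Submodule F (ι → F) where
  carrier := {c | On X c}
  add_mem' := fun ha hb => ha.add hb
  zero_mem' := on_zero X
  smul_mem' := fun s _ h => h.smul s

lemma finrank_onS (X : Set ι) : finrank F (onS F X) = X.ncard := by
  classical
  have h1 : ∀ z : ι → F, lc (fun b => (Pi.single b 1 : ι → F)) z = z := fun z => by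
    funext i
    simp [lc_apply, Finset.sum_apply, Pi.single_apply]
  have h2 : onS F X = sp F (fun b => (Pi.single b 1 : ι → F)) X := by
    ext z
    rw [mem_sp]
    exact ⟨fun h => ⟨z, h, h1 z⟩, fun ⟨c, hc, he⟩ => by rw [← he, h1]; exact hc⟩
  rw [h2]
  exact Ind.rk_eq fun c _ hm => by rwa [h1] at hm

lemma finrank_rel (w : ι → V) (X : Set ι) (W : Submodule F V) :
    finrank F (onS F X ⊓ W.comap (lc w) : Submodule F (ι → F)) +
      finrank F (sp F w X ⊔ W : Submodule F V) = X.ncard + finrank F W := by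
  have h1 := rank_nullity (lc w) (onS F X)
  have h2 := rank_nullity (lc w) (onS F X ⊓ W.comap (lc w))
  have h3 : (onS F X).map (lc w) = sp F w X := by
    ext x; rw [mem_sp]; rfl
  have h4 : (onS F X ⊓ W.comap (lc w)).map (lc w) = sp F w X ⊓ W := by
    rw [← map_inf_eq_map_inf_comap, h3]
  have h5 : onS F X ⊓ W.comap (lc w) ⊓ LinearMap.ker (lc w) = onS F X ⊓ LinearMap.ker (lc w) := by
    rw [inf_assoc, inf_eq_right.2 (LinearMap.ker_le_comap _)]
  rw [h3, finrank_onS] at h1
  rw [h4, h5] at h2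
  have h6 := finrank_sup_add_finrank_inf_eq (sp F w X) W
  omega

variable [Fintype F]

lemma core_fam {p k : ℕ} (hp : p.Prime) (hF : Fintype.card F = p ^ k) (hk : 1 < k) {m : ℕ}
    (hm : m = if p = 2 then k - 1 else (k - 1) * (p - 1) + 1) {v : ι → V} {κ : Type*} [Fintype κ]
    {a : κ → V} (htop : sp F v univ = ⊤) (hA : ∀ S i j, a i ∈ sp F v S → a j ∈ sp F v S)
    (hc : ∀ i (Y : Set ι) (j : ℕ), j ≤ m + 1 → j ≤ rk F v Y →
      j ≤ finrank F (sp F v Yᶜ ⊔ span F {a i} : Submodule F V) →
      finrank F V + j ≤ rk F v Y + finrank F (sp F v Yᶜ ⊔ span F {a i} : Submodule F V))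
    (hκ : Fintype.card F ^ bnd (Fintype.card F) p m < Fintype.card κ) :
    ∃ i j, i ≠ j ∧ a i = a j := by
  have h := core hp hF hk hm htop (A := range a)
    (by rintro S _ ⟨i, rfl⟩ _ ⟨j, rfl⟩; exact hA S i j) (by rintro _ ⟨i, rfl⟩; exact hc i)
  have : Finite (span F (range a)) := Module.finite_of_finite F
  have := Fintype.ofFinite (span F (range a))
  obtain ⟨i, j, hij, he⟩ := Fintype.exists_ne_map_eq_of_card_lt
    (fun i => (⟨a i, subset_span ⟨i, rfl⟩⟩ : span F (range a))) (by
      rw [Module.card_eq_pow_finrank (K := F)]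
      exact (Nat.pow_le_pow_right Fintype.card_pos h).trans_lt hκ)
  exact ⟨i, j, hij, congrArg Subtype.val he⟩

/-- Configurations with a common, highly connected rank function on `E`. -/
structure Fam {κ : Type*} (F : Type*) [Field F] [Module F V] (x : κ → ι → V) (E : Set ι) (m : ℕ) :
    Prop where
  rk_eq : ∀ i j, ∀ S ⊆ E, rk F (x i) S = rk F (x j) S
  conn : ∀ i (j : ℕ), j ≤ m + 1 → ∀ X ⊆ E, j ≤ X.ncard → j ≤ (E \ X).ncard →
    rk F (x i) E + j ≤ rk F (x i) X + rk F (x i) (E \ X)

omit [Fintype F] [Fintype ι] in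
lemma Fam.mem {κ : Type*} {x : κ → ι → V} {E : Set ι} {m : ℕ} (h : Fam F x E m) (i j : κ)
    {S : Set ι} (hS : S ⊆ E) {b : ι} (hb : b ∈ E) (hm : x i b ∈ sp F (x i) S) :
    x j b ∈ sp F (x j) S := by
  rw [mem_iff_rk] at hm ⊢
  rw [h.rk_eq j i _ (insert_subset hb hS), hm, h.rk_eq j i _ hS]

omit [Fintype F] [Fintype ι] [FiniteDimensional F V] in
lemma on_erase {E : Set ι} {z : ι → F} (hz : On E z) (e : ι) :
    On (E \ {e}) (({e} : Set ι)ᶜ.indicator z) := hz.indicator.mono fun _ hi => ⟨hi.2, hi.1⟩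

omit [Fintype F] [Fintype ι] [FiniteDimensional F V] [Field F] in
lemma diff_inter_eq {E Y : Set ι} {e : ι} (he : e ∈ E) :
    E \ (Y ∩ (E \ {e})) = insert e (Yᶜ ∩ (E \ {e})) := by
  ext i
  simp only [mem_sdiff, mem_inter_iff, mem_singleton_iff, mem_insert_iff, mem_compl_iff]
  by_cases hi : i = e
  · subst hi; tauto
  · tauto

theorem del_core {p k : ℕ} (hp : p.Prime) (hF : Fintype.card F = p ^ k) (hk : 1 < k) {m : ℕ}
    (hm : m = if p = 2 then k - 1 else (k - 1) * (p - 1) + 1) {κ : Type*} [Fintype κ]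
    {x : κ → ι → V} {E : Set ι} (h : Fam F x E m) {e : ι} (he : e ∈ E)
    (hag : ∀ i j, ∀ b ∈ E \ {e}, x i b = x j b)
    (hκ : Fintype.card F ^ bnd (Fintype.card F) p m < Fintype.card κ) :
    ∃ i j, i ≠ j ∧ ∀ z : ι → F, On E z → (lc (x i) z = 0 ↔ lc (x j) z = 0) := by
  obtain ⟨i₀, i₁, h01⟩ := Fintype.exists_pair_of_one_lt_card
    ((Nat.one_le_pow _ _ Fintype.card_pos).trans_lt hκ)
  have hsp : ∀ i, ∀ S ⊆ E \ {e}, sp F (x i) S = sp F (x i₀) S := fun i S hS =>
    sp_congr fun b hb => hag i i₀ b (hS hb)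
  have hlc : ∀ i, ∀ z : ι → F, On E z →
      lc (x i) z = lc (x i₀) (({e} : Set ι)ᶜ.indicator z) + z e • x i e := fun i z hz => by
    rw [lc_split (x i) z e, lc_congr (hag i i₀) (on_erase hz e)]
  by_cases hT : x i₀ e ∈ sp F (x i₀) (E \ {e})
  · set T := sp F (x i₀) (E \ {e}) with hTdef
    have hu : ∀ b, res (E \ {e}) (x i₀) b ∈ T := fun b => by
      have := mem_sp_of_mem (F := F) (res (E \ {e}) (x i₀)) (mem_univ b)
      rwa [sp_res, univ_inter] at this
    have ha : ∀ i, x i e ∈ T := fun i =>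
      (hsp i _ subset_rfl).le (h.mem i₀ i sdiff_subset he hT)
    let v : ι → T := fun b => ⟨_, hu b⟩
    have hmap : ∀ i S, (sp F v S).map T.subtype = sp F (x i) (S ∩ (E \ {e})) := fun i S => by
      rw [hsp i _ inter_subset_right, ← sp_res, sp, map_span, ← image_comp]; rfl
    have hmem : ∀ i S (y : T), y ∈ sp F v S ↔ (y : V) ∈ sp F (x i) (S ∩ (E \ {e})) := fun i S y => by
      rw [← hmap i S]
      refine ⟨fun hy => ⟨y, hy, rfl⟩, ?_⟩
      rintro ⟨y', hy', he⟩
      obtain rfl : y' = y := Subtype.ext he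
      exact hy'
    obtain ⟨i, j, hij, hx⟩ := core_fam hp hF hk hm (v := v) (a := fun i => ⟨x i e, ha i⟩)
      (eq_top_iff.2 fun y _ => (hmem i₀ _ y).2 (by rw [univ_inter]; exact y.2))
      (fun S i j hm => (hmem j S _).2 (h.mem i j (inter_subset_right.trans sdiff_subset) he
        ((hmem i S _).1 hm))) (fun i Y j h1 h2 h3 => by
        have e1 : rk F v Y = rk F (x i) (Y ∩ (E \ {e})) := by
          rw [rk, ← finrank_map_subtype_eq, hmap i, rk]
        have e2 : finrank F (sp F v Yᶜ ⊔ span F {(⟨x i e, ha i⟩ : T)} : Submodule F T) =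
            rk F (x i) (E \ (Y ∩ (E \ {e}))) := by
          rw [← finrank_map_subtype_eq, Submodule.map_sup, hmap i, map_span, image_singleton,
            diff_inter_eq he, rk, sp_insert]
          rfl
        have e3 : finrank F T = rk F (x i) E := by
          have : rk F (x i) (insert e (E \ {e})) = rk F (x i) (E \ {e}) :=
            rk_insert_of_mem (hsp i _ subset_rfl ▸ ha i)
          rw [insert_sdiff_singleton, insert_eq_of_mem he] at this
          rw [this, rk, hsp i _ subset_rfl]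
        rw [e1] at h2
        rw [e2] at h3
        rw [e1, e2, e3]
        exact h.conn i j h1 _ (inter_subset_right.trans sdiff_subset)
          (h2.trans (rk_le_ncard _ (toFinite _))) (h3.trans (rk_le_ncard _ (toFinite _)))) hκ
    have hx : x i e = x j e := congrArg Subtype.val hx
    exact ⟨i, j, hij, fun z hz => by rw [hlc i z hz, hlc j z hz, hx]⟩
  · refine ⟨i₀, i₁, h01, fun z hz => ?_⟩
    have key : ∀ i, lc (x i) z = 0 ↔ lc (x i₀) (({e} : Set ι)ᶜ.indicator z) = 0 ∧ z e = 0 := by
      intro i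
      rw [hlc i z hz]
      refine ⟨fun h1 => ?_, fun h => by simp [h.1, h.2]⟩
      have h0 : z e = 0 := by
        by_contra h0
        refine hT (h.mem i i₀ sdiff_subset he ((smul_mem_iff _ h0).1 ?_))
        rw [eq_neg_of_add_eq_zero_right h1, hsp i _ subset_rfl]
        exact neg_mem ((on_erase hz e).lc_mem _)
      exact ⟨by simpa [h0] using h1, h0⟩
    rw [key, key]

theorem con_core {p k : ℕ} (hp : p.Prime) (hF : Fintype.card F = p ^ k) (hk : 1 < k) {m : ℕ}
    (hm : m = if p = 2 then k - 1 else (k - 1) * (p - 1) + 1) {κ : Type*} [Fintype κ]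
    {x : κ → ι → V} {E : Set ι} (h : Fam F x E m) {e : ι} (he : e ∈ E)
    (hag : ∀ i j, ∀ z : ι → F, On (E \ {e}) z →
      lc (x i) z ∈ span F {x i e} → lc (x j) z ∈ span F {x j e})
    (hκ : Fintype.card F ^ bnd (Fintype.card F) p m < Fintype.card κ) :
    ∃ i j, i ≠ j ∧ ∀ z : ι → F, On E z → (lc (x i) z = 0 ↔ lc (x j) z = 0) := by
  obtain ⟨i₀, i₁, h01⟩ := Fintype.exists_pair_of_one_lt_card
    ((Nat.one_le_pow _ _ Fintype.card_pos).trans_lt hκ)
  by_cases h0 : x i₀ e = 0
  · have hz : ∀ i, x i e = 0 := fun i => by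
      have := h.mem i₀ i (empty_subset _) he (h0 ▸ zero_mem _)
      rwa [sp_empty, mem_bot] at this
    refine ⟨i₀, i₁, h01, fun z hz' => ?_⟩
    have := fun i j => hag i j _ (on_erase hz' e)
    simp only [hz, span_zero_singleton, mem_bot] at this
    rw [lc_split (x i₀) z e, lc_split (x i₁) z e, hz, hz, smul_zero, add_zero, add_zero]
    exact ⟨this _ _, this _ _⟩
  have hne : ∀ i, x i e ≠ 0 := fun i hi => h0 (by
    have := h.mem i i₀ (empty_subset _) he (hi ▸ zero_mem _)
    rwa [sp_empty, mem_bot] at this)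
  set Z : Submodule F (ι → F) := onS F (E \ {e}) ⊓ (span F {x i₀ e}).comap (lc (x i₀)) with hZdef
  have hZ : ∀ i z, z ∈ Z ↔ On (E \ {e}) z ∧ lc (x i) z ∈ span F {x i e} := fun i z =>
    ⟨fun hz => ⟨hz.1, hag i₀ i z hz.1 hz.2⟩, fun hz => ⟨hz.1, hag i i₀ z hz.1 hz.2⟩⟩
  have hg : ∀ i, ∃ g : V →ₗ[F] F, g (x i e) = 1 := fun i => Projective.exists_dual_eq_one F (hne i)
  choose g hg using hg
  let y : ι → Dual F Z := fun b => (LinearMap.proj b : (ι → F) →ₗ[F] F) ∘ₗ Z.subtype
  let a : κ → Dual F Z := fun i => g i ∘ₗ lc (x i) ∘ₗ Z.subtype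
  have ha : ∀ i (z : Z), lc (x i) (z : ι → F) = a i z • x i e := fun i z => by
    obtain ⟨s, hs⟩ := mem_span_singleton.1 ((hZ i z).1 z.2).2
    simp [a, ← hs, hg]
  have hco : ∀ S (z : Z), z ∈ (sp F y S).dualCoannihilator ↔ ∀ b ∈ S, (z : ι → F) b = 0 := by
    intro S z
    rw [← SetLike.mem_coe, sp, coe_dualCoannihilator_span]
    simp [y]
  have hmem : ∀ S (f : Dual F Z), f ∈ sp F y S ↔ ∀ z : Z, (∀ b ∈ S, (z : ι → F) b = 0) → f z = 0 := by
    intro S f
    rw [← Subspace.dualCoannihilator_dualAnnihilator_eq (W := sp F y S), mem_dualAnnihilator]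
    simp only [hco]
  have hA : ∀ S i, a i ∈ sp F y S ↔ x i e ∉ sp F (x i) (Sᶜ ∩ (E \ {e})) := by
    intro S i
    rw [hmem]
    constructor
    · intro h1 h2
      obtain ⟨c, hc, hce⟩ := mem_sp.1 h2
      have hcZ : c ∈ Z := (hZ i c).2 ⟨hc.mono inter_subset_right, hce ▸ mem_span_singleton_self _⟩
      have h3 := ha i ⟨c, hcZ⟩
      rw [h1 ⟨c, hcZ⟩ fun b hb => hc b fun h' => h'.1 hb, zero_smul] at h3
      exact hne i (hce.symm.trans h3)
    · intro h1 z hz
      by_contra h2
      refine h1 ((smul_mem_iff _ h2).1 ?_)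
      rw [← ha]
      refine On.lc_mem _ fun b hb => ?_
      by_cases hbS : b ∈ S
      · exact hz b hbS
      · exact z.2.1 b fun h' => hb ⟨hbS, h'⟩
  obtain ⟨i, j, hij, hx⟩ := core_fam hp hF hk hm (v := y) (a := a)
    (eq_top_iff.2 fun f _ => (hmem _ f).2 fun z hz => by
      rw [show z = 0 from Subtype.ext (funext fun b => hz b (mem_univ b)), map_zero])
    (fun S i j hm => (hA S j).2 fun h' => (hA S i).1 hm
      (h.mem j i (inter_subset_right.trans sdiff_subset) he h')) (fun i Y j h1 h2 h3 => by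
      have hs1 : finrank F (span F {x i e}) = 1 := finrank_span_singleton (hne i)
      have e0 := finrank_rel (x i) (E \ {e}) (span F {x i e})
      have e0' : onS F (E \ {e}) ⊓ (span F {x i e}).comap (lc (x i)) = Z := by
        ext z; exact (hZ i z).symm
      rw [e0', ← sp_insert, insert_sdiff_singleton, insert_eq_of_mem he, hs1] at e0
      have e1 := Subspace.finrank_add_finrank_dualCoannihilator_eq (sp F y Y)
      have e1' : (sp F y Y).dualCoannihilator.map Z.subtype =
          onS F (Yᶜ ∩ (E \ {e})) ⊓ (span F {x i e}).comap (lc (x i)) := by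
        ext z
        constructor
        · rintro ⟨z, hz, rfl⟩
          refine ⟨fun b hb => ?_, ((hZ i z).1 z.2).2⟩
          by_cases hbY : b ∈ Y
          · exact (hco Y z).1 hz b hbY
          · exact z.2.1 b fun h' => hb ⟨hbY, h'⟩
        · rintro ⟨hz1, hz2⟩
          exact ⟨⟨z, (hZ i z).2 ⟨On.mono hz1 inter_subset_right, hz2⟩⟩,
            (hco Y _).2 fun b hb => hz1 b fun h' => h'.1 hb, rfl⟩
      have e1'' := finrank_rel (x i) (Yᶜ ∩ (E \ {e})) (span F {x i e})
      rw [← e1', finrank_map_subtype_eq, ← sp_insert, ← diff_inter_eq he, hs1] at e1''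
      have e2 := Subspace.finrank_add_finrank_dualCoannihilator_eq (sp F y Yᶜ ⊔ span F {a i})
      have e2' : (sp F y Yᶜ ⊔ span F {a i}).dualCoannihilator.map Z.subtype =
          onS F (Y ∩ (E \ {e})) ⊓ (⊥ : Submodule F V).comap (lc (x i)) := by
        ext z
        rw [dualCoannihilator_sup_eq]
        constructor
        · rintro ⟨z, ⟨hz, hz'⟩, rfl⟩
          refine ⟨fun b hb => ?_, ?_⟩
          · by_cases hbY : b ∈ Y
            · exact z.2.1 b fun h' => hb ⟨hbY, h'⟩
            · exact (hco _ z).1 hz b hbY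
          · have : a i z = 0 := (mem_dualCoannihilator _).1 hz' _ (mem_span_singleton_self _)
            change lc (x i) (z : ι → F) = 0
            rw [ha, this, zero_smul]
        · rintro ⟨hz1, hz2⟩
          have hz2 : lc (x i) z = 0 := hz2
          refine ⟨⟨z, (hZ i z).2 ⟨On.mono hz1 inter_subset_right, hz2 ▸ zero_mem _⟩⟩,
            ⟨(hco _ _).2 fun b hb => hz1 b fun h' => hb h'.1, ?_⟩, rfl⟩
          rw [SetLike.mem_coe, ← SetLike.mem_coe, coe_dualCoannihilator_span]
          simp [a, hz2]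
      have e2'' := finrank_rel (x i) (Y ∩ (E \ {e})) (⊥ : Submodule F V)
      rw [← e2', finrank_map_subtype_eq, sup_bot_eq, finrank_bot] at e2''
      have hy0 : ∀ S, rk F y S ≤ (S ∩ (E \ {e})).ncard := fun S => by
        refine le_trans (Submodule.finrank_mono (sp_le.2 fun b hb => ?_))
          (rk_le_ncard (F := F) y (toFinite _))
        by_cases hbE : b ∈ E \ {e}
        · exact mem_sp_of_mem y ⟨hb, hbE⟩
        · rw [show y b = 0 from LinearMap.ext fun z => z.2.1 b hbE]; exact zero_mem _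
      have c1 : (E \ (Y ∩ (E \ {e}))).ncard = (Yᶜ ∩ (E \ {e})).ncard + 1 := by
        rw [diff_inter_eq he, ncard_insert_of_notMem (fun h' => h'.2.2 rfl) (toFinite _)]
      have c2 : (Y ∩ (E \ {e})).ncard + (Yᶜ ∩ (E \ {e})).ncard = (E \ {e}).ncard := by
        rw [← ncard_union_eq (disjoint_compl_right.mono inter_subset_left inter_subset_left),
          ← union_inter_distrib_right, union_compl_self, univ_inter]
      have c3 := finrank_sup_singleton_le (sp F y Yᶜ) (a i)
      have c4 := hy0 Y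
      have c5 := hy0 Yᶜ
      have c6 := h.conn i j h1 _ (inter_subset_right.trans sdiff_subset) (h2.trans c4)
        (by simp only [rk] at *; omega)
      rw [Subspace.dual_finrank_eq]
      simp only [rk] at *
      omega) hκ
  refine ⟨i, j, hij, fun z hz => ?_⟩
  have key : ∀ i j, a i = a j → lc (x i) z = 0 → lc (x j) z = 0 := by
    intro i j hx h1
    rw [lc_split _ z e] at h1 ⊢
    have h2 : ({e} : Set ι)ᶜ.indicator z ∈ Z := (hZ i _).2 ⟨on_erase hz e, by
      rw [eq_neg_of_add_eq_zero_left h1]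
      exact neg_mem (smul_mem _ _ (mem_span_singleton_self _))⟩
    rw [ha i ⟨_, h2⟩, ← add_smul, smul_eq_zero_iff_left (hne i)] at h1
    rw [ha j ⟨_, h2⟩, ← add_smul, ← hx, h1, zero_smul]
  exact ⟨key i j hx, key j i hx.symm⟩

end Pool.Agent.MP_d99b12_co.H30
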