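import Pool.Agent.MP_d99b12_co.H30.Basic

/-!
Ranks of subfamilies and a form of the linking theorem of Tutte.
-/

namespace Pool.Agent.MP_d99b12_co.H30

open Module Submodule Set

variable {F V ι : Type*} [Field F] [AddCommGroup V] [Module F V] [FiniteDimensional F V]

variable (F) in
/-- The rank of a subfamily. -/
noncomputable def rk (v : ι → V) (S : Set ι) : ℕ := finrank F (sp F v S)

lemma rk_mono (v : ι → V) {S T : Set ι} (h : S ⊆ T) : rk F v S ≤ rk F v T :=
  Submodule.finrank_mono (sp_mono v h)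

lemma rk_submod (v : ι → V) {X Y U I : Set ι} (hU : U ⊆ X ∪ Y) (hX : I ⊆ X) (hY : I ⊆ Y) :
    rk F v U + rk F v I ≤ rk F v X + rk F v Y := by
  have h1 := finrank_sup_add_finrank_inf_eq (sp F v X) (sp F v Y)
  have h2 : rk F v I ≤ finrank F (sp F v X ⊓ sp F v Y : Submodule F V) :=
    Submodule.finrank_mono (le_inf (sp_mono v hX) (sp_mono v hY))
  have h3 := rk_mono (F := F) v hU
  rw [← sp_union] at h1
  simp only [rk] at *
  omega

omit [FiniteDimensional F V] in
lemma sp_insert (v : ι → V) (t : ι) (X : Set ι) :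
    sp F v (insert t X) = sp F v X ⊔ span F {v t} := by
  rw [sp, image_insert_eq, span_insert, sup_comm, sp]

lemma finrank_sup_singleton_le (W : Submodule F V) (x : V) :
    finrank F (W ⊔ span F {x} : Submodule F V) ≤ finrank F W + 1 := by
  have h1 := finrank_sup_add_finrank_inf_eq W (span F {x})
  have h2 : finrank F (span F ({x} : Set V)) ≤ 1 := by
    simpa using finrank_span_le_card (R := F) ({x} : Set V)
  omega

lemma finrank_sup_singleton_of_notMem {W : Submodule F V} {x : V} (h : x ∉ W) :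
    finrank F (W ⊔ span F {x} : Submodule F V) = finrank F W + 1 := by
  have h1 := finrank_sup_singleton_le W x
  have h2 : finrank F W < finrank F (W ⊔ span F {x} : Submodule F V) :=
    finrank_lt_finrank_of_lt (lt_of_le_of_ne le_sup_left fun he =>
      h (he ▸ mem_sup_right (mem_span_singleton_self x)))
  omega

omit [FiniteDimensional F V] in
lemma rk_insert_of_mem {v : ι → V} {t : ι} {X : Set ι} (h : v t ∈ sp F v X) :
    rk F v (insert t X) = rk F v X := by
  rw [rk, sp_insert, sup_eq_left.2 ((span_singleton_le_iff_mem _ _).2 h), rk]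

lemma rk_insert_of_notMem {v : ι → V} {t : ι} {X : Set ι} (h : v t ∉ sp F v X) :
    rk F v (insert t X) = rk F v X + 1 := by
  rw [rk, sp_insert, finrank_sup_singleton_of_notMem h, rk]

lemma rk_le_ncard (v : ι → V) {X : Set ι} (hX : X.Finite) : rk F v X ≤ X.ncard := by
  induction X, hX using Set.Finite.induction_on with
  | empty => simp [rk, sp_empty]
  | @insert t X ht hX ih =>
    rw [ncard_insert_of_notMem ht hX, rk, sp_insert]
    exact (finrank_sup_singleton_le _ _).trans (Nat.succ_le_succ ih)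

variable [Fintype ι]

lemma link {v : ι → V} {D O : Set ι} {h m : ℕ} (T : Set ι) : ∀ C : Set ι,
    (∀ Y ⊆ T, h + 1 + m + rk F v C ≤ rk F v (C ∪ D ∪ Y) + rk F v (C ∪ O ∪ (T \ Y))) →
    rk F v (C ∪ O ∪ T) = h → Ind v (sp F v O) C →
    ∃ C', C' ⊆ C ∪ T ∧ Ind v (sp F v O) C' ∧ rk F v (C' ∪ O) = h ∧
      m + 1 + rk F v C' ≤ rk F v (C' ∪ D) := by
  have hT := T.toFinite
  induction T, hT using Set.Finite.induction_on with
  | empty =>
    intro C h1 h2 h3
    have := h1 ∅ subset_rfl
    simp only [union_empty, sdiff_self] at this h2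
    exact ⟨C, subset_union_left, h3, h2, by omega⟩
  | @insert t T ht _ ih =>
    intro C h1 h2 h3
    have e1 : ∀ Y ⊆ T, C ∪ O ∪ (insert t T \ Y) = insert t (C ∪ O ∪ (T \ Y)) := by
      intro Y hY
      have : t ∉ Y := fun h => ht (hY h)
      ext i
      simp only [mem_union, mem_sdiff, mem_insert_iff]
      by_cases hi : i = t
      · subst hi; tauto
      · tauto
    have e2 : ∀ Y, C ∪ O ∪ (insert t T \ insert t Y) = C ∪ O ∪ (T \ Y) := by
      intro Y
      ext i
      simp only [mem_union, mem_sdiff, mem_insert_iff]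
      by_cases hi : i = t
      · subst hi; tauto
      · tauto
    have del : (∀ Y ⊆ T, h + 1 + m + rk F v C ≤ rk F v (C ∪ D ∪ Y) + rk F v (C ∪ O ∪ (T \ Y))) →
        v t ∈ sp F v (C ∪ O ∪ T) → ∃ C', C' ⊆ C ∪ insert t T ∧ Ind v (sp F v O) C' ∧
          rk F v (C' ∪ O) = h ∧ m + 1 + rk F v C' ≤ rk F v (C' ∪ D) := by
      intro h4 h5
      obtain ⟨C', h6, h7⟩ := ih C h4 (by rw [← rk_insert_of_mem h5, ← h2, union_insert]) h3
      exact ⟨C', h6.trans (union_subset_union_right _ (subset_insert _ _)), h7⟩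
    by_cases hA : v t ∈ sp F v (C ∪ O)
    · refine del (fun Y hY => ?_) (sp_mono v subset_union_left hA)
      have := h1 Y (hY.trans (subset_insert _ _))
      rwa [e1 Y hY, rk_insert_of_mem (sp_mono v subset_union_left hA)] at this
    have hC : rk F v (insert t C) = rk F v C + 1 :=
      rk_insert_of_notMem fun h => hA (sp_mono v subset_union_left h)
    by_cases hB : ∀ Y ⊆ T, h + 1 + m + rk F v (insert t C) ≤
        rk F v (insert t C ∪ D ∪ Y) + rk F v (insert t C ∪ O ∪ (T \ Y))
    · obtain ⟨C', h6, h7⟩ := ih (insert t C) hB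
        (by rw [← h2, union_insert, insert_union, insert_union])
        (h3.insert (by rwa [← sp_union, union_comm]))
      exact ⟨C', h6.trans (by rw [insert_union, union_insert]), h7⟩
    push Not at hB
    obtain ⟨Y₁, hY₁, hlt⟩ := hB
    rw [hC, insert_union, insert_union, insert_union, insert_union] at hlt
    have h4 := h1 (insert t Y₁) (insert_subset_insert hY₁)
    rw [e2, union_insert] at h4
    have h5 : v t ∈ sp F v (C ∪ O ∪ (T \ Y₁)) := by
      by_contra hn
      rw [rk_insert_of_notMem hn] at hlt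
      omega
    refine del (fun Y₂ hY₂ => ?_) (sp_mono v (union_subset_union_right _ sdiff_subset) h5)
    have h6 := h1 (insert t (Y₁ ∪ Y₂)) (insert_subset_insert (union_subset hY₁ hY₂))
    have h7 := h1 (Y₁ ∩ Y₂) ((inter_subset_left.trans hY₁).trans (subset_insert _ _))
    rw [e2] at h6
    rw [e1 _ (inter_subset_left.trans hY₁)] at h7
    have h8 := rk_submod (F := F) v (X := insert t (C ∪ D ∪ Y₁)) (Y := C ∪ D ∪ Y₂)
      (U := C ∪ D ∪ insert t (Y₁ ∪ Y₂)) (I := C ∪ D ∪ (Y₁ ∩ Y₂))
      (by intro i; simp only [mem_union, mem_insert_iff]; tauto)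
      (by intro i; simp only [mem_union, mem_insert_iff, mem_inter_iff]; tauto)
      (by intro i; simp only [mem_union, mem_inter_iff]; tauto)
    have h9 := rk_submod (F := F) v (X := insert t (C ∪ O ∪ (T \ Y₁))) (Y := C ∪ O ∪ (T \ Y₂))
      (U := insert t (C ∪ O ∪ (T \ (Y₁ ∩ Y₂)))) (I := C ∪ O ∪ (T \ (Y₁ ∪ Y₂)))
      (by intro i; simp only [mem_union, mem_insert_iff, mem_sdiff, mem_inter_iff]; tauto)
      (by intro i; simp only [mem_union, mem_insert_iff, mem_sdiff]; tauto)
      (by intro i; simp only [mem_union, mem_sdiff]; tauto)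
    omega

/-- A frame of `m + 1` elements of the cocircuit `Sᶜ`, independent modulo a linking set. -/
lemma exists_frame {v : ι → V} {R S : Set ι} (hRS : Rᶜ ⊆ S) {m : ℕ}
    (hconn : ∀ Y, Sᶜ ⊆ Y → Y ⊆ R → rk F v S + 1 + m ≤ rk F v Y + rk F v Yᶜ) :
    ∃ (C : Set ι) (g : Fin (m + 1) → ι), C ⊆ R ∩ S ∧ Ind v (sp F v Rᶜ) C ∧
      sp F v Rᶜ ⊔ sp F v C = sp F v S ∧ Function.Injective g ∧ (∀ j, g j ∉ S) ∧
      Ind v (sp F v C) (range g) := by
  have hS : ∅ ∪ Rᶜ ∪ (R ∩ S) = S := by
    ext i
    simp only [empty_union, mem_union, mem_compl_iff, mem_inter_iff]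
    have := @hRS i
    simp only [mem_compl_iff] at this
    tauto
  obtain ⟨C, hC, hi, hr, hD⟩ := link (F := F) (v := v) (D := Sᶜ) (O := Rᶜ) (h := rk F v S) (m := m)
    (R ∩ S) ∅ (fun Y hY => by
      have h1 := hconn (Sᶜ ∪ Y) subset_union_left
        (union_subset (compl_subset_comm.1 hRS) (hY.trans inter_subset_left))
      have h2 : (Sᶜ ∪ Y)ᶜ = ∅ ∪ Rᶜ ∪ ((R ∩ S) \ Y) := by
        ext i
        have h3 := @hRS i
        have h4 := @hY i
        simp only [empty_union, mem_union, mem_compl_iff, mem_inter_iff, mem_sdiff] at *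
        tauto
      have h3 : rk F v ∅ = 0 := by simp [rk, sp_empty]
      rw [h2] at h1
      rw [empty_union Sᶜ]
      omega) (by rw [hS]) (ind_empty v _)
  rw [empty_union] at hC
  obtain ⟨G, -, hG, hiG, hsG⟩ := (ind_empty v (sp F v C)).extend Sᶜ
  rw [empty_union] at hG
  have h1 : rk F v (C ∪ Sᶜ) ≤ rk F v (C ∪ G) := by
    refine Submodule.finrank_mono ?_
    rw [sp_union, sp_union]
    exact sup_le le_sup_left hsG
  have h2 := rk_submod (F := F) v (X := C) (Y := G) (U := C ∪ G) (I := ∅) subset_rfl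
    (empty_subset _) (empty_subset _)
  have h3 := rk_le_ncard (F := F) v G.toFinite
  obtain ⟨G', hG', hcard⟩ := Set.exists_subset_card_eq (show m + 1 ≤ G.ncard by omega)
  have e : G' ≃ Fin (m + 1) := Finite.equivFinOfCardEq (by rw [Nat.card_coe_set_eq, hcard])
  refine ⟨C, fun j => e.symm j, hC, hi, ?_, Subtype.val_injective.comp e.symm.injective,
    fun j => hG (hG' (e.symm j).2), hiG.mono le_rfl ?_⟩
  · refine eq_of_le_of_finrank_eq (sup_le (sp_mono v hRS) (sp_mono v (hC.trans inter_subset_right))) ?_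
    rw [← sp_union, union_comm]
    exact hr
  · rintro _ ⟨j, rfl⟩
    exact hG' (e.symm j).2

end Pool.Agent.MP_d99b12_co.H30
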