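import Pool.Agent.MP_d99b12_co.H30.Split
import Pool.Agent.MP_d99b12_co.H30.Link
import Pool.Agent.MP_d99b12_co.H30.Olson

/-!
Many pieces with frames give a minor of the form `M(K_{m+1,n})`, which is impossible.
-/

namespace Pool.Agent.MP_d99b12_co.H30

open Module Submodule Set

variable {F V ι : Type*} [Field F] [AddCommGroup V] [Module F V] [Fintype ι]

lemma Ind.of_range {v : ι → V} {W : Submodule F V} {μ : Type*} [Fintype μ] {g : μ → ι}
    (hg : Function.Injective g) (h : Ind v W (range g)) (a : μ → F)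
    (ha : ∑ j, a j • v (g j) ∈ W) : a = 0 := by
  classical
  have h1 := h (∑ j, Pi.single (g j) (a j)) (fun i hi => by
    rw [Finset.sum_apply]
    exact Finset.sum_eq_zero fun j _ => on_single (S := range g) ⟨j, rfl⟩ (a j) i hi)
    (by simpa only [map_sum, lc_single] using ha)
  funext j
  have := congrFun h1 (g j)
  rw [Finset.sum_apply, Finset.sum_eq_single j] at this
  · simpa using this
  · intro k _ hk
    exact Pi.single_eq_of_ne (fun h => hk (hg h).symm) _
  · simp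

omit [Fintype ι] in
lemma greedy {κ μ : Type*} [Fintype κ] [Nonempty μ] (γ : κ → μ → V) :
    ∃ (I : Finset κ) (jj : κ → μ), LinearIndepOn F (fun i => γ i (jj i)) I ∧
      ∀ i, i ∉ I → ∀ j, γ i j ∈ span F ((fun i => γ i (jj i)) '' I) := by
  classical
  obtain ⟨I, hI, hmax⟩ := Finset.exists_max_image
    (Finset.univ.filter fun I : Finset κ => ∃ jj : κ → μ, LinearIndepOn F (fun i => γ i (jj i)) I)
    Finset.card ⟨∅, by simp⟩
  obtain ⟨jj, hjj⟩ := (Finset.mem_filter.1 hI).2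
  refine ⟨I, jj, hjj, fun i hi j => ?_⟩
  by_contra hne
  have he : EqOn (fun k => γ k (jj k)) (fun k => γ k (Function.update jj i j k)) I := by
    intro k hk
    have : k ≠ i := fun h => hi (h ▸ hk)
    simp [this]
  have := hmax (insert i I) (Finset.mem_filter.2 ⟨Finset.mem_univ _, Function.update jj i j, by
    rw [Finset.coe_insert]
    exact (hjj.congr he).insert (by simpa [← he.image_eq] using hne)⟩)
  rw [Finset.card_insert_of_notMem hi] at this
  omega

/-- Pieces with frames. -/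
structure Frames (v : ι → V) (Z : Set ι) (n m : ℕ) (f : Fin n → V →ₗ[F] F) where
  R : Fin n → Set ι
  S : Fin n → Set ι
  C : Fin n → Set ι
  g : Fin n → Fin (m + 1) → ι
  pw : Pairwise fun i k => Disjoint (R i) (R k)
  piece : ∀ i, Piece v Z (R i) (S i) (f i)
  sub : ∀ i, C i ⊆ R i ∩ S i
  ind : ∀ i, Ind v (sp F v (R i)ᶜ) (C i)
  sup : ∀ i, sp F v (R i)ᶜ ⊔ sp F v (C i) = sp F v (S i)
  inj : ∀ i, Function.Injective (g i)
  notMem : ∀ i j, g i j ∉ S i
  indg : ∀ i, Ind v (sp F v (C i)) (range (g i))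

namespace Frames

variable {v : ι → V} {Z : Set ι} {n m : ℕ} {f : Fin n → V →ₗ[F] F} (D : Frames v Z n m f)

/-- The normalised frame vectors. -/
def u (i : Fin n) (j : Fin (m + 1)) : V := (f i (v (D.g i j)))⁻¹ • v (D.g i j)

lemma g_mem (i : Fin n) (j : Fin (m + 1)) : D.g i j ∈ D.R i := by
  by_contra h
  exact D.notMem i j ((D.piece i).sub h)

lemma f_of_mem {i : Fin n} {b : ι} (hb : b ∈ D.S i) : f i (v b) = 0 := by
  have := mem_sp_of_mem (F := F) v hb
  rwa [← (D.piece i).ker] at this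

lemma f_u (k i : Fin n) (j : Fin (m + 1)) : f k (D.u i j) = if k = i then 1 else 0 := by
  split_ifs with h
  · subst h
    rw [u, map_smul, smul_eq_mul, inv_mul_cancel₀ ((D.piece k).ne _ (D.notMem k j))]
  · rw [u, map_smul, D.f_of_mem ((D.piece k).sub fun h' =>
      Set.disjoint_left.1 (D.pw h) h' (D.g_mem i j)), smul_zero]

lemma u_mem {i : Fin n} {j : Fin (m + 1)} {T : Set ι} (h : D.g i j ∈ T) : D.u i j ∈ sp F v T :=
  smul_mem _ _ (mem_sp_of_mem v h)

lemma v_eq (i : Fin n) (j : Fin (m + 1)) : v (D.g i j) = f i (v (D.g i j)) • D.u i j := by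
  rw [u, smul_smul, mul_inv_cancel₀ ((D.piece i).ne _ (D.notMem i j)), one_smul]

lemma mem_of_ker {i : Fin n} {x : V} (h1 : x ∈ sp F v (D.R i)) (h2 : f i x = 0) :
    x ∈ sp F v Z ⊔ sp F v (D.C i) := by
  have h3 : x ∈ sp F v (D.R i)ᶜ ⊔ sp F v (D.C i) := by rw [D.sup, ← (D.piece i).ker]; exact h2
  obtain ⟨c, hc, h4⟩ := mem_sup_sp.1 h3
  exact mem_sup_sp.2 ⟨c, hc, (D.piece i).sep.mem_of
    (sub_mem h1 ((hc.mono ((D.sub i).trans inter_subset_left)).lc_mem v)) (mem_sup_right h4)⟩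

lemma exists_gamma : ∃ γ : Fin n → Fin m → V, (∀ i j, γ i j ∈ sp F v Z) ∧
    (∀ i j, D.u i j.succ - D.u i 0 - γ i j ∈ sp F v (D.C i)) ∧
    ∀ i (y : Fin m → F), ∑ j, y j • γ i j = 0 → y = 0 := by
  have h : ∀ i (j : Fin m), ∃ x ∈ sp F v Z, D.u i j.succ - D.u i 0 - x ∈ sp F v (D.C i) := by
    intro i j
    have := D.mem_of_ker (i := i) (x := D.u i j.succ - D.u i 0)
      (sub_mem (D.u_mem (D.g_mem _ _)) (D.u_mem (D.g_mem _ _))) (by simp [D.f_u])
    obtain ⟨x, hx, z, hz, he⟩ := mem_sup.1 this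
    exact ⟨x, hx, by rw [← he]; simpa using hz⟩
  choose γ h1 h2 using h
  refine ⟨γ, h1, h2, fun i y hy => ?_⟩
  have h3 : ∑ j, y j • (D.u i j.succ - D.u i 0 - γ i j) ∈ sp F v (D.C i) :=
    sum_mem fun j _ => smul_mem _ _ (h2 i j)
  have h4 := Ind.of_range (D.inj i) (D.indg i)
    (Fin.cons (-(∑ j, y j) * (f i (v (D.g i 0)))⁻¹) fun j => y j * (f i (v (D.g i j.succ)))⁻¹) (by
      rw [Fin.sum_univ_succ]
      simp only [Fin.cons_zero, Fin.cons_succ, mul_smul]
      convert h3 using 1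
      simp only [smul_sub, Finset.sum_sub_distrib, hy, ← Finset.sum_smul, u, neg_smul]
      abel)
  funext j
  have := congrFun h4 j.succ
  simpa [(D.piece i).ne _ (D.notMem i j.succ)] using this

lemma dec {W : Submodule F V} (hW : ∀ i, W ≤ LinearMap.ker (f i)) (jj : Fin n → Fin (m + 1))
    {x : V} (hx : x ∈ W ⊔ sp F v (range fun i => D.g i (jj i))) :
    x - ∑ i, f i x • D.u i (jj i) ∈ W := by
  let P : V →ₗ[F] V := LinearMap.id - ∑ i, (f i).smulRight (D.u i (jj i))
  have hP : ∀ x, P x = x - ∑ i, f i x • D.u i (jj i) := fun x => by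
    simp [P, LinearMap.sum_apply]
  have : W ⊔ sp F v (range fun i => D.g i (jj i)) ≤ W.comap P := by
    refine sup_le (fun x hx => ?_) (sp_le.2 ?_)
    · have : ∀ i, f i x = 0 := fun i => hW i hx
      simpa [hP, this] using hx
    · rintro _ ⟨i, rfl⟩
      rw [mem_comap, D.v_eq, map_smul, hP]
      simp [D.f_u]
  rw [← hP]
  exact this hx

lemma exists_base (htop : sp F v univ = ⊤) : ∃ B : Set ι, (∀ i, D.C i ⊆ B) ∧ (∀ i, B ⊆ D.S i) ∧
    ∀ jj : Fin n → Fin (m + 1), Ind v (sp F v Z) (B ∪ range fun i => D.g i (jj i)) ∧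
      sp F v Z ⊔ sp F v (B ∪ range fun i => D.g i (jj i)) = ⊤ := by
  classical
  obtain ⟨O, -, hO, hi, hs⟩ := (ind_empty v (sp F v Z)).extend (⋃ i, D.R i)ᶜ
  rw [empty_union] at hO
  have hOR : ∀ i, ∀ b ∈ O, b ∉ D.R i := fun i b hb h => hO hb (mem_iUnion.2 ⟨i, h⟩)
  refine ⟨O ∪ ⋃ i, D.C i, fun i => (subset_iUnion _ i).trans subset_union_right, fun i => ?_,
    fun jj => ⟨fun x hx hm => ?_, ?_⟩⟩
  · rintro b (hb | hb)
    · exact (D.piece i).sub (hOR i b hb)
    · obtain ⟨k, hk⟩ := mem_iUnion.1 hb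
      by_cases hki : k = i
      · subst hki; exact (D.sub k hk).2
      · exact (D.piece i).sub fun h => Set.disjoint_left.1 (D.pw hki) (D.sub k hk).1 h
  · have hR : ∀ i, (D.R i).indicator x = 0 := by
      intro i
      have h1 := (D.piece i).sep x hm
      have hZ : sp F v Z ≤ sp F v (D.R i)ᶜ :=
        sp_mono v (subset_compl_iff_disjoint_left.2 (D.piece i).disj)
      have h2 : On (D.C i) ((D.R i).indicator x - Pi.single (D.g i (jj i)) (x (D.g i (jj i)))) := by
        intro b hb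
        by_cases hbg : b = D.g i (jj i)
        · subst hbg; simp [D.g_mem]
        by_cases hbR : b ∈ D.R i
        · have : x b = 0 := hx b (by
            rintro ((h | h) | ⟨k, h⟩)
            · exact hOR i b h hbR
            · obtain ⟨k, hk⟩ := mem_iUnion.1 h
              by_cases hki : k = i
              · exact hb (hki ▸ hk)
              · exact Set.disjoint_left.1 (D.pw hki) (D.sub k hk).1 hbR
            · by_cases hki : k = i
              · exact hbg (hki ▸ h.symm)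
              · exact Set.disjoint_left.1 (D.pw hki) (D.g_mem k _) (h ▸ hbR))
          simp [hbg, hbR, this]
        · simp [hbg, hbR]
      have h3 : x (D.g i (jj i)) = 0 := by
        have h4 : f i (lc v ((D.R i).indicator x)) = 0 := by
          have := sp_mono (F := F) v (D.piece i).sub (hZ h1)
          rwa [← (D.piece i).ker] at this
        have h5 := (h2.mono ((D.sub i).trans inter_subset_right)).lc_mem v
        rw [← (D.piece i).ker, LinearMap.mem_ker, map_sub, map_sub, h4, lc_single, map_smul] at h5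
        simpa [(D.piece i).ne _ (D.notMem i _)] using h5
      rw [h3, Pi.single_zero, sub_zero] at h2
      exact D.ind i _ h2 (hZ h1)
    refine hi x (fun b hb => ?_) hm
    by_cases hbR : ∃ i, b ∈ D.R i
    · obtain ⟨i, hi⟩ := hbR
      simpa [hi] using congrFun (hR i) b
    · refine hx b ?_
      rintro ((h | h) | ⟨k, h⟩)
      · exact hb h
      · obtain ⟨k, hk⟩ := mem_iUnion.1 h
        exact hbR ⟨k, (D.sub k hk).1⟩
      · exact hbR ⟨k, h ▸ D.g_mem k _⟩
  · rw [eq_top_iff, ← htop, sp_le]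
    intro b _
    by_cases hbR : ∃ i, b ∈ D.R i
    · obtain ⟨i, hi⟩ := hbR
      have h1 := D.mem_of_ker (i := i) (x := v b - f i (v b) • D.u i (jj i))
        (sub_mem (mem_sp_of_mem v hi) (smul_mem _ _ (D.u_mem (D.g_mem _ _)))) (by simp [D.f_u])
      have h2 : sp F v Z ⊔ sp F v (D.C i) ≤
          sp F v Z ⊔ sp F v ((O ∪ ⋃ i, D.C i) ∪ range fun i => D.g i (jj i)) :=
        sup_le_sup_left (sp_mono v (((subset_iUnion _ i).trans subset_union_right).trans
          subset_union_left)) _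
      simpa using add_mem (h2 h1) (mem_sup_right (smul_mem _ (f i (v b))
        (D.u_mem (i := i) (j := jj i) (Or.inr ⟨i, rfl⟩))))
    · have h2 : sp F v Z ⊔ sp F v O ≤
          sp F v Z ⊔ sp F v ((O ∪ ⋃ i, D.C i) ∪ range fun i => D.g i (jj i)) :=
        sup_le_sup_left (sp_mono v (subset_union_left.trans subset_union_left)) _
      exact h2 (hs (mem_sp_of_mem v (by simpa using hbR)))

/-- The hyperplanes of the minor `M(K_{m+1,n})`. -/
lemma mem_iff {B : Set ι} (hCB : ∀ i, D.C i ⊆ B) (hBS : ∀ i, B ⊆ D.S i) {γ : Fin m → V}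
    (hu : ∀ y : Fin m → F, ∑ j, y j • γ j ∈ sp F v B → y = 0) {Sel : Finset (Fin n)}
    (hγ : ∀ i ∈ Sel, ∀ j, D.u i j.succ - D.u i 0 - γ j ∈ sp F v (D.C i))
    {I : Finset (Fin m)} {J : Finset (Fin n)} (hI : I.Nonempty) (hJS : J ⊆ Sel) (hJ : J.Nonempty)
    (hJ' : (Sel \ J).Nonempty) {a : V} {y : Fin m → F}
    (hy : a - ∑ i, f i a • D.u i 0 - ∑ j, y j • γ j ∈ sp F v B) :
    a ∈ sp F v (B ∪ {b | (∃ i, i ∉ J ∧ b = D.g i 0) ∨
      ∃ i ∈ Sel, ∃ j : Fin m, (i ∈ J ↔ j ∈ I) ∧ b = D.g i j.succ}) ↔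
      ∑ j ∈ I, y j = ∑ i ∈ J, f i a := by
  classical
  set T := B ∪ {b | (∃ i, i ∉ J ∧ b = D.g i 0) ∨
      ∃ i ∈ Sel, ∃ j : Fin m, (i ∈ J ↔ j ∈ I) ∧ b = D.g i j.succ} with hT
  have hB : sp F v B ≤ sp F v T := sp_mono v subset_union_left
  have hγB : ∀ i ∈ Sel, ∀ j, D.u i j.succ - D.u i 0 - γ j ∈ sp F v B :=
    fun i hi j => sp_mono v (hCB i) (hγ i hi j)
  constructor
  · intro ha
    have key : ∀ x ∈ sp F v T, ∃ y : Fin m → F,
        x - ∑ i, f i x • D.u i 0 - ∑ j, y j • γ j ∈ sp F v B ∧ ∑ j ∈ I, y j = ∑ i ∈ J, f i x := by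
      have smul : ∀ (s : F) (x : V), (∃ y : Fin m → F,
          x - ∑ i, f i x • D.u i 0 - ∑ j, y j • γ j ∈ sp F v B ∧ ∑ j ∈ I, y j = ∑ i ∈ J, f i x) →
          ∃ y : Fin m → F, s • x - ∑ i, f i (s • x) • D.u i 0 - ∑ j, y j • γ j ∈ sp F v B ∧
            ∑ j ∈ I, y j = ∑ i ∈ J, f i (s • x) := by
        rintro s x ⟨y, h1, h2⟩
        refine ⟨s • y, ?_, by simp [← Finset.mul_sum, h2]⟩
        convert smul_mem _ s h1 using 1
        simp [smul_sub, Finset.smul_sum, mul_smul]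
      intro x hx
      induction hx using span_induction with
      | mem x hx =>
        obtain ⟨b, hb | ⟨i, hi, rfl⟩ | ⟨i, hi, j, hij, rfl⟩, rfl⟩ := hx
        · have : ∀ i, f i (v b) = 0 := fun i => D.f_of_mem (hBS i hb)
          exact ⟨0, by simpa [this] using mem_sp_of_mem v hb, by simp [this]⟩
        · rw [D.v_eq]
          exact smul _ _ ⟨0, by simp [D.f_u], by simp [D.f_u, hi]⟩
        · rw [D.v_eq]
          refine smul _ _ ⟨Pi.single j 1, ?_, ?_⟩
          · simpa [D.f_u, Pi.single_apply] using hγB i hi j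
          · simp [D.f_u, Pi.single_apply, hij]
      | zero => exact ⟨0, by simp, by simp⟩
      | add x x' _ _ hx hx' =>
        obtain ⟨y, h1, h2⟩ := hx
        obtain ⟨y', h1', h2'⟩ := hx'
        refine ⟨y + y', ?_, by simp [Finset.sum_add_distrib, h2, h2']⟩
        convert add_mem h1 h1' using 1
        simp only [map_add, add_smul, Finset.sum_add_distrib, Pi.add_apply]
        abel
      | smul s x _ hx => exact smul s x hx
    obtain ⟨y', h1, h2⟩ := key a ha
    have : y' - y = 0 := hu _ (by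
      convert sub_mem hy h1 using 1
      simp only [Pi.sub_apply, sub_smul, Finset.sum_sub_distrib]
      abel)
    rw [← sub_eq_zero.1 this, h2]
  · intro he
    obtain ⟨j₀, hj₀⟩ := hI
    obtain ⟨i₀, hi₀⟩ := hJ
    obtain ⟨i₁, hi₁⟩ := hJ'
    rw [Finset.mem_sdiff] at hi₁
    have h0 : ∀ i, i ∉ J → D.u i 0 ∈ sp F v T := fun i hi => D.u_mem (Or.inr (Or.inl ⟨i, hi, rfl⟩))
    have h1 : ∀ j, j ∉ I → γ j ∈ sp F v T := fun j hj => by
      have h2 : D.u i₁ j.succ ∈ sp F v T :=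
        D.u_mem (Or.inr (Or.inr ⟨i₁, hi₁.1, j, iff_of_false hi₁.2 hj, rfl⟩))
      simpa using sub_mem (sub_mem h2 (h0 i₁ hi₁.2)) (hB (hγB i₁ hi₁.1 j))
    have h2 : ∀ i ∈ J, ∀ j ∈ I, D.u i 0 + γ j ∈ sp F v T := fun i hi j hj => by
      have h3 : D.u i j.succ ∈ sp F v T :=
        D.u_mem (Or.inr (Or.inr ⟨i, hJS hi, j, iff_of_true hi hj, rfl⟩))
      convert sub_mem h3 (hB (hγB i (hJS hi) j)) using 1
      abel
    have h3 : ∑ i, f i a • D.u i 0 - (∑ i ∈ J, f i a) • D.u i₀ 0 ∈ sp F v T := by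
      rw [← Finset.sum_add_sum_compl J, Finset.sum_smul, add_sub_right_comm,
        ← Finset.sum_sub_distrib]
      refine add_mem (sum_mem fun i hi => ?_) (sum_mem fun i hi =>
        smul_mem _ _ (h0 i (Finset.mem_compl.1 hi)))
      rw [← smul_sub]
      exact smul_mem _ _ (by simpa using sub_mem (h2 i hi j₀ hj₀) (h2 i₀ hi₀ j₀ hj₀))
    have h4 : ∑ j, y j • γ j + (∑ j ∈ I, y j) • D.u i₀ 0 ∈ sp F v T := by
      rw [← Finset.sum_add_sum_compl I, Finset.sum_smul, add_right_comm, ← Finset.sum_add_distrib]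
      refine add_mem (sum_mem fun j hj => ?_) (sum_mem fun j hj =>
        smul_mem _ _ (h1 j (Finset.mem_compl.1 hj)))
      rw [← smul_add, add_comm]
      exact smul_mem _ _ (h2 i₀ hi₀ j hj)
    convert add_mem (add_mem (hB hy) h3) h4 using 1
    rw [he]; abel

end Frames

end Pool.Agent.MP_d99b12_co.H30
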