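import Pool.Agent.MP_d99b12_co.H30.Chain

/-!
If the points have large rank, then modulo some ear chain there are many disjoint separators on
which they take independent values.
-/

namespace Pool.Agent.MP_d99b12_co.H30

open Module Submodule Set

variable {F V ι : Type*} [Field F] [AddCommGroup V] [Module F V] [Fintype ι]

/-- A separator `R` modulo `Z` with a hyperplane `S` whose complement lies in `R`. -/
structure Piece (v : ι → V) (Z R S : Set ι) (f : V →ₗ[F] F) : Prop where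
  disj : Disjoint R Z
  sep : Sep v (sp F v Z) R
  sub : Rᶜ ⊆ S
  ker : LinearMap.ker f = sp F v S
  ne : ∀ b, b ∉ S → f (v b) ≠ 0

omit [Fintype ι] in
lemma exists_hyperplane [Finite ι] {v : ι → V} (htop : sp F v univ = ⊤) {T : Set ι} {ψ : V}
    (hψ : ψ ∉ sp F v T) : ∃ (S : Set ι) (f : V →ₗ[F] F), T ⊆ S ∧ LinearMap.ker f = sp F v S ∧
      (∀ b, b ∉ S → f (v b) ≠ 0) ∧ f ψ = 1 := by
  obtain ⟨S, ⟨hTS, hS⟩, hmax⟩ := (wellFounded_gt (α := Set ι)).has_min
    {S | T ⊆ S ∧ ψ ∉ sp F v S} ⟨T, subset_rfl, hψ⟩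
  have key : ∀ b, b ∉ S → ∃ s : F, s ≠ 0 ∧ ψ - s • v b ∈ sp F v S := by
    intro b hb
    have : ψ ∈ sp F v (insert b S) := by
      by_contra hne
      exact hmax _ ⟨hTS.trans (subset_insert _ _), hne⟩ (ssubset_insert hb)
    rw [sp, image_insert_eq, mem_span_insert] at this
    obtain ⟨s, z, hz, rfl⟩ := this
    refine ⟨s, ?_, by simpa [sp] using hz⟩
    rintro rfl
    exact hS (by simpa [sp] using hz)
  obtain ⟨f₀, hf₀, hker⟩ := Submodule.exists_le_ker_of_notMem hS
  let f : V →ₗ[F] F := (f₀ ψ)⁻¹ • f₀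
  have hf : f ψ = 1 := by simp [f, hf₀]
  have hker' : sp F v S ≤ LinearMap.ker f := fun x hx => by
    have : f₀ x = 0 := hker hx
    simp [f, this]
  have hall : ∀ x : V, x - f x • ψ ∈ sp F v S := by
    intro x
    have hx : x ∈ sp F v univ := htop ▸ mem_top
    induction hx using span_induction with
    | mem x hx =>
      obtain ⟨b, -, rfl⟩ := hx
      by_cases hb : b ∈ S
      · have : f (v b) = 0 := hker' (mem_sp_of_mem v hb)
        simpa [this] using mem_sp_of_mem v hb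
      · obtain ⟨s, hs, hm⟩ := key b hb
        have h1 : f (ψ - s • v b) = 0 := hker' hm
        rw [map_sub, map_smul, hf, smul_eq_mul, sub_eq_zero] at h1
        have h2 : f (v b) = s⁻¹ := (eq_inv_of_mul_eq_one_right h1.symm)
        have := smul_mem _ (-s⁻¹) hm
        rw [h2]; convert this using 1
        rw [smul_sub, smul_smul, neg_mul, inv_mul_cancel₀ hs]; simp only [neg_smul, one_smul]; abel
    | zero => simp
    | add x y _ _ hx hy =>
      have := add_mem hx hy
      rw [map_add, add_smul]; convert this using 1; abel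
    | smul s x _ hx =>
      have := smul_mem _ s hx
      rw [map_smul, smul_eq_mul, mul_smul]; rwa [smul_sub] at this
  refine ⟨S, f, hTS, le_antisymm (fun x hx => ?_) hker', fun b hb h0 => ?_, hf⟩
  · have := hall x
    rwa [LinearMap.mem_ker.1 hx, zero_smul, sub_zero] at this
  · obtain ⟨s, -, hm⟩ := key b hb
    have h1 : f (ψ - s • v b) = 0 := hker' hm
    simp [hf, h0] at h1

lemma reach_subset {v : ι → V} {s s' : St F ι} (h : Relation.ReflTransGen (Step v) s s') :
    s.Z ⊆ s'.Z := by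
  induction h with
  | refl => exact subset_rfl
  | tail _ hst ih => exact ih.trans (hst.1 ▸ subset_union_left)

lemma Sep.of_subset {v : ι → V} {Z Z' T : Set ι} (h : Sep v (sp F v Z) T) (hZ : Z ⊆ Z')
    (hd : Disjoint T Z') : Sep v (sp F v Z') T := by
  have := h.sup_disjoint hd
  rwa [← sp_union, union_eq_self_of_subset_left hZ] at this

/-- An active separator: every visible part of it is attached to the last ear. -/
def Good (v : ι → V) (A : Set V) (s : St F ι) (R : Set ι) : Prop :=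
  Disjoint R s.Z ∧ Sep v (sp F v s.Z) R ∧
    ∀ T ⊆ R, ¬ span F A ≤ sp F v Tᶜ → ¬ Sep v (sp F v s.Y) T

/-- The output: `n` pieces with dual vectors. -/
def Out (v : ι → V) (n : ℕ) (s : St F ι) (R : Set ι) (Ψ : Submodule F V) : Prop :=
  ∃ s' : St F ι, Relation.ReflTransGen (Step v) s s' ∧ s'.Z ⊆ s.Z ∪ R ∧
    ∃ (Rs S : Fin n → Set ι) (f : Fin n → V →ₗ[F] F) (ψ : Fin n → V),
      Pairwise (fun i k => Disjoint (Rs i) (Rs k)) ∧ (∀ i, Rs i ⊆ R) ∧
      (∀ i, Piece v s'.Z (Rs i) (S i) (f i)) ∧ (∀ i, ψ i ∈ Ψ) ∧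
      ∀ i k, f k (ψ i) = if k = i then 1 else 0

/-- The required rank. -/
def need (β : ℕ) : ℕ → ℕ
  | 0 => 0
  | n + 1 => β + 2 * (need β n + 1)

lemma out_cons {v : ι → V} (htop : sp F v univ = ⊤) {n : ℕ} {s : St F ι} {T T' : Set ι}
    {Ψ : Submodule F V} (hT : Disjoint T s.Z) (hsep : Sep v (sp F v s.Z) T) (hTT : Disjoint T T')
    (hvis : ¬ Ψ ≤ sp F v Tᶜ)
    (ih : ∀ f : V →ₗ[F] F, Out v n s T' (Ψ ⊓ LinearMap.ker f)) : Out v (n + 1) s (T ∪ T') Ψ := by
  obtain ⟨ψ₀, hψ₀, hψ₀'⟩ := SetLike.not_le_iff_exists.1 hvis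
  obtain ⟨S₀, f₀, h1, h2, h3, h4⟩ := exists_hyperplane htop hψ₀'
  obtain ⟨s', hr, hZ, Rs, S, f, ψ, hpw, hsub, hp, hψ, hdual⟩ := ih f₀
  have hdisj : Disjoint T s'.Z := (Disjoint.union_right hT hTT).mono_right hZ
  refine ⟨s', hr, hZ.trans (union_subset_union_right _ subset_union_right), Fin.cons T Rs,
    Fin.cons S₀ S, Fin.cons f₀ f, Fin.cons (ψ₀ - ∑ i, f i ψ₀ • ψ i) ψ, ?_, ?_, ?_, ?_, ?_⟩
  · intro i k hik
    induction i using Fin.cases with
    | zero =>
      induction k using Fin.cases with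
      | zero => exact absurd rfl hik
      | succ k => simpa using hTT.mono_right (hsub k)
    | succ i =>
      induction k using Fin.cases with
      | zero => simpa using (hTT.mono_right (hsub i)).symm
      | succ k => simpa using hpw (fun h => hik (congrArg _ h))
  · intro i
    induction i using Fin.cases with
    | zero => simp
    | succ i => simpa using (hsub i).trans subset_union_right
  · intro i
    induction i using Fin.cases with
    | zero => simpa using ⟨hdisj, hsep.of_subset (reach_subset hr) hdisj, h1, h2, h3⟩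
    | succ i => simpa using hp i
  · intro i
    induction i using Fin.cases with
    | zero => simpa using sub_mem hψ₀ (sum_mem fun i _ => smul_mem _ _ (hψ i).1)
    | succ i => simpa using (hψ i).1
  · have h0 : ∀ i, f₀ (ψ i) = 0 := fun i => (hψ i).2
    intro i k
    induction i using Fin.cases with
    | zero =>
      induction k using Fin.cases with
      | zero => simp [h0, h4]
      | succ k => simp [hdual]
    | succ i =>
      induction k using Fin.cases with
      | zero => simp [h0, (Fin.succ_ne_zero i).symm]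
      | succ k => simp [hdual]

variable [FiniteDimensional F V] [Fintype F]

lemma rho_local {v : ι → V} {A : Set V} (hA : Hyp F v A) (htop : sp F v univ = ⊤)
    {s₀ s₁ : St F ι} (h₀ : s₀.Valid v) (hY : s₀.Y = ∅)
    (hr : Relation.ReflTransGen (Step v) s₀ s₁) {Z R : Set ι} (hR : Disjoint R Z)
    (hsep : Sep v (sp F v Z) R) (hZ : Z ⊆ s₁.Z) (hZ' : s₁.Z ⊆ Z ∪ R) {Ψ : Submodule F V}
    (hΨ : Ψ ≤ span F A) :
    rho Ψ (sp F v Rᶜ) ≤ Fintype.card F * Fintype.card F + rho Ψ (sp F v Rᶜ ⊔ sp F v s₁.Z) := by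
  obtain ⟨O₁, -, hO₁, hi₁, hs₁⟩ := (ind_empty v (sp F v Z)).extend Rᶜ
  rw [empty_union] at hO₁
  have hi₂ : Ind v (sp F v s₁.Z) O₁ := by
    intro o ho hm
    refine hi₁ o ho ?_
    have h1 : lc v o ∈ sp F v Z ⊔ sp F v R := by
      rw [← sp_union]; exact sp_mono v hZ' hm
    obtain ⟨r, hr, h2⟩ := mem_sup_sp.1 h1
    have h3 : lc v r ∈ sp F v Z := hsep.mem_of (hr.lc_mem v) (by
      have := sub_mem (mem_sup_right (S := sp F v Z) ((ho.mono hO₁).lc_mem v)) (mem_sup_left h2)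
      simpa using this)
    simpa using add_mem h2 h3
  obtain ⟨O, hO, -, hiO, hsO⟩ := hi₂.extend univ
  have hb := (rho_mono hΨ _).trans (rho_chain hA h₀ hY hr hiO (eq_top_iff.2 (htop ▸ hsO)))
  have h1 : (sp F v s₁.Z ⊔ sp F v O₁) ⊓ (sp F v Z ⊔ sp F v O) ≤ sp F v Rᶜ :=
    (hiO.inf_le (sp_mono v hZ) hO).trans
      (sup_le (sp_mono v (subset_compl_iff_disjoint_left.2 hR)) (sp_mono v hO₁))
  have h2 := (rho_anti Ψ h1).trans (rho_inf_le _ _ _)
  have h3 : rho Ψ (sp F v Z ⊔ sp F v O) ≤ rho Ψ (sp F v O) := rho_anti _ le_sup_right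
  have h4 : rho Ψ (sp F v s₁.Z ⊔ sp F v O₁) ≤ rho Ψ (sp F v Rᶜ ⊔ sp F v s₁.Z) :=
    rho_anti _ (sup_le (hs₁.trans (sup_le_sup_right (sp_mono v hZ) _)) le_sup_left)
  omega

theorem exists_out {v : ι → V} {A : Set V} (hA : Hyp F v A) (htop : sp F v univ = ⊤)
    {s₀ : St F ι} (h₀ : s₀.Valid v) (hY : s₀.Y = ∅) (n : ℕ) :
    ∀ (s : St F ι) (R : Set ι) (Ψ : Submodule F V), Relation.ReflTransGen (Step v) s₀ s →
      Good v A s R → Ψ ≤ span F A →
      need (Fintype.card F * Fintype.card F) n ≤ rho Ψ (sp F v Rᶜ) → Out v n s R Ψ := by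
  induction n with
  | zero =>
    intro s R Ψ _ _ _ _
    exact ⟨s, .refl, subset_union_left, Fin.elim0, Fin.elim0, Fin.elim0, Fin.elim0,
      fun i => i.elim0, fun i => i.elim0, fun i => i.elim0, fun i => i.elim0, fun i => i.elim0⟩
  | succ n ih =>
    intro s R Ψ hs hG hΨ hneed
    suffices H : ∀ (R₁ : Set ι) (s₁ : St F ι) (T₀ : Set ι), Relation.ReflTransGen (Step v) s s₁ →
        Good v A s₁ R₁ → R₁ ⊆ R → s₁.Z ⊆ s.Z ∪ R → Disjoint T₀ s₁.Z → R ⊆ s₁.Z ∪ (R₁ ∪ T₀) →
        Ψ ≤ sp F v T₀ᶜ → Out v (n + 1) s R Ψ from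
      H R s ∅ .refl hG subset_rfl subset_union_left (empty_disjoint _)
        (fun i hi => Or.inr (Or.inl hi)) (by rw [compl_empty, htop]; exact le_top)
    intro R₁
    induction R₁ using WellFoundedLT.induction with
    | ind R₁ ihR =>
    intro s₁ T₀ hs₁ hG₁ hR₁ hZ₁ hT₀ hcov hinv
    have hbig : 2 * (need (Fintype.card F * Fintype.card F) n + 1) ≤ rho Ψ (sp F v R₁ᶜ) := by
      have h1 := rho_local hA htop h₀ hY (hs.trans hs₁) hG.1 hG.2.1 (reach_subset hs₁) hZ₁ hΨ
      have h2 : sp F v R₁ᶜ ⊓ sp F v T₀ᶜ ≤ sp F v Rᶜ ⊔ sp F v s₁.Z := by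
        refine (hG₁.2.1.inf_le T₀).trans (sup_le le_sup_right ?_)
        rw [← sp_union]
        refine sp_mono v fun i hi => ?_
        by_cases hiR : i ∈ R
        · exact Or.inr ((hcov hiR).resolve_right hi)
        · exact Or.inl hiR
      have h3 := (rho_anti Ψ h2).trans (rho_inf_le _ _ _)
      rw [rho_eq_zero.2 hinv] at h3
      simp only [need] at hneed
      omega
    have fin : ∀ T T' : Set ι, T ∪ T' = R₁ → Disjoint T T' → Sep v (sp F v s₁.Z) T →
        Sep v (sp F v s₁.Z) T' → ¬ Ψ ≤ sp F v Tᶜ →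
        need (Fintype.card F * Fintype.card F) n + 1 ≤ rho Ψ (sp F v T'ᶜ) →
        Out v (n + 1) s R Ψ := by
      intro T T' hu hd h1 h2 hvis hrho
      have hT : T ⊆ R₁ := hu ▸ subset_union_left
      have hT' : T' ⊆ R₁ := hu ▸ subset_union_right
      obtain ⟨s', hr, hZ, Rs, S, f, ψ, hpw, hsub, hrest⟩ :=
        out_cons htop (hG₁.1.mono_left hT) h1 hd hvis fun f =>
          ih s₁ T' _ (hs.trans hs₁) ⟨hG₁.1.mono_left hT', h2, fun X hX => hG₁.2.2 X (hX.trans hT')⟩
            (inf_le_left.trans hΨ) (by have := rho_ker_le Ψ (sp F v T'ᶜ) f; omega)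
      rw [hu] at hZ hsub
      exact ⟨s', hs₁.trans hr, hZ.trans (union_subset hZ₁ (hR₁.trans subset_union_right)), Rs, S,
        f, ψ, hpw, fun i => (hsub i).trans hR₁, hrest⟩
    have drop : ∀ T T' : Set ι, T ∪ T' = R₁ → Disjoint T T' → T.Nonempty →
        Sep v (sp F v s₁.Z) T → Sep v (sp F v s₁.Z) T' → Ψ ≤ sp F v Tᶜ →
        Out v (n + 1) s R Ψ := by
      intro T T' hu hd hne h1 h2 hin
      have hT : T ⊆ R₁ := hu ▸ subset_union_left
      have hT' : T' ⊆ R₁ := hu ▸ subset_union_right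
      obtain ⟨t, ht⟩ := hne
      refine ihR T' ⟨hT', fun h => Set.disjoint_left.1 hd ht (h (hT ht))⟩ s₁ (T ∪ T₀) hs₁
        ⟨hG₁.1.mono_left hT', h2, fun X hX => hG₁.2.2 X (hX.trans hT')⟩ (hT'.trans hR₁) hZ₁
        (Disjoint.union_left (hG₁.1.mono_left hT) hT₀) ?_ ?_
      · intro i hi
        rcases hcov hi with h | h | h
        · exact Or.inl h
        · rcases (hu ▸ h : i ∈ T ∪ T') with h | h
          · exact Or.inr (Or.inr (Or.inl h))
          · exact Or.inr (Or.inl h)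
        · exact Or.inr (Or.inr (Or.inr h))
      · refine (le_inf hin hinv).trans ((h1.inf_le T₀).trans (sup_le (sp_mono v ?_) le_rfl))
        exact subset_compl_iff_disjoint_left.2 (Disjoint.union_left (hG₁.1.mono_left hT) hT₀)
    by_cases hsplit : ∃ T, T ⊆ R₁ ∧ T.Nonempty ∧ (R₁ \ T).Nonempty ∧ Sep v (sp F v s₁.Z) T
    · obtain ⟨T, hT, hne, hne', hsep⟩ := hsplit
      have hsep' := hG₁.2.1.diff hsep hT
      have hu : T ∪ (R₁ \ T) = R₁ := union_sdiff_cancel hT
      have hu' : (R₁ \ T) ∪ T = R₁ := by rw [union_comm, hu]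
      have hd : Disjoint T (R₁ \ T) := disjoint_sdiff_right
      by_cases h1 : Ψ ≤ sp F v Tᶜ
      · exact drop T _ hu hd hne hsep hsep' h1
      by_cases h2 : Ψ ≤ sp F v (R₁ \ T)ᶜ
      · exact drop _ T hu' hd.symm hne' hsep' hsep h2
      have h3 : sp F v Tᶜ ⊓ sp F v (R₁ \ T)ᶜ ≤ sp F v R₁ᶜ := by
        refine (hsep.inf_le _).trans (sup_le (sp_mono v ?_) (by rw [hu]))
        exact subset_compl_iff_disjoint_left.2 hG₁.1
      have h4 := (rho_anti Ψ h3).trans (rho_inf_le _ _ _)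
      by_cases h5 : need (Fintype.card F * Fintype.card F) n + 1 ≤ rho Ψ (sp F v (R₁ \ T)ᶜ)
      · exact fin T _ hu hd hsep hsep' h1 h5
      · exact fin _ T hu' hd.symm hsep' hsep h2 (by omega)
    · have hvis : ¬ span F A ≤ sp F v R₁ᶜ := fun h => by
        rw [rho_eq_zero.2 (hΨ.trans h)] at hbig; omega
      obtain ⟨K, c, hK, hc, hatt⟩ := exists_ear (sp_mono v subset_union_left) hG₁.2.1
        (hG₁.2.2 R₁ subset_rfl hvis)
      obtain ⟨t, ht⟩ := hc.nonempty
      have hst : Step v s₁ ⟨s₁.Z, K, c⟩ := ⟨rfl, ⟨hc, hG₁.1.mono_left hK⟩, hatt⟩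
      refine ihR (R₁ \ K) ⟨sdiff_subset, fun h => (h (hK ht)).2 ht⟩ ⟨s₁.Z, K, c⟩ (T₀ \ K)
        (hs₁.tail hst) ⟨?_, ?_, ?_⟩ (sdiff_subset.trans hR₁) ?_ ?_ ?_ ?_
      · exact Disjoint.union_right (hG₁.1.mono_left sdiff_subset) disjoint_sdiff_left
      · simpa only [St.Z, sp_union] using hG₁.2.1.sup_subset hK
      · intro T hT hv hsep
        refine hsplit ⟨T, hT.trans sdiff_subset, ?_, ⟨t, hK ht, fun h => (hT h).2 ht⟩, hsep⟩
        rw [nonempty_iff_ne_empty]
        rintro rfl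
        exact hv (by rw [compl_empty, htop]; exact le_top)
      · exact union_subset hZ₁ ((hK.trans hR₁).trans subset_union_right)
      · exact Disjoint.union_right (hT₀.mono_left sdiff_subset) disjoint_sdiff_left
      · intro i hi
        by_cases hiK : i ∈ K
        · exact Or.inl (Or.inr hiK)
        · rcases hcov hi with h | h | h
          · exact Or.inl (Or.inl h)
          · exact Or.inr (Or.inl ⟨h, hiK⟩)
          · exact Or.inr (Or.inr ⟨h, hiK⟩)
      · exact hinv.trans (sp_mono v (compl_subset_compl.2 sdiff_subset))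

end Pool.Agent.MP_d99b12_co.H30
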